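import Mathlib
import Pool.Agent.Work.MP_af588c_co.TB7

-- merged part: Pool.Agent.Work.MP_af588c_co.LB.Arr
section
/-! Products over bipartite patterns, resampling of one row and one column. -/

set_option linter.unusedSectionVars false

namespace Pool.Agent.Work.MP_af588c_co.LB

open Finset
open scoped BigOperators
open Pool.Agent.Work.MP_af588c_co.TB

variable {X Y Z : Type*} [Fintype X] [Fintype Y] [Fintype Z] [Nonempty X] [Nonempty Y] [Nonempty Z]
variable {ι κ : Type*} [Fintype ι] [Fintype κ] [DecidableEq ι] [DecidableEq κ]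

lemma resample (F : (ι → X) → ℝ) (i : ι) :
    𝔼 x, F x = 𝔼 x : ι → X, 𝔼 x0 : X, F (Function.update x i x0) := by
  classical
  let e : (ι → X) × X → (ι → X) × X := fun r => (Function.update r.1 i r.2, r.1 i)
  have he : Function.Involutive e := fun r => by simp [e]
  have h1 := exp_prod (fun r : (ι → X) × X => F (Function.update r.1 i r.2))
  have h2 := exp_prod (fun r : (ι → X) × X => F r.1)
  simp only [Fintype.expect_const] at h2
  rw [← h1, ← h2]
  exact (Fintype.expect_bijective e he.bijective _ _ (fun r => rfl)).symm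

lemma resample2 (F : (ι → X) → (κ → Y) → ℝ) (i : ι) (j : κ) :
    𝔼 x, 𝔼 y, F x y = 𝔼 x : ι → X, 𝔼 y : κ → Y, 𝔼 x0 : X, 𝔼 y0 : Y,
      F (Function.update x i x0) (Function.update y j y0) := by
  rw [resample (fun x => 𝔼 y, F x y) i]
  refine Finset.expect_congr rfl fun x _ => ?_
  rw [Finset.expect_comm (Finset.univ : Finset (κ → Y))]
  exact Finset.expect_congr rfl fun x0 _ => resample _ j

noncomputable def pe (h : X → Y → ℝ) (J : Finset (ι × κ)) (x : ι → X) (y : κ → Y) : ℝ :=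
  ∏ e ∈ J, h (x e.1) (y e.2)

noncomputable def rowp (h : X → Y → ℝ) (J : Finset (ι × κ)) (i : ι) (j : κ) (y : κ → Y)
    (x0 : X) : ℝ := ∏ e ∈ J.filter (fun e => e.1 = i ∧ e.2 ≠ j), h x0 (y e.2)

noncomputable def colp (h : X → Y → ℝ) (J : Finset (ι × κ)) (i : ι) (j : κ) (x : ι → X)
    (y0 : Y) : ℝ := ∏ e ∈ J.filter (fun e => e.1 ≠ i ∧ e.2 = j), h (x e.1) y0

def rst (J : Finset (ι × κ)) (i : ι) (j : κ) : Finset (ι × κ) :=
  J.filter (fun e => e.1 ≠ i ∧ e.2 ≠ j)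

lemma rst_sub (J : Finset (ι × κ)) (i : ι) (j : κ) : rst J i j ⊆ J := Finset.filter_subset _ _

lemma dec (h : X → Y → ℝ) {J : Finset (ι × κ)} {i : ι} {j : κ} (hJ : (i, j) ∉ J) (x : ι → X)
    (y : κ → Y) (x0 : X) (y0 : Y) :
    pe h J (Function.update x i x0) (Function.update y j y0)
      = rowp h J i j y x0 * colp h J i j x y0 * pe h (rst J i j) x y := by
  unfold pe rowp colp rst
  rw [Finset.prod_filter, Finset.prod_filter, Finset.prod_filter, ← Finset.prod_mul_distrib,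
    ← Finset.prod_mul_distrib]
  refine Finset.prod_congr rfl fun e he => ?_
  obtain ⟨k, l⟩ := e
  by_cases h1 : k = i
  · by_cases h2 : l = j
    · subst h1 h2; exact absurd he hJ
    · subst h1; simp [h2]
  · by_cases h2 : l = j
    · subst h2; simp [h1]
    · simp [h1, h2]

lemma pe_ins (h : X → Y → ℝ) {J : Finset (ι × κ)} {i : ι} {j : κ} (hJ : (i, j) ∉ J) (x : ι → X)
    (y : κ → Y) : pe h (insert (i, j) J) x y = h (x i) (y j) * pe h J x y := by
  unfold pe; rw [Finset.prod_insert hJ]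

lemma pe_far (h : X → Y → ℝ) {S : Finset (ι × κ)} {i : ι} {j : κ}
    (hS : ∀ e ∈ S, e.1 ≠ i ∧ e.2 ≠ j) (x : ι → X) (y : κ → Y) (x0 : X) (y0 : Y) :
    pe h S (Function.update x i x0) (Function.update y j y0) = pe h S x y :=
  Finset.prod_congr rfl fun e he => by
    rw [Function.update_of_ne (hS e he).1, Function.update_of_ne (hS e he).2]

lemma rowp_upd (h : X → Y → ℝ) (J : Finset (ι × κ)) (i : ι) (j : κ) (y : κ → Y) (y0 : Y) :
    rowp h J i j (Function.update y j y0) = rowp h J i j y :=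
  funext fun _ => Finset.prod_congr rfl fun e he => by
    rw [Function.update_of_ne (Finset.mem_filter.1 he).2.2]

lemma colp_upd (h : X → Y → ℝ) (J : Finset (ι × κ)) (i : ι) (j : κ) (x : ι → X) (x0 : X) :
    colp h J i j (Function.update x i x0) = colp h J i j x :=
  funext fun _ => Finset.prod_congr rfl fun e he => by
    rw [Function.update_of_ne (Finset.mem_filter.1 he).2.1]

lemma pe_nonneg {h : X → Y → ℝ} (h0 : ∀ x y, 0 ≤ h x y) (J : Finset (ι × κ)) (x : ι → X)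
    (y : κ → Y) : 0 ≤ pe h J x y := Finset.prod_nonneg fun _ _ => h0 _ _

lemma prod_two {α : Type*} (s : Finset α) (f : α → ℝ) {P : ℝ} (h : ∀ e, f e = 0 ∨ f e = P) :
    ∏ e ∈ s, f e = 0 ∨ ∏ e ∈ s, f e = P ^ s.card := by
  by_cases h0 : ∃ e ∈ s, f e = 0
  · obtain ⟨e, he, h1⟩ := h0
    exact Or.inl (Finset.prod_eq_zero he h1)
  · right
    rw [← Finset.prod_const]
    exact Finset.prod_congr rfl fun e he => (h e).resolve_left fun h1 => h0 ⟨e, he, h1⟩

lemma prod_bd {α : Type*} (s : Finset α) (f : α → ℝ) {P : ℝ} (hP : 1 ≤ P) {n : ℕ}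
    (hn : s.card ≤ n) (h0 : ∀ e, 0 ≤ f e) (h : ∀ e, f e ≤ P) :
    0 ≤ ∏ e ∈ s, f e ∧ ∏ e ∈ s, f e ≤ P ^ n :=
  ⟨Finset.prod_nonneg fun e _ => h0 e,
    ((Finset.prod_le_prod (fun e _ => h0 e) fun e _ => h e).trans
      (Finset.prod_const P).le).trans (pow_le_pow_right₀ hP hn)⟩

lemma row_card (J : Finset (ι × κ)) (i : ι) (j : κ) :
    (J.filter (fun e => e.1 = i ∧ e.2 ≠ j)).card ≤ Fintype.card κ := by
  refine Finset.card_le_card_of_injOn (t := Finset.univ) (fun e => e.2) (fun _ _ => by simp) ?_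
  intro e he e' he' h
  exact Prod.ext ((Finset.mem_filter.1 he).2.1.trans (Finset.mem_filter.1 he').2.1.symm) h

lemma col_card (J : Finset (ι × κ)) (i : ι) (j : κ) :
    (J.filter (fun e => e.1 ≠ i ∧ e.2 = j)).card ≤ Fintype.card ι := by
  refine Finset.card_le_card_of_injOn (t := Finset.univ) (fun e => e.1) (fun _ _ => by simp) ?_
  intro e he e' he' h
  exact Prod.ext h ((Finset.mem_filter.1 he).2.2.trans (Finset.mem_filter.1 he').2.2.symm)

noncomputable def T (a : X → Y → ℝ) (J : Finset (ι × κ)) (f : (ι → X) → (κ → Y) → ℝ) : ℝ :=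
  𝔼 x, 𝔼 y, pe a J x y * f x y

lemma T_res (a : X → Y → ℝ) {J : Finset (ι × κ)} {i : ι} {j : κ} (hJ : (i, j) ∉ J)
    (f : (ι → X) → (κ → Y) → ℝ) :
    T a J f = 𝔼 x, 𝔼 y, pe a (rst J i j) x y * 𝔼 x0, 𝔼 y0,
      rowp a J i j y x0 * colp a J i j x y0
        * f (Function.update x i x0) (Function.update y j y0) := by
  unfold T
  rw [resample2 _ i j]
  simp only [dec a hJ, Finset.mul_expect]
  refine Finset.expect_congr rfl fun x _ => Finset.expect_congr rfl fun y _ =>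
    Finset.expect_congr rfl fun x0 _ => Finset.expect_congr rfl fun y0 _ => by ring

lemma T_ins (a : X → Y → ℝ) {J : Finset (ι × κ)} {i : ι} {j : κ} (hJ : (i, j) ∉ J)
    (f : (ι → X) → (κ → Y) → ℝ) :
    T a (insert (i, j) J) f = 𝔼 x, 𝔼 y, pe a (rst J i j) x y * 𝔼 x0, 𝔼 y0,
      rowp a J i j y x0 * colp a J i j x y0 * a x0 y0
        * f (Function.update x i x0) (Function.update y j y0) := by
  have e : T a (insert (i, j) J) f = T a J (fun x y => a (x i) (y j) * f x y) := by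
    unfold T
    simp only [pe_ins a hJ]
    refine Finset.expect_congr rfl fun x _ => Finset.expect_congr rfl fun y _ => by ring
  rw [e, T_res a hJ]
  simp only [Function.update_self, mul_assoc]

lemma T_mono {a : X → Y → ℝ} (h0 : ∀ x y, 0 ≤ a x y) (J : Finset (ι × κ))
    {f f' : (ι → X) → (κ → Y) → ℝ} (h : ∀ x y, f x y ≤ f' x y) : T a J f ≤ T a J f' :=
  exp_mono fun x => exp_mono fun y => mul_le_mul_of_nonneg_left (h x y) (pe_nonneg h0 J x y)

lemma T_add (a : X → Y → ℝ) (J : Finset (ι × κ)) (f f' : (ι → X) → (κ → Y) → ℝ) :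
    T a J (fun x y => f x y + f' x y) = T a J f + T a J f' := by
  unfold T
  simp only [mul_add, Finset.expect_add_distrib]

lemma T_smul (a : X → Y → ℝ) (J : Finset (ι × κ)) (c : ℝ) (f : (ι → X) → (κ → Y) → ℝ) :
    T a J (fun x y => c * f x y) = c * T a J f := by
  unfold T
  simp only [Finset.mul_expect]
  refine Finset.expect_congr rfl fun x _ => Finset.expect_congr rfl fun y _ => by ring

lemma T_nonneg {a : X → Y → ℝ} (h0 : ∀ x y, 0 ≤ a x y) (J : Finset (ι × κ))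
    {f : (ι → X) → (κ → Y) → ℝ} (h : ∀ x y, 0 ≤ f x y) : 0 ≤ T a J f :=
  exp_nonneg fun x => exp_nonneg fun y => mul_nonneg (pe_nonneg h0 J x y) (h x y)

def IsM (S : Finset (ι × κ)) : Prop := ∀ e ∈ S, ∀ e' ∈ S, (e.1 = e'.1 ∨ e.2 = e'.2) → e = e'

lemma IsM.mono {S S' : Finset (ι × κ)} (h : IsM S) (hs : S' ⊆ S) : IsM S' :=
  fun e he e' he' => h e (hs he) e' (hs he')

lemma IsM.far {S : Finset (ι × κ)} {i : ι} {j : κ} (h : IsM (insert (i, j) S))
    (hS : (i, j) ∉ S) : ∀ e ∈ S, e.1 ≠ i ∧ e.2 ≠ j := fun e he =>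
  ⟨fun h1 => hS (h e (Finset.mem_insert_of_mem he) (i, j) (Finset.mem_insert_self _ _)
      (Or.inl h1) ▸ he),
    fun h1 => hS (h e (Finset.mem_insert_of_mem he) (i, j) (Finset.mem_insert_self _ _)
      (Or.inr h1) ▸ he)⟩

/-- a matching pattern factorises -/
lemma T_matching (k : X → Y → ℝ) (S : Finset (ι × κ)) (hS : IsM S) :
    𝔼 x : ι → X, 𝔼 y : κ → Y, pe k S x y = (𝔼 x, 𝔼 y, k x y) ^ S.card := by
  induction S using Finset.induction_on with
  | empty => simp [pe]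
  | insert e S he ih =>
    obtain ⟨i, j⟩ := e
    rw [Finset.card_insert_of_notMem he, pow_succ, ← ih (hS.mono (Finset.subset_insert _ _)),
      resample2 _ i j]
    simp only [pe_ins k he, pe_far k (hS.far he), Function.update_self]
    simp only [← Finset.expect_mul, ← Finset.mul_expect, mul_comm]

lemma hp {α β : Type*} [Fintype α] [Fintype β] [DecidableEq β] [Nonempty α] (f : β → α → ℝ) :
    𝔼 w : β → α, ∏ b, f b (w b) = ∏ b, 𝔼 v, f b v := by
  classical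
  simp only [exp_eq]
  rw [Finset.prod_div_distrib, Finset.prod_univ_sum, Fintype.piFinset_univ, Finset.prod_const,
    Fintype.card_fun, Nat.cast_pow, Finset.card_univ]

/-- Sidorenko for the complete pattern -/
lemma T_complete {a : X → Y → ℝ} (h0 : ∀ x y, 0 ≤ a x y) :
    (𝔼 x, 𝔼 y, a x y) ^ (Fintype.card ι * Fintype.card κ)
      ≤ 𝔼 x : ι → X, 𝔼 y : κ → Y, pe a Finset.univ x y := by
  have e1 : ∀ x : ι → X, 𝔼 y : κ → Y, pe a Finset.univ x y
      = (𝔼 y0, ∏ i, a (x i) y0) ^ Fintype.card κ := by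
    intro x
    rw [← Finset.card_univ, ← Finset.prod_const, ← hp (fun _ y0 => ∏ i, a (x i) y0)]
    refine Finset.expect_congr rfl fun y _ => ?_
    unfold pe
    rw [Fintype.prod_prod_type_right]
  simp only [e1]
  have h1 := jensen_pow (fun _ : ι → X => (1 : ℝ)) (fun x => 𝔼 y0, ∏ i, a (x i) y0)
    (fun _ => zero_le_one) (Fintype.expect_const _)
    (fun x => exp_nonneg fun y => Finset.prod_nonneg fun i _ => h0 _ _) (Fintype.card κ)
  simp only [one_mul] at h1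
  refine le_trans ?_ h1
  rw [pow_mul]
  refine pow_le_pow_left₀ (pow_nonneg (exp_nonneg fun x => exp_nonneg (h0 x)) _) ?_ _
  rw [Finset.expect_comm, Finset.expect_comm (Finset.univ : Finset (ι → X))]
  have h2 := jensen_pow (fun _ : Y => (1 : ℝ)) (fun y => 𝔼 x, a x y)
    (fun _ => zero_le_one) (Fintype.expect_const _)
    (fun y => exp_nonneg fun x => h0 _ _) (Fintype.card ι)
  simp only [one_mul] at h2
  refine h2.trans (le_of_eq (Finset.expect_congr rfl fun y _ => ?_))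
  rw [hp (fun _ x0 => a x0 y), Finset.prod_const, Finset.card_univ]

end Pool.Agent.Work.MP_af588c_co.LB
end

-- merged part: Pool.Agent.Work.MP_af588c_co.LB.Core
section
/-! Counting in a regular pair set: upper bounds, lower bounds, concentration. -/

set_option linter.unusedSectionVars false

namespace Pool.Agent.Work.MP_af588c_co.LB

open Finset
open scoped BigOperators
open Pool.Agent.Work.MP_af588c_co.TB

variable {X Y Z : Type*} [Fintype X] [Fintype Y] [Fintype Z] [Nonempty X] [Nonempty Y] [Nonempty Z]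
variable {ι κ : Type*} [Fintype ι] [Fintype κ] [DecidableEq ι] [DecidableEq κ]

structure Reg (a : X → Y → ℝ) (g : X → Y → Z → ℝ) (P R θ : ℝ) (n m : ℕ) : Prop where
  two : ∀ x y, a x y = 0 ∨ a x y = P
  P1 : 1 ≤ P
  R1 : 1 ≤ R
  θ0 : 0 ≤ θ
  mean : 𝔼 x, 𝔼 y, a x y = 1
  g0 : ∀ x y z, 0 ≤ g x y z
  gR : ∀ x y z, g x y z ≤ R
  low : ∀ x y, a x y ≠ 0 → 1 - θ ≤ 𝔼 z, g x y z
  sp : ∀ (u : X → ℝ) (v : Y → ℝ), (∀ x, 0 ≤ u x ∧ u x ≤ P ^ n) → (∀ y, 0 ≤ v y ∧ v y ≤ P ^ n) →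
    𝔼 x, 𝔼 y, u x * v y * a x y ≤ (1 + θ) * ((𝔼 x, u x) * 𝔼 y, v y) + θ
  up : ∀ (U : X → ℝ) (V : Y → ℝ) (w : X → Y → ℝ) (c : Z → ℝ) (k l : ℕ), k ≤ m → l ≤ m →
    (∀ x, U x = 0 ∨ U x = P ^ k) → (∀ y, V y = 0 ∨ V y = P ^ l) →
    (∀ x y, 0 ≤ w x y ∧ w x y ≤ U x * V y * a x y) → (∀ z, 0 ≤ c z ∧ c z ≤ R ^ m) →
    𝔼 x, 𝔼 y, w x y * 𝔼 z, c z * g x y z ≤ (1 + θ) * ((𝔼 x, 𝔼 y, w x y) * 𝔼 z, c z)
      + θ * ((𝔼 x, U x) * (𝔼 y, V y) * 𝔼 z, c z) + θ

variable {a : X → Y → ℝ} {g : X → Y → Z → ℝ} {P R θ : ℝ} {n m : ℕ}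

lemma Reg.a0 (h : Reg a g P R θ n m) (x : X) (y : Y) : 0 ≤ a x y := by
  rcases h.two x y with h1 | h1 <;> rw [h1]
  linarith [h.P1]

lemma Reg.aP (h : Reg a g P R θ n m) (x : X) (y : Y) : a x y ≤ P := by
  rcases h.two x y with h1 | h1 <;> rw [h1]
  linarith [h.P1]

lemma Reg.row_bd (h : Reg a g P R θ n m) (hκ : Fintype.card κ ≤ n) (J : Finset (ι × κ)) (i : ι)
    (j : κ) (y : κ → Y) (x0 : X) : 0 ≤ rowp a J i j y x0 ∧ rowp a J i j y x0 ≤ P ^ n :=
  prod_bd _ _ h.P1 ((row_card J i j).trans hκ) (fun _ => h.a0 _ _) fun _ => h.aP _ _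

lemma Reg.col_bd (h : Reg a g P R θ n m) (hι : Fintype.card ι ≤ n) (J : Finset (ι × κ)) (i : ι)
    (j : κ) (x : ι → X) (y0 : Y) : 0 ≤ colp a J i j x y0 ∧ colp a J i j x y0 ≤ P ^ n :=
  prod_bd _ _ h.P1 ((col_card J i j).trans hι) (fun _ => h.a0 _ _) fun _ => h.aP _ _

lemma T_one (a : X → Y → ℝ) {J : Finset (ι × κ)} {i : ι} {j : κ} (hJ : (i, j) ∉ J)
    (f : (ι → X) → (κ → Y) → ℝ)
    (hf : ∀ x y x0 y0, f (Function.update x i x0) (Function.update y j y0) = f x y) :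
    T a J f = 𝔼 x, 𝔼 y, pe a (rst J i j) x y *
      ((𝔼 x0, rowp a J i j y x0) * (𝔼 y0, colp a J i j x y0) * f x y) := by
  rw [T_res a hJ]
  simp only [hf, ← Finset.expect_mul, ← Finset.mul_expect]

lemma Reg.t_step (h : Reg a g P R θ n m) (hι : Fintype.card ι ≤ n) (hκ : Fintype.card κ ≤ n)
    {J : Finset (ι × κ)} {i : ι} {j : κ} (hJ : (i, j) ∉ J) :
    T a (insert (i, j) J) (fun _ _ => 1)
      ≤ (1 + θ) * T a J (fun _ _ => 1) + θ * T a (rst J i j) (fun _ _ => 1) := by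
  rw [T_ins a hJ, T_one a hJ _ (fun _ _ _ _ => rfl)]
  unfold T
  simp only [mul_one, Finset.mul_expect (s := (Finset.univ : Finset (ι → X))),
    Finset.mul_expect (s := (Finset.univ : Finset (κ → Y))), ← Finset.expect_add_distrib]
  refine exp_mono fun x => exp_mono fun y => ?_
  have h1 := mul_le_mul_of_nonneg_left
    (h.sp _ _ (h.row_bd hκ J i j y) (h.col_bd hι J i j x)) (pe_nonneg h.a0 (rst J i j) x y)
  linarith

lemma Reg.t_le (h : Reg a g P R θ n m) (hι : Fintype.card ι ≤ n) (hκ : Fintype.card κ ≤ n)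
    (k : ℕ) : ∀ J : Finset (ι × κ), J.card ≤ k → T a J (fun _ _ => 1) ≤ (1 + 2 * θ) ^ k := by
  induction k with
  | zero => intro J hJ; rw [Finset.card_eq_zero.1 (Nat.le_zero.1 hJ)]; simp [T, pe]
  | succ k ih =>
    intro J hJ
    have hθ := h.θ0
    rcases J.eq_empty_or_nonempty with rfl | ⟨⟨i, j⟩, he⟩
    · simpa [T, pe] using one_le_pow₀ (by linarith : (1 : ℝ) ≤ 1 + 2 * θ)
    · have h1 := h.t_step hι hκ (Finset.notMem_erase (i, j) J)
      rw [Finset.insert_erase he] at h1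
      have h2 : (J.erase (i, j)).card ≤ k := by rw [Finset.card_erase_of_mem he]; omega
      have h3 := ih _ h2
      have h4 := ih _ ((Finset.card_le_card (rst_sub (J.erase (i, j)) i j)).trans h2)
      rw [pow_succ]
      nlinarith

noncomputable def F (g : X → Y → Z → ℝ) (S : Finset (ι × κ)) (x : ι → X) (y : κ → Y) : ℝ :=
  𝔼 z, pe (fun x y => g x y z) S x y

lemma Reg.F0 (h : Reg a g P R θ n m) (S : Finset (ι × κ)) (x : ι → X) (y : κ → Y) :
    0 ≤ F g S x y := exp_nonneg fun z => pe_nonneg (fun x y => h.g0 x y z) S x y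

lemma Reg.up_step (h : Reg a g P R θ n m) (hm : Fintype.card (ι × κ) ≤ m)
    {J S : Finset (ι × κ)} {i : ι} {j : κ} (hJ : (i, j) ∉ J) (hS : (i, j) ∉ S)
    (hM : IsM (insert (i, j) S)) (f : (ι → X) → (κ → Y) → ℝ) (hf : ∀ x y, 0 ≤ f x y ∧ f x y ≤ 1) :
    T a (insert (i, j) J) (fun x y => f x y * F g (insert (i, j) S) x y)
      ≤ (1 + θ) * T a (insert (i, j) J) (fun x y => f x y * F g S x y)
        + θ * T a J (F g S) + θ * T a (rst J i j) (fun _ _ => 1) := by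
  have hF : ∀ x y x0 y0, F g S (Function.update x i x0) (Function.update y j y0) = F g S x y :=
    fun x y x0 y0 => by unfold F; simp only [pe_far _ (hM.far hS)]
  have hF1 : ∀ x y x0 y0, F g (insert (i, j) S) (Function.update x i x0) (Function.update y j y0)
      = 𝔼 z, pe (fun x y => g x y z) S x y * g x0 y0 z := fun x y x0 y0 => by
    unfold F
    simp only [pe_ins _ hS, pe_far _ (hM.far hS), Function.update_self, mul_comm]
  rw [T_ins a hJ, T_ins a hJ, T_one a hJ _ hF]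
  unfold T
  simp only [mul_one, Finset.mul_expect (s := (Finset.univ : Finset (ι → X))),
    Finset.mul_expect (s := (Finset.univ : Finset (κ → Y))), ← Finset.expect_add_distrib, hF, hF1]
  refine exp_mono fun x => exp_mono fun y => ?_
  have hc : ∀ s : Finset (ι × κ), s.card ≤ m := fun s => (Finset.card_le_univ s).trans hm
  have hr0 : ∀ x0, 0 ≤ rowp a J i j y x0 := fun _ => Finset.prod_nonneg fun _ _ => h.a0 _ _
  have hc0 : ∀ y0, 0 ≤ colp a J i j x y0 := fun _ => Finset.prod_nonneg fun _ _ => h.a0 _ _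
  have h1 := h.up (rowp a J i j y) (colp a J i j x)
    (fun x0 y0 => rowp a J i j y x0 * colp a J i j x y0 * a x0 y0
      * f (Function.update x i x0) (Function.update y j y0))
    (fun z => pe (fun x y => g x y z) S x y) _ _ (hc _) (hc _)
    (fun x0 => prod_two _ _ fun _ => h.two _ _) (fun y0 => prod_two _ _ fun _ => h.two _ _)
    (fun x0 y0 => by
      have := mul_nonneg (mul_nonneg (hr0 x0) (hc0 y0)) (h.a0 x0 y0)
      exact ⟨mul_nonneg this (hf _ _).1, mul_le_of_le_one_right this (hf _ _).2⟩)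
    (fun z => prod_bd _ _ h.R1 (hc _) (fun _ => h.g0 _ _ _) fun _ => h.gR _ _ _)
  have h2 := mul_le_mul_of_nonneg_left h1 (pe_nonneg h.a0 (rst J i j) x y)
  simp only [← mul_assoc, ← Finset.expect_mul] at h2 ⊢
  unfold F
  linarith

/-- smallness assumptions and index sizes -/
structure Sm (ι κ : Type*) [Fintype ι] [Fintype κ] (θ : ℝ) (n m : ℕ) : Prop where
  hι : Fintype.card ι ≤ n
  hκ : Fintype.card κ ≤ n
  hm : Fintype.card (ι × κ) ≤ m
  m1 : 1 ≤ m
  sm : 12 * θ * m ≤ 1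

lemma Reg.t_B (h : Reg a g P R θ n m) (s : Sm ι κ θ n m) (J : Finset (ι × κ)) :
    T a J (fun _ _ => 1) ≤ 1 + 4 * θ * m := by
  refine (h.t_le s.hι s.hκ m J ((Finset.card_le_univ J).trans s.hm)).trans ?_
  have hθ := h.θ0
  have h1 : (1 + 2 * θ) ^ m ≤ Real.exp (m * (2 * θ)) := by
    rw [Real.exp_nat_mul]
    exact pow_le_pow_left₀ (by linarith) (by linarith [Real.add_one_le_exp (2 * θ)]) m
  have h0 : 0 ≤ (m : ℝ) * (2 * θ) := by positivity
  have h2 := Real.abs_exp_sub_one_le (x := m * (2 * θ))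
    (by rw [abs_of_nonneg h0]; linarith [s.sm])
  rw [abs_of_nonneg h0] at h2
  linarith [le_abs_self (Real.exp (m * (2 * θ)) - 1)]

lemma Reg.t_f (h : Reg a g P R θ n m) (s : Sm ι κ θ n m) (J : Finset (ι × κ))
    {f : (ι → X) → (κ → Y) → ℝ} (hf : ∀ x y, f x y ≤ 1) : T a J f ≤ 3 / 2 := by
  linarith [T_mono h.a0 J hf, h.t_B s J, s.sm]

lemma Reg.up_le (h : Reg a g P R θ n m) (s : Sm ι κ θ n m) (S : Finset (ι × κ)) (hM : IsM S) :
    ∀ J, S ⊆ J → ∀ f : (ι → X) → (κ → Y) → ℝ, (∀ x y, 0 ≤ f x y ∧ f x y ≤ 1) →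
      T a J (fun x y => f x y * F g S x y) ≤ T a J f + 6 * θ * S.card := by
  induction S using Finset.induction_on with
  | empty => intro J _ f _; simp [F, pe]
  | insert e S he ih =>
    obtain ⟨i, j⟩ := e
    intro J hJ f hf
    have hθ := h.θ0
    have hm : (i, j) ∈ J := hJ (Finset.mem_insert_self _ _)
    have h1 := h.up_step s.hm (Finset.notMem_erase (i, j) J) he hM f hf
    rw [Finset.insert_erase hm] at h1
    have ih' := ih (hM.mono (Finset.subset_insert _ _))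
    have h2 := ih' J ((Finset.subset_insert _ _).trans hJ) f hf
    have h3 := ih' (J.erase (i, j)) (fun e h' => Finset.mem_erase.2
      ⟨fun h'' => he (h'' ▸ h'), hJ (Finset.mem_insert_of_mem h')⟩) (fun _ _ => 1)
      (fun _ _ => ⟨zero_le_one, le_rfl⟩)
    simp only [one_mul] at h3
    have h4 := h.t_f s J (fun x y => (hf x y).2)
    have h5 := h.t_f s (J.erase (i, j)) (f := fun _ _ => 1) fun _ _ => le_rfl
    have h6 := h.t_f s (rst (J.erase (i, j)) i j) (f := fun _ _ => 1) fun _ _ => le_rfl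
    have h7 : (S.card : ℝ) ≤ m := by exact_mod_cast (Finset.card_le_univ S).trans s.hm
    have h8 : 6 * θ * S.card ≤ 1 / 2 := by nlinarith [s.sm]
    rw [Finset.card_insert_of_notMem he]
    push_cast
    nlinarith

lemma Reg.up_m (h : Reg a g P R θ n m) (s : Sm ι κ θ n m) {S J : Finset (ι × κ)} (hM : IsM S)
    (hJ : S ⊆ J) (f : (ι → X) → (κ → Y) → ℝ) (hf : ∀ x y, 0 ≤ f x y ∧ f x y ≤ 1) :
    T a J (fun x y => f x y * F g S x y) ≤ T a J f + 6 * θ * m := by
  have h7 : (S.card : ℝ) ≤ m := by exact_mod_cast (Finset.card_le_univ S).trans s.hm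
  have := h.up_le s S hM J hJ f hf
  nlinarith [h.θ0]

lemma Reg.up_two (h : Reg a g P R θ n m) (s : Sm ι κ θ n m) {S J : Finset (ι × κ)} (hM : IsM S)
    (hJ : S ⊆ J) : T a J (F g S) ≤ 2 := by
  have h1 := h.up_m s hM hJ (fun _ _ => 1) (fun _ _ => ⟨zero_le_one, le_rfl⟩)
  simp only [one_mul] at h1
  linarith [h.t_f s J (f := fun _ _ => 1) fun _ _ => le_rfl, s.sm]

lemma Reg.t_univ (h : Reg a g P R θ n m) :
    1 ≤ T a (Finset.univ : Finset (ι × κ)) (fun _ _ => 1) := by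
  have := T_complete (ι := ι) (κ := κ) h.a0
  rw [h.mean, one_pow] at this
  simpa [T] using this

lemma Reg.t_ge (h : Reg a g P R θ n m) (s : Sm ι κ θ n m) (J : Finset (ι × κ)) :
    1 - 3 * θ * m ≤ T a J (fun _ _ => 1) := by
  have key : ∀ D : Finset (ι × κ), 1 - 3 * θ * D.card ≤ T a Dᶜ (fun _ _ => 1) := by
    intro D
    induction D using Finset.induction_on with
    | empty => simpa using h.t_univ
    | insert e D he ih =>
      obtain ⟨i, j⟩ := e
      have h1 := h.t_step s.hι s.hκ (J := (insert (i, j) D)ᶜ) (i := i) (j := j) (by simp)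
      rw [Finset.insert_compl_insert he] at h1
      have h5 := h.t_f s (insert (i, j) D)ᶜ (f := fun _ _ => 1) fun _ _ => le_rfl
      have h6 := h.t_f s (rst (insert (i, j) D)ᶜ i j) (f := fun _ _ => 1) fun _ _ => le_rfl
      rw [Finset.card_insert_of_notMem he]
      push_cast
      nlinarith [h.θ0]
  have h1 := key Jᶜ
  rw [compl_compl] at h1
  have h7 : ((Jᶜ).card : ℝ) ≤ m := by exact_mod_cast (Finset.card_le_univ _).trans s.hm
  nlinarith [h.θ0]

end Pool.Agent.Work.MP_af588c_co.LB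
end

-- merged part: Pool.Agent.Work.MP_af588c_co.LB.Low
section
/-! Lower bound for one matching and concentration of the common degree. -/

set_option linter.unusedSectionVars false

namespace Pool.Agent.Work.MP_af588c_co.LB

open Finset
open scoped BigOperators
open Pool.Agent.Work.MP_af588c_co.TB

variable {X Y Z : Type*} [Fintype X] [Fintype Y] [Fintype Z] [Nonempty X] [Nonempty Y] [Nonempty Z]
variable {ι κ : Type*} [Fintype ι] [Fintype κ] [DecidableEq ι] [DecidableEq κ]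
variable {a : X → Y → ℝ} {g : X → Y → Z → ℝ} {P R θ : ℝ} {n m : ℕ}

lemma Reg.pt (h : Reg a g P R θ n m) (U r : X → ℝ) (V s : Y → ℝ)
    (hU : ∀ x, 0 ≤ U x ∧ U x ≤ P ^ n) (hV : ∀ y, 0 ≤ V y ∧ V y ≤ P ^ n)
    (hr : ∀ x, 0 ≤ r x ∧ r x ≤ R) (hs : ∀ y, 0 ≤ s y ∧ s y ≤ R) :
    (𝔼 x, 𝔼 y, U x * V y * (r x * s y)) - R ^ 2 * ((1 + θ) * ((𝔼 x, U x) * 𝔼 y, V y) + 2 * θ
      - 𝔼 x, 𝔼 y, U x * V y * a x y) ≤ 𝔼 x, 𝔼 y, U x * V y * a x y * (r x * s y) := by
  have hR : 0 < R := by linarith [h.R1]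
  have b1 : ∀ x, 0 ≤ r x / R ∧ r x / R ≤ 1 := fun x =>
    ⟨div_nonneg (hr x).1 hR.le, (div_le_one hR).2 (hr x).2⟩
  have b2 : ∀ y, 0 ≤ s y / R ∧ s y / R ≤ 1 := fun y =>
    ⟨div_nonneg (hs y).1 hR.le, (div_le_one hR).2 (hs y).2⟩
  have h1 := h.sp (fun x => U x - U x * (r x / R)) V
    (fun x => by have := hU x; have := b1 x; constructor <;> nlinarith) hV
  have h2 := h.sp (fun x => U x * (r x / R)) (fun y => V y - V y * (s y / R))
    (fun x => by have := hU x; have := b1 x; constructor <;> nlinarith)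
    (fun y => by have := hV y; have := b2 y; constructor <;> nlinarith)
  simp only [sub_mul, mul_sub, Finset.expect_sub_distrib] at h1 h2
  have e1 : 𝔼 x, 𝔼 y, U x * V y * (r x * s y)
      = R ^ 2 * ((𝔼 x, U x * (r x / R)) * 𝔼 y, V y * (s y / R)) := by
    rw [Finset.expect_mul_expect]
    simp only [Finset.mul_expect]
    refine Finset.expect_congr rfl fun x _ => Finset.expect_congr rfl fun y _ => ?_
    field_simp
  have e2 : 𝔼 x, 𝔼 y, U x * V y * a x y * (r x * s y)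
      = R ^ 2 * 𝔼 x, 𝔼 y, U x * (r x / R) * (V y * (s y / R)) * a x y := by
    simp only [Finset.mul_expect]
    refine Finset.expect_congr rfl fun x _ => Finset.expect_congr rfl fun y _ => ?_
    field_simp
  have h3 : 0 ≤ (𝔼 x, U x * (r x / R)) * 𝔼 y, V y * (s y / R) :=
    mul_nonneg (exp_nonneg fun x => mul_nonneg (hU x).1 (b1 x).1)
      (exp_nonneg fun y => mul_nonneg (hV y).1 (b2 y).1)
  rw [e1, e2, ← mul_sub]
  refine mul_le_mul_of_nonneg_left ?_ (by positivity)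
  nlinarith [mul_nonneg h.θ0 h3]

lemma IsM.row {S : Finset (ι × κ)} (h : IsM S) (i : ι) (j : κ) :
    (S.filter (fun e => e.1 = i ∧ e.2 ≠ j)).card ≤ 1 :=
  Finset.card_le_one.2 fun e he e' he' => h e (Finset.mem_filter.1 he).1 e'
    (Finset.mem_filter.1 he').1
    (Or.inl ((Finset.mem_filter.1 he).2.1.trans (Finset.mem_filter.1 he').2.1.symm))

lemma IsM.col {S : Finset (ι × κ)} (h : IsM S) (i : ι) (j : κ) :
    (S.filter (fun e => e.1 ≠ i ∧ e.2 = j)).card ≤ 1 :=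
  Finset.card_le_one.2 fun e he e' he' => h e (Finset.mem_filter.1 he).1 e'
    (Finset.mem_filter.1 he').1
    (Or.inr ((Finset.mem_filter.1 he).2.2.trans (Finset.mem_filter.1 he').2.2.symm))

lemma Reg.low_step (h : Reg a g P R θ n m) (s : Sm ι κ θ n m) {J S : Finset (ι × κ)} {i : ι}
    {j : κ} (hJ : (i, j) ∉ J) (hM : IsM S) (hSJ : S ⊆ J) :
    T a J (F g S) - 22 * R ^ 2 * θ * m ≤ T a (insert (i, j) J) (F g S) := by
  have hS : (i, j) ∉ S := fun h1 => hJ (hSJ h1)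
  have hθ := h.θ0
  set A : (ι → X) → (κ → Y) → ℝ := fun x y =>
    (𝔼 x0, rowp a J i j y x0) * 𝔼 y0, colp a J i j x y0 with hA
  set B : (ι → X) → (κ → Y) → ℝ := fun x y =>
    𝔼 x0, 𝔼 y0, rowp a J i j y x0 * colp a J i j x y0 * a x0 y0 with hB
  set φ : (ι → X) → (κ → Y) → ℝ := fun x y => max 0 (A x y - B x y) / A x y with hφ
  have hA0 : ∀ x y, 0 ≤ A x y := fun x y =>
    mul_nonneg (exp_nonneg fun x0 => (h.row_bd s.hκ J i j y x0).1)
      (exp_nonneg fun y0 => (h.col_bd s.hι J i j x y0).1)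
  have hB0 : ∀ x y, 0 ≤ B x y := fun x y => exp_nonneg fun x0 => exp_nonneg fun y0 =>
    mul_nonneg (mul_nonneg (h.row_bd s.hκ J i j y x0).1 (h.col_bd s.hι J i j x y0).1) (h.a0 _ _)
  have hBA : ∀ x y, B x y ≤ (1 + θ) * A x y + θ := fun x y =>
    h.sp _ _ (h.row_bd s.hκ J i j y) (h.col_bd s.hι J i j x)
  have hφ1 : ∀ x y, 0 ≤ φ x y ∧ φ x y ≤ 1 := fun x y =>
    ⟨div_nonneg (le_max_left _ _) (hA0 x y),
      div_le_one_of_le₀ (max_le (hA0 x y) (by linarith [hB0 x y])) (hA0 x y)⟩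
  have hφ2 : ∀ x y, A x y * φ x y = max 0 (A x y - B x y) := fun x y => by
    rcases (hA0 x y).eq_or_lt with h0 | h0
    · rw [← h0, zero_mul, max_eq_left (by linarith [hB0 x y])]
    · exact mul_div_cancel₀ _ h0.ne'
  have hφu : ∀ x y x0 y0, φ (Function.update x i x0) (Function.update y j y0) = φ x y :=
    fun x y x0 y0 => by simp only [hφ, hA, hB, rowp_upd, colp_upd]
  have hfar : ∀ e ∈ rst S i j, e.1 ≠ i ∧ e.2 ≠ j := fun e he => (Finset.mem_filter.1 he).2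
  have hF : ∀ x y x0 y0, F g (rst S i j) (Function.update x i x0) (Function.update y j y0)
      = F g (rst S i j) x y := fun x y x0 y0 => by unfold F; simp only [pe_far _ hfar]
  have hM' : IsM (rst S i j) := hM.mono (rst_sub _ _ _)
  have hS' : rst S i j ⊆ J := (rst_sub _ _ _).trans hSJ
  -- the defect is small in the plain measure
  have d1 : T a J φ ≤ (1 + θ) * T a J (fun _ _ => 1) + θ * T a (rst J i j) (fun _ _ => 1)
      - T a (insert (i, j) J) (fun _ _ => 1) := by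
    rw [T_ins a hJ, T_one a hJ _ hφu, T_one a hJ (fun _ _ => 1) (fun _ _ _ _ => rfl)]
    unfold T
    simp only [mul_one, Finset.mul_expect (s := (Finset.univ : Finset (ι → X))),
      Finset.mul_expect (s := (Finset.univ : Finset (κ → Y))), ← Finset.expect_add_distrib,
      ← Finset.expect_sub_distrib]
    refine exp_mono fun x => exp_mono fun y => ?_
    have h1 : A x y * φ x y ≤ (1 + θ) * A x y + θ - B x y := by
      rw [hφ2]
      exact max_le (by linarith [hBA x y]) (by nlinarith [hA0 x y])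
    have h2 := mul_le_mul_of_nonneg_left h1 (pe_nonneg h.a0 (rst J i j) x y)
    simp only [hA, hB] at h2
    linarith
  have d2 := h.up_m s hM' hS' φ hφ1
  have d3 := h.up_two s hM' hS'
  have d4 := h.up_two s hM' (J := rst J i j) (Finset.filter_subset_filter _ hSJ)
  have d5 := h.t_B s J
  have d6 := h.t_f s J (f := fun _ _ => 1) fun _ _ => le_rfl
  have d7 := h.t_f s (rst J i j) (f := fun _ _ => 1) fun _ _ => le_rfl
  have d8 := h.t_ge s (insert (i, j) J)
  have m1 : (1 : ℝ) ≤ m := by exact_mod_cast s.m1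
  have d9 : T a J (fun x y => φ x y * F g (rst S i j) x y) + θ * T a J (F g (rst S i j))
      + 2 * θ * T a (rst J i j) (F g (rst S i j)) ≤ 22 * θ * m := by nlinarith
  have d10 : T a J (F g S) - R ^ 2 * (T a J (fun x y => φ x y * F g (rst S i j) x y)
      + θ * T a J (F g (rst S i j)) + 2 * θ * T a (rst J i j) (F g (rst S i j)))
      ≤ T a (insert (i, j) J) (F g S) := by
    rw [T_ins a hJ, T_res a hJ (F g S), T_one a hJ _ hF,
      T_one a hJ (fun x y => φ x y * F g (rst S i j) x y) (fun x y x0 y0 => by rw [hφu, hF])]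
    unfold T
    simp only [Finset.mul_expect (s := (Finset.univ : Finset (ι → X))),
      Finset.mul_expect (s := (Finset.univ : Finset (κ → Y))), ← Finset.expect_add_distrib,
      ← Finset.expect_sub_distrib]
    refine exp_mono fun x => exp_mono fun y => ?_
    have k1 : ∀ z, pe (fun x y => g x y z) (rst S i j) x y *
        ((𝔼 x0, 𝔼 y0, rowp a J i j y x0 * colp a J i j x y0 *
          (rowp (fun x y => g x y z) S i j y x0 * colp (fun x y => g x y z) S i j x y0))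
        - R ^ 2 * (A x y * φ x y + θ * A x y + 2 * θ))
        ≤ pe (fun x y => g x y z) (rst S i j) x y *
          𝔼 x0, 𝔼 y0, rowp a J i j y x0 * colp a J i j x y0 * a x0 y0 *
          (rowp (fun x y => g x y z) S i j y x0 * colp (fun x y => g x y z) S i j x y0) := by
      intro z
      refine mul_le_mul_of_nonneg_left ?_ (pe_nonneg (fun x y => h.g0 x y z) _ _ _)
      refine le_trans ?_ (h.pt _ _ _ _ (h.row_bd s.hκ J i j y) (h.col_bd s.hι J i j x)
        (fun x0 => by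
          simpa [rowp] using prod_bd _ (fun e : ι × κ => g x0 (y e.2) z) h.R1 (hM.row i j)
            (fun _ => h.g0 _ _ _) fun _ => h.gR _ _ _)
        (fun y0 => by
          simpa [colp] using prod_bd _ (fun e : ι × κ => g (x e.1) y0 z) h.R1 (hM.col i j)
            (fun _ => h.g0 _ _ _) fun _ => h.gR _ _ _))
      have k2 : A x y - B x y ≤ A x y * φ x y := by rw [hφ2]; exact le_max_right _ _
      have k3 := mul_le_mul_of_nonneg_left k2 (sq_nonneg R)
      simp only [hA, hB] at k3 ⊢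
      linarith
    have k4 := mul_le_mul_of_nonneg_left (exp_mono k1) (pe_nonneg h.a0 (rst J i j) x y)
    have k5 : ∀ (w : X → Y → ℝ), 𝔼 x0, 𝔼 y0, w x0 y0 *
        F g S (Function.update x i x0) (Function.update y j y0)
        = 𝔼 z, pe (fun x y => g x y z) (rst S i j) x y * 𝔼 x0, 𝔼 y0, w x0 y0 *
          (rowp (fun x y => g x y z) S i j y x0 * colp (fun x y => g x y z) S i j x y0) := by
      intro w
      unfold F
      simp only [dec _ hS, Finset.mul_expect]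
      rw [Finset.expect_comm (Finset.univ : Finset Z)]
      refine Finset.expect_congr rfl fun x0 _ => ?_
      rw [Finset.expect_comm (Finset.univ : Finset Z)]
      exact Finset.expect_congr rfl fun y0 _ => Finset.expect_congr rfl fun z _ => by ring
    rw [k5, k5]
    simp only [mul_sub, Finset.expect_sub_distrib, ← Finset.expect_mul] at k4
    unfold F
    simp only [hA] at k4 ⊢
    linarith
  have := mul_le_mul_of_nonneg_left d9 (sq_nonneg R)
  linarith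

lemma Reg.low_base (h : Reg a g P R θ n m) (s : Sm ι κ θ n m) {S : Finset (ι × κ)} (hM : IsM S) :
    1 - θ * m ≤ T a S (F g S) := by
  have m1 : (1 : ℝ) ≤ m := by exact_mod_cast s.m1
  have hθ := h.θ0
  have hθ1 : θ ≤ 1 := by nlinarith [s.sm]
  have e1 : T a S (F g S) = 𝔼 z, (𝔼 x, 𝔼 y, a x y * g x y z) ^ S.card := by
    simp only [← T_matching _ S hM]
    unfold T F pe
    simp only [Finset.mul_expect, Finset.prod_mul_distrib]
    rw [Finset.expect_comm (Finset.univ : Finset Z)]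
    exact Finset.expect_congr rfl fun x _ => Finset.expect_comm _ _ _
  have h1 := jensen_pow (fun _ : Z => (1 : ℝ)) (fun z => 𝔼 x, 𝔼 y, a x y * g x y z)
    (fun _ => zero_le_one) (Fintype.expect_const _)
    (fun z => exp_nonneg fun x => exp_nonneg fun y => mul_nonneg (h.a0 _ _) (h.g0 _ _ _)) S.card
  simp only [one_mul] at h1
  have h2 : 1 - θ ≤ 𝔼 z, 𝔼 x, 𝔼 y, a x y * g x y z := by
    have h3 : 𝔼 x, 𝔼 y, a x y * (1 - θ) ≤ 𝔼 x, 𝔼 y, a x y * 𝔼 z, g x y z :=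
      exp_mono fun x => exp_mono fun y => by
        by_cases h0 : a x y = 0
        · rw [h0, zero_mul, zero_mul]
        · exact mul_le_mul_of_nonneg_left (h.low x y h0) (h.a0 x y)
    simp only [← Finset.expect_mul] at h3
    rw [h.mean, one_mul] at h3
    refine h3.trans (le_of_eq ?_)
    simp only [Finset.mul_expect]
    rw [Finset.expect_comm (Finset.univ : Finset Z)]
    exact Finset.expect_congr rfl fun x _ => Finset.expect_comm _ _ _
  have h4 := one_add_mul_le_pow (show (-2 : ℝ) ≤ -θ by linarith) S.card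
  have h5 := pow_le_pow_left₀ (by linarith) h2 S.card
  have h7 : (S.card : ℝ) ≤ m := by exact_mod_cast (Finset.card_le_univ S).trans s.hm
  rw [← sub_eq_add_neg] at h4
  rw [e1]
  nlinarith

lemma Reg.low_all (h : Reg a g P R θ n m) (s : Sm ι κ θ n m) {S : Finset (ι × κ)} (hM : IsM S) :
    1 - 23 * R ^ 2 * θ * m ^ 2 ≤ T a Finset.univ (F g S) := by
  have m1 : (1 : ℝ) ≤ m := by exact_mod_cast s.m1
  have hθ := h.θ0
  have hR : 1 ≤ R ^ 2 := one_le_pow₀ h.R1
  have h0 : 0 ≤ 22 * R ^ 2 * θ * m := by positivity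
  have key : ∀ D : Finset (ι × κ),
      T a S (F g S) - 22 * R ^ 2 * θ * m * D.card ≤ T a (S ∪ D) (F g S) := by
    intro D
    induction D using Finset.induction_on with
    | empty => simp
    | insert e D he ih =>
      obtain ⟨i, j⟩ := e
      rw [Finset.card_insert_of_notMem he, Finset.union_insert]
      push_cast
      by_cases hm : (i, j) ∈ S ∪ D
      · rw [Finset.insert_eq_of_mem hm]; linarith
      · linarith [h.low_step s hm hM Finset.subset_union_left]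
  have h1 := key Finset.univ
  rw [Finset.union_eq_right.2 (Finset.subset_univ S), Finset.card_univ] at h1
  have h2 : (Fintype.card (ι × κ) : ℝ) ≤ m := by exact_mod_cast s.hm
  have h3 := h.low_base s hM
  have h4 := mul_le_mul_of_nonneg_left h2 h0
  have h5 : θ * m ≤ R ^ 2 * θ * m ^ 2 := by
    have : 1 * (θ * m) * 1 ≤ R ^ 2 * (θ * m) * m := by gcongr
    linarith
  linarith

lemma Reg.conc (h : Reg a g P R θ n m) (s : Sm ι κ θ n m) {S : Finset (ι × κ)} (hM : IsM S) :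
    T a Finset.univ (fun x y => ind (F g S x y < 1 / 2)) ≤ 66 * R ^ 2 * θ * m ^ 2 := by
  have m1 : (1 : ℝ) ≤ m := by exact_mod_cast s.m1
  have hθ := h.θ0
  have hR : 1 ≤ R ^ 2 := one_le_pow₀ h.R1
  set b : (ι → X) → (κ → Y) → ℝ := fun x y => ind (F g S x y < 1 / 2) with hb
  have h1 := h.low_all s hM
  have h2 := h.up_m s hM (Finset.subset_univ S) (fun x y => 1 + (-1) * b x y) fun x y => by
    have := ind_nonneg (F g S x y < 1 / 2)
    have := ind_le_one (F g S x y < 1 / 2)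
    constructor <;> linarith
  rw [T_add, T_smul] at h2
  have h3 : T a Finset.univ (F g S) ≤ T a Finset.univ
      (fun x y => (1 + (-1) * b x y) * F g S x y + 1 / 2 * b x y) :=
    T_mono h.a0 _ fun x y => by
      by_cases hc : F g S x y < 1 / 2
      · simp only [hb]; rw [ind_of hc]; linarith
      · have : ind (F g S x y < 1 / 2) = 0 := by unfold ind; rw [if_neg hc]
        simp only [hb]; rw [this]; linarith
  rw [T_add, T_smul] at h3
  have h4 := h.t_B s (Finset.univ : Finset (ι × κ))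
  have h5 : θ * m ≤ R ^ 2 * θ * m ^ 2 := by
    have : 1 * (θ * m) * 1 ≤ R ^ 2 * (θ * m) * m := by gcongr
    linarith
  linarith

lemma Reg.dens (h : Reg a g P R θ n m) (s : Sm ι κ θ n m) {ρ : Type*} [Fintype ρ]
    (S : ρ → Finset (ι × κ)) (hM : ∀ k, IsM (S k))
    (hρ : 132 * R ^ 2 * θ * m ^ 2 * Fintype.card ρ ≤ 1) :
    (1 / 2 : ℝ) ^ (∑ k, (S k).card + 1) ≤ T a Finset.univ (fun x y => ∏ k, F g (S k) x y) := by
  set c : ℝ := (1 / 2 : ℝ) ^ ∑ k, (S k).card with hc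
  have h1 : T a Finset.univ (fun x y => c * (1 + (-1) * ∑ k, ind (F g (S k) x y < 1 / 2)))
      ≤ T a Finset.univ (fun x y => ∏ k, F g (S k) x y) :=
    T_mono h.a0 _ fun x y => by
      have hs : ∀ k, 0 ≤ ind (F g (S k) x y < 1 / 2) := fun k => ind_nonneg _
      by_cases hb : ∃ k, F g (S k) x y < 1 / 2
      · obtain ⟨k, hk⟩ := hb
        have h2 := Finset.single_le_sum (f := fun k => ind (F g (S k) x y < 1 / 2))
          (fun k _ => hs k) (Finset.mem_univ k)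
        simp only [ind_of hk] at h2
        exact le_trans (mul_nonpos_of_nonneg_of_nonpos (by positivity) (by linarith))
          (Finset.prod_nonneg fun k _ => h.F0 _ _ _)
      · have h3 : c ≤ ∏ k, F g (S k) x y := by
          rw [hc, ← Finset.prod_pow_eq_pow_sum]
          refine Finset.prod_le_prod (fun k _ => by positivity) fun k _ => ?_
          rcases (S k).eq_empty_or_nonempty with h4 | h4
          · simp [h4, F, pe]
          · refine le_trans ?_ (not_lt.1 fun h5 => hb ⟨k, h5⟩)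
            exact pow_le_of_le_one (by norm_num) (by norm_num) h4.card_pos.ne'
        have h6 := Finset.sum_nonneg (s := Finset.univ) fun k _ => hs k
        exact le_trans (mul_le_of_le_one_right (by positivity) (by linarith)) h3
  rw [T_smul, T_add, T_smul] at h1
  have h7 : T a Finset.univ (fun x y => ∑ k, ind (F g (S k) x y < 1 / 2))
      = ∑ k, T a Finset.univ (fun x y => ind (F g (S k) x y < 1 / 2)) := by
    unfold T
    simp only [Finset.mul_sum, Finset.expect_sum_comm]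
  have h8 := Finset.sum_le_sum (s := Finset.univ) fun k _ => h.conc s (hM k)
  rw [Finset.sum_const, Finset.card_univ, nsmul_eq_mul, ← h7] at h8
  refine le_trans ?_ h1
  rw [pow_succ]
  exact mul_le_mul_of_nonneg_left (by linarith [h.t_univ (ι := ι) (κ := κ)]) (by positivity)

end Pool.Agent.Work.MP_af588c_co.LB
end

-- merged part: Pool.Agent.Work.MP_af588c_co.LB.Max
section
/-! The two-scale maximiser and the passage from sets to weights. -/

set_option linter.unusedSectionVars false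

namespace Pool.Agent.Work.MP_af588c_co.LB

open Finset
open scoped BigOperators
open Pool.Agent.Work.MP_af588c_co.TB

variable {X Y Z : Type*} [Fintype X] [Fintype Y] [Fintype Z] [Nonempty X] [Nonempty Y] [Nonempty Z]

noncomputable def c3 (G : X → Y → Z → ℝ) (Γ : Finset (X × Y)) (C : Finset Z) : ℝ :=
  ∑ e ∈ Γ, ∑ z ∈ C, G e.1 e.2 z

def Up (G : X → Y → Z → ℝ) (K γ1 γ2 : ℝ) : Prop :=
  ∀ (A : Finset X) (B : Finset Y) (C : Finset Z) (Γ : Finset (X × Y)), Γ ⊆ A ×ˢ B →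
    c3 G Γ C ≤ K * ((Γ.card : ℝ) ^ (1 - γ2) * (A.card * B.card : ℝ) ^ (γ2 - γ1)
      * (C.card : ℝ) ^ (1 - γ1))

lemma split3 {x b c : ℝ} (hx : 0 < x) (hb : 0 < b) (hc : 0 < c) (γ1 γ2 : ℝ) :
    (x / b) ^ γ2 * (b * c) ^ γ1 * (x ^ (1 - γ2) * b ^ (γ2 - γ1) * c ^ (1 - γ1)) = x * c := by
  rw [Real.div_rpow hx.le hb.le, Real.mul_rpow hb.le hc.le, Real.rpow_sub hx, Real.rpow_sub hb,
    Real.rpow_sub hc, Real.rpow_one, Real.rpow_one]
  have := Real.rpow_pos_of_pos hx γ2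
  have := Real.rpow_pos_of_pos hb γ2
  have := Real.rpow_pos_of_pos hb γ1
  have := Real.rpow_pos_of_pos hc γ1
  field_simp

lemma root_le {p q γ : ℝ} (hp : 0 ≤ p) (hq : 0 ≤ q) (hγ : 0 < γ) (h : p ≤ q ^ γ) :
    p ^ (1 / γ) ≤ q := by
  have h9 := Real.rpow_le_rpow hp h (one_div_nonneg.2 hγ.le)
  rwa [← Real.rpow_mul hq, mul_one_div_cancel hγ.ne', Real.rpow_one] at h9

lemma stage1 (G : X → Y → Z → ℝ) (hG1 : ∀ x y z, G x y z ≤ 1) {p0 γ1 γ2 : ℝ} (hp0 : 0 < p0)
    (h1 : 0 < γ1) (h2 : 0 < γ2) (h21 : γ2 ≤ 1) (hmean : p0 ≤ 𝔼 x, 𝔼 y, 𝔼 z, G x y z) :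
    ∃ (A : Finset X) (B : Finset Y) (C : Finset Z) (Γ : Finset (X × Y)) (p q : ℝ),
      A.Nonempty ∧ B.Nonempty ∧ C.Nonempty ∧ Γ ⊆ A ×ˢ B ∧ p0 ≤ p ∧ p ≤ 1 ∧
      (Γ.card : ℝ) = q * (A.card * B.card) ∧ p0 ^ (1 / γ2) ≤ q ∧
      p0 ^ (1 / γ1) ≤ (A.card * B.card * C.card : ℝ)
        / (Fintype.card X * Fintype.card Y * Fintype.card Z) ∧
      (∀ e ∈ Γ, (1 - γ2) * p * C.card ≤ ∑ z ∈ C, G e.1 e.2 z) ∧
      Up G (p * (q ^ γ2 * (A.card * B.card * C.card : ℝ) ^ γ1)) γ1 γ2 := by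
  classical
  have hX : (0 : ℝ) < Fintype.card X := by exact_mod_cast Fintype.card_pos
  have hY : (0 : ℝ) < Fintype.card Y := by exact_mod_cast Fintype.card_pos
  have hZ : (0 : ℝ) < Fintype.card Z := by exact_mod_cast Fintype.card_pos
  set den : Finset X × Finset Y × Finset Z × Finset (X × Y) → ℝ := fun r =>
    (r.2.2.2.card : ℝ) ^ (1 - γ2) * (r.1.card * r.2.1.card : ℝ) ^ (γ2 - γ1)
      * (r.2.2.1.card : ℝ) ^ (1 - γ1) with hden
  obtain ⟨⟨A, B, C, Γ⟩, hmem, hmax⟩ := Finset.exists_max_image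
    (Finset.univ.filter fun r : Finset X × Finset Y × Finset Z × Finset (X × Y) =>
      r.2.2.2 ⊆ r.1 ×ˢ r.2.1) (fun r => c3 G r.2.2.2 r.2.2.1 / den r)
    ⟨(∅, ∅, ∅, ∅), by simp⟩
  have hΓ : Γ ⊆ A ×ˢ B := (Finset.mem_filter.1 hmem).2
  have pos : ∀ (A : Finset X) (B : Finset Y) (C : Finset Z) (Γ : Finset (X × Y)), Γ ⊆ A ×ˢ B →
      c3 G Γ C ≠ 0 → (0 : ℝ) < A.card ∧ (0 : ℝ) < B.card ∧ (0 : ℝ) < C.card ∧ (0 : ℝ) < Γ.card := by
    intro A B C Γ hΓ h0
    obtain ⟨e, he, h3⟩ := Finset.exists_ne_zero_of_sum_ne_zero h0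
    obtain ⟨z, hz, -⟩ := Finset.exists_ne_zero_of_sum_ne_zero h3
    have h4 := Finset.mem_product.1 (hΓ he)
    exact ⟨by exact_mod_cast Finset.card_pos.2 ⟨_, h4.1⟩,
      by exact_mod_cast Finset.card_pos.2 ⟨_, h4.2⟩, by exact_mod_cast Finset.card_pos.2 ⟨_, hz⟩,
      by exact_mod_cast Finset.card_pos.2 ⟨_, he⟩⟩
  set K := c3 G Γ C / den (A, B, C, Γ) with hK
  set N : ℝ := Fintype.card X * Fintype.card Y * Fintype.card Z with hN
  have hN0 : 0 < N := by positivity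
  have h3 : p0 * N ^ γ1 ≤ K := by
    refine le_trans ?_ (hmax (Finset.univ, Finset.univ, Finset.univ, Finset.univ) (by simp))
    have h4 : p0 * N ≤ c3 G Finset.univ Finset.univ := by
      simp only [exp_eq, ← Finset.sum_div, div_div] at hmean
      rw [le_div_iff₀ (by positivity)] at hmean
      rw [c3, Fintype.sum_prod_type]
      refine le_trans (le_of_eq ?_) hmean
      rw [hN]; ring
    have h5 := split3 (mul_pos hX hY) (mul_pos hX hY) hZ γ1 γ2
    rw [div_self (mul_pos hX hY).ne', Real.one_rpow, one_mul, ← hN] at h5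
    simp only [hden, Finset.card_univ, Fintype.card_prod, Nat.cast_mul]
    rw [le_div_iff₀ (by positivity), mul_assoc, h5]
    exact h4
  have hK0 : 0 < K := lt_of_lt_of_le (by positivity) h3
  obtain ⟨a0, b0, c0, g0⟩ := pos A B C Γ hΓ fun h => by rw [hK, h, zero_div] at hK0; exact lt_irrefl _ hK0
  have hUp : Up G K γ1 γ2 := fun A' B' C' Γ' h' => by
    by_cases h0 : c3 G Γ' C' = 0
    · rw [h0]; positivity
    · obtain ⟨a1, b1, c1, g1⟩ := pos A' B' C' Γ' h' h0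
      have h6 := hmax (A', B', C', Γ') (by simpa using h')
      simp only [hden] at h6
      rwa [div_le_iff₀ (by positivity)] at h6
  obtain ⟨p, hp⟩ : ∃ p, p = c3 G Γ C / (Γ.card * C.card) := ⟨_, rfl⟩
  obtain ⟨q, hq⟩ : ∃ q, q = (Γ.card : ℝ) / (A.card * B.card) := ⟨_, rfl⟩
  have hc : p * (Γ.card * C.card) = c3 G Γ C := by rw [hp]; field_simp
  have h7 := split3 g0 (mul_pos a0 b0) c0 γ1 γ2
  rw [← hq] at h7
  have hKe : K = p * (q ^ γ2 * (A.card * B.card * C.card : ℝ) ^ γ1) := by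
    rw [hK, hden, div_eq_iff (by positivity), ← hc, mul_assoc p, h7]
  clear_value K
  clear hK hmax hmem hden den
  have hp1 : p ≤ 1 := by
    rw [hp, div_le_one (by positivity)]
    calc c3 G Γ C ≤ ∑ e ∈ Γ, ∑ z ∈ C, (1 : ℝ) :=
          Finset.sum_le_sum fun e _ => Finset.sum_le_sum fun z _ => hG1 _ _ _
      _ = _ := by simp
  have hq0 : 0 < q := by rw [hq]; positivity
  have hq1 : q ≤ 1 := by
    rw [hq, div_le_one (by positivity)]
    have := Finset.card_le_card hΓ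
    rw [Finset.card_product] at this
    exact_mod_cast this
  obtain ⟨μ, hμ⟩ : ∃ μ, μ = (A.card * B.card * C.card : ℝ) / N := ⟨_, rfl⟩
  have hμ0 : 0 < μ := by rw [hμ]; positivity
  have hμ1 : μ ≤ 1 := by
    rw [hμ, div_le_one hN0, hN]
    have a1 : (A.card : ℝ) ≤ Fintype.card X := by exact_mod_cast Finset.card_le_univ A
    have a2 : (B.card : ℝ) ≤ Fintype.card Y := by exact_mod_cast Finset.card_le_univ B
    have a3 : (C.card : ℝ) ≤ Fintype.card Z := by exact_mod_cast Finset.card_le_univ C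
    gcongr
  have h8 : p0 ≤ p * (q ^ γ2 * μ ^ γ1) := by
    rw [hμ, Real.div_rpow (by positivity) hN0.le, ← mul_div_assoc, ← mul_div_assoc,
      le_div_iff₀ (by positivity), ← hKe]
    exact h3
  have u1 := Real.rpow_le_one hq0.le hq1 h2.le
  have u2 := Real.rpow_le_one hμ0.le hμ1 h1.le
  have u3 := Real.rpow_pos_of_pos hq0 γ2
  have u4 := Real.rpow_pos_of_pos hμ0 γ1
  have hp0' : 0 < p := (mul_pos_iff_of_pos_right (mul_pos u3 u4)).1 (hp0.trans_le h8)
  have u5 : p * (q ^ γ2 * μ ^ γ1) ≤ q ^ γ2 * μ ^ γ1 := mul_le_of_le_one_left (by positivity) hp1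
  refine ⟨A, B, C, Γ, p, q, Finset.card_pos.1 (by exact_mod_cast a0),
    Finset.card_pos.1 (by exact_mod_cast b0), Finset.card_pos.1 (by exact_mod_cast c0), hΓ,
    h8.trans (mul_le_of_le_one_right hp0'.le (mul_le_one₀ u1 u4.le u2)), hp1,
    by rw [hq]; field_simp,
    root_le hp0.le hq0.le h2 (h8.trans (u5.trans (mul_le_of_le_one_right u3.le u2))),
    hμ ▸ root_le hp0.le hμ0.le h1 (h8.trans (u5.trans (mul_le_of_le_one_left u4.le u1))),
    fun e he => ?_, hKe ▸ hUp⟩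
  have h9 := hUp A B C (Γ.erase e) ((Finset.erase_subset _ _).trans hΓ)
  have h10 : c3 G (Γ.erase e) C = p * (Γ.card * C.card) - ∑ z ∈ C, G e.1 e.2 z := by
    rw [hc, c3, c3, ← Finset.add_sum_erase Γ _ he]; ring
  have g1 : (1 : ℝ) ≤ Γ.card := by exact_mod_cast Finset.card_pos.2 ⟨_, he⟩
  have h11 : (((Γ.erase e).card : ℕ) : ℝ) = Γ.card * (1 + -(1 / (Γ.card : ℝ))) := by
    rw [Finset.card_erase_of_mem he, Nat.cast_sub (Finset.card_pos.2 ⟨_, he⟩)]
    field_simp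
    simp
    ring
  have h12 : (-1 : ℝ) ≤ -(1 / (Γ.card : ℝ)) := by rw [neg_le_neg_iff, div_le_one g0]; exact g1
  have h13 := rpow_one_add_le_one_add_mul_self h12 (p := 1 - γ2) (by linarith) (by linarith)
  rw [h10, h11, Real.mul_rpow g0.le (by linarith)] at h9
  have h14 : K * ((Γ.card : ℝ) ^ (1 - γ2) * (A.card * B.card : ℝ) ^ (γ2 - γ1)
      * (C.card : ℝ) ^ (1 - γ1)) = p * (Γ.card * C.card) := by rw [hKe, mul_assoc p, h7]
  have h15 := mul_le_mul_of_nonneg_left h13 (show 0 ≤ p * (Γ.card * C.card) by positivity)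
  have h16 : p * (Γ.card * C.card) * (1 + (1 - γ2) * -(1 / (Γ.card : ℝ)))
      = p * (Γ.card * C.card) - (1 - γ2) * p * C.card := by field_simp; ring
  rw [h16, ← h14] at h15
  rw [← h14] at h9
  linarith

end Pool.Agent.Work.MP_af588c_co.LB
end

-- merged part: Pool.Agent.Work.MP_af588c_co.LB.Wts
section
/-! From sets to weights. -/

set_option linter.unusedSectionVars false

namespace Pool.Agent.Work.MP_af588c_co.LB

open Finset
open scoped BigOperators
open Pool.Agent.Work.MP_af588c_co.TB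

variable {X Y Z : Type*} [Fintype X] [Fintype Y] [Fintype Z] [Nonempty X] [Nonempty Y] [Nonempty Z]

lemma Up.comap {X₁ Y₁ Z₁ : Type*} {G : X → Y → Z → ℝ} {K γ1 γ2 : ℝ} (h : Up G K γ1 γ2)
    (e1 : X₁ ↪ X) (e2 : Y₁ ↪ Y) (e3 : Z₁ ↪ Z) :
    Up (fun x y z => G (e1 x) (e2 y) (e3 z)) K γ1 γ2 := fun A B C Γ hΓ => by
  have h1 := h (A.map e1) (B.map e2) (C.map e3) (Γ.map (e1.prodMap e2)) (fun e he => by
    obtain ⟨e', he', rfl⟩ := Finset.mem_map.1 he
    have := Finset.mem_product.1 (hΓ he')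
    exact Finset.mem_product.2 ⟨Finset.mem_map_of_mem _ this.1, Finset.mem_map_of_mem _ this.2⟩)
  simp only [c3, Finset.card_map, Finset.sum_map] at h1
  exact h1

lemma Up.weights {G : X → Y → Z → ℝ} {K γ1 γ2 : ℝ} (h : Up G K γ1 γ2) (hK : 0 ≤ K)
    (h1 : 0 ≤ γ1) (h12 : γ1 ≤ γ2) (h2 : γ2 ≤ 1) (A : Finset X) (B : Finset Y) (w : X → Y → ℝ)
    (hw : ∀ x y, 0 ≤ w x y ∧ w x y ≤ 1) (hs : ∀ x y, w x y ≠ 0 → x ∈ A ∧ y ∈ B) (c : Z → ℝ)
    (hc : ∀ z, 0 ≤ c z ∧ c z ≤ 1) :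
    𝔼 x, 𝔼 y, w x y * 𝔼 z, c z * G x y z
      ≤ K / (Fintype.card X * Fintype.card Y * Fintype.card Z : ℝ) ^ γ1
        * (𝔼 x, 𝔼 y, w x y) ^ (1 - γ2)
        * ((A.card : ℝ) / Fintype.card X * (B.card / Fintype.card Y)) ^ (γ2 - γ1)
        * (𝔼 z, c z) ^ (1 - γ1) := by
  classical
  have hX : (0 : ℝ) < Fintype.card X := by exact_mod_cast Fintype.card_pos
  have hY : (0 : ℝ) < Fintype.card Y := by exact_mod_cast Fintype.card_pos
  have hZ : (0 : ℝ) < Fintype.card Z := by exact_mod_cast Fintype.card_pos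
  set M : ℝ := Fintype.card X * Fintype.card Y with hM
  have hM0 : 0 < M := by positivity
  set K' := K / (M * Fintype.card Z) ^ γ1 with hK'
  set b := ((A.card : ℝ) / Fintype.card X * (B.card / Fintype.card Y)) ^ (γ2 - γ1) with hb
  have hb0 : 0 ≤ b := by positivity
  have hK0 : 0 ≤ K' := by positivity
  have hC0 : 0 ≤ (𝔼 z, c z) ^ (1 - γ1) := Real.rpow_nonneg (exp_nonneg fun z => (hc z).1) _
  have s1 : ∀ Γ : Finset (X × Y), Γ ⊆ A ×ˢ B →
      (∑ e ∈ Γ, 𝔼 z, c z * G e.1 e.2 z) / M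
        ≤ K' * ((Γ.card : ℝ) / M) ^ (1 - γ2) * b * (𝔼 z, c z) ^ (1 - γ1) := by
    intro Γ hΓ
    have h3 := weights_of_sets (fun z => (∑ e ∈ Γ, G e.1 e.2 z) / M)
      (M := K' * ((Γ.card : ℝ) / M) ^ (1 - γ2) * b) (by positivity) h1 (h12.trans h2) (fun C => by
        have h4 := h A B C Γ hΓ
        have h5 := split3 hM0 hM0 hZ γ1 γ2
        rw [div_self hM0.ne', Real.one_rpow, one_mul] at h5
        rw [← Finset.sum_div, div_div, Finset.sum_comm, div_le_iff₀ (by positivity), ← h5, hK', hb,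
          div_mul_div_comm, ← hM, Real.div_rpow (by positivity) hM0.le,
          Real.div_rpow (by positivity) hM0.le, Real.div_rpow (by positivity) hZ.le]
        refine h4.trans (le_of_eq ?_)
        field_simp) c (fun z => (hc z).1) (fun z => (hc z).2)
    refine le_of_eq_of_le ?_ h3
    rw [← Finset.expect_sum_comm, Finset.expect_div]
    refine Finset.expect_congr rfl fun z _ => ?_
    rw [← Finset.mul_sum, mul_div_assoc]
  have h6 := weights_of_sets
    (fun e : X × Y => if e ∈ A ×ˢ B then 𝔼 z, c z * G e.1 e.2 z else 0)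
    (M := K' * b * (𝔼 z, c z) ^ (1 - γ1)) (by positivity) (h1.trans h12) h2 (fun U => by
      rw [← Finset.sum_filter, Fintype.card_prod, Nat.cast_mul, ← hM]
      refine (s1 _ fun e he => (Finset.mem_filter.1 he).2).trans ?_
      have h7 : (((U.filter fun e => e ∈ A ×ˢ B).card : ℝ) / M) ^ (1 - γ2)
          ≤ ((U.card : ℝ) / M) ^ (1 - γ2) := by
        refine Real.rpow_le_rpow (by positivity) ?_ (by linarith)
        gcongr
        exact Finset.filter_subset _ _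
      have := mul_le_mul_of_nonneg_left h7
        (show 0 ≤ K' * b * (𝔼 z, c z) ^ (1 - γ1) by positivity)
      linarith) (fun e => w e.1 e.2) (fun e => (hw _ _).1) (fun e => (hw _ _).2)
  rw [exp_prod, exp_prod] at h6
  refine le_trans (le_of_eq ?_) (h6.trans (le_of_eq (by ring)))
  refine Finset.expect_congr rfl fun x _ => Finset.expect_congr rfl fun y _ => ?_
  by_cases h0 : w x y = 0
  · simp [h0]
  · rw [if_pos (Finset.mem_product.2 (hs x y h0))]

lemma alg {K κ P Λ ρ W B C γ1 γ2 : ℝ} (hK0 : 0 ≤ K) (hP : 0 < P) (hΛ : 0 < Λ) (hρ : 0 < ρ)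
    (hW : 0 ≤ W) (hB : 0 ≤ B) (hC : 0 ≤ C) (h1 : 0 ≤ γ1) (h12 : γ1 ≤ γ2) (h2 : γ2 ≤ 1)
    (hK : K * P ^ γ2 * (Λ * ρ) ^ γ1 ≤ κ) :
    Λ * P * ρ * (K * (W / (Λ * P)) ^ (1 - γ2) * (B / Λ) ^ (γ2 - γ1) * (C / ρ) ^ (1 - γ1))
      ≤ κ * (W * C + γ2 * (B * C) + γ2) := by
  have e : Λ * P * ρ * (K * (W / (Λ * P)) ^ (1 - γ2) * (B / Λ) ^ (γ2 - γ1) * (C / ρ) ^ (1 - γ1))
      = K * P ^ γ2 * (Λ * ρ) ^ γ1 * ((W * C) ^ (1 - γ2) * (B * C) ^ (γ2 - γ1) * 1 ^ γ1) := by
    have e1 : C ^ (1 - γ1) = C ^ (1 - γ2) * C ^ (γ2 - γ1) := by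
      rw [← Real.rpow_add_of_nonneg hC (by linarith) (by linarith)]; congr 1; ring
    rw [Real.div_rpow hW (by positivity), Real.div_rpow hB hΛ.le, Real.div_rpow hC hρ.le,
      Real.mul_rpow hΛ.le hP.le, Real.mul_rpow hΛ.le hρ.le, Real.mul_rpow hW hC,
      Real.mul_rpow hB hC, Real.one_rpow, e1, Real.rpow_sub hΛ, Real.rpow_sub hΛ,
      Real.rpow_sub hP, Real.rpow_sub hρ, Real.rpow_one, Real.rpow_one, Real.rpow_one]
    have := Real.rpow_pos_of_pos hΛ γ2
    have := Real.rpow_pos_of_pos hΛ γ1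
    have := Real.rpow_pos_of_pos hP γ2
    have := Real.rpow_pos_of_pos hρ γ1
    field_simp
  rw [e]
  have h3 := Real.geom_mean_le_arith_mean3_weighted (w₁ := 1 - γ2) (w₂ := γ2 - γ1) (w₃ := γ1)
    (p₁ := W * C) (p₂ := B * C) (p₃ := 1) (by linarith) (by linarith) h1 (by positivity)
    (by positivity) zero_le_one (by ring)
  have h4 : 0 ≤ K * P ^ γ2 * (Λ * ρ) ^ γ1 := by positivity
  refine mul_le_mul hK (h3.trans ?_) (by positivity) (h4.trans hK)
  nlinarith [mul_nonneg hW hC, mul_nonneg hB hC]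

lemma exp_two (U : X → ℝ) {l : ℝ} (hl : 0 < l) (h : ∀ x, U x = 0 ∨ U x = l)
    [DecidablePred fun x => U x ≠ 0] :
    ((Finset.univ.filter fun x => U x ≠ 0).card : ℝ) / Fintype.card X = (𝔼 x, U x) / l := by
  have : ∑ x, U x = (Finset.univ.filter fun x => U x ≠ 0).card * l := by
    rw [← Finset.sum_filter_ne_zero, ← nsmul_eq_mul, ← Finset.sum_const]
    exact Finset.sum_congr rfl fun x hx => (h x).resolve_left (Finset.mem_filter.1 hx).2
  rw [exp_eq, this]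
  field_simp

lemma Up.lin {G : X → Y → Z → ℝ} {K γ1 γ2 κ P l l' ρ : ℝ} (h : Up G K γ1 γ2) (hK : 0 ≤ K)
    (h1 : 0 ≤ γ1) (h12 : γ1 ≤ γ2) (h2 : γ2 ≤ 1) (hP : 0 < P) (hl : 0 < l) (hl' : 0 < l')
    (hρ : 0 < ρ) (hκ : K / (Fintype.card X * Fintype.card Y * Fintype.card Z : ℝ) ^ γ1 * P ^ γ2
      * (l * l' * ρ) ^ γ1 ≤ κ) (U : X → ℝ) (V : Y → ℝ) (w : X → Y → ℝ) (c : Z → ℝ)
    (hU : ∀ x, U x = 0 ∨ U x = l) (hV : ∀ y, V y = 0 ∨ V y = l')
    (hw : ∀ x y, 0 ≤ w x y ∧ w x y ≤ U x * V y * P) (hc : ∀ z, 0 ≤ c z ∧ c z ≤ ρ) :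
    𝔼 x, 𝔼 y, w x y * 𝔼 z, c z * G x y z ≤ κ * ((𝔼 x, 𝔼 y, w x y) * (𝔼 z, c z)
      + γ2 * ((𝔼 x, U x) * (𝔼 y, V y) * 𝔼 z, c z) + γ2) := by
  classical
  have hU1 : ∀ x, 0 ≤ U x ∧ U x ≤ l := fun x => by
    rcases hU x with h0 | h0 <;> rw [h0] <;> exact ⟨by positivity, by linarith⟩
  have hV1 : ∀ y, 0 ≤ V y ∧ V y ≤ l' := fun y => by
    rcases hV y with h0 | h0 <;> rw [h0] <;> exact ⟨by positivity, by linarith⟩
  have h3 := h.weights hK h1 h12 h2 (Finset.univ.filter fun x => U x ≠ 0)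
    (Finset.univ.filter fun y => V y ≠ 0) (fun x y => w x y / (l * l' * P))
    (fun x y => ⟨div_nonneg (hw x y).1 (by positivity), by
      rw [div_le_one (by positivity)]
      exact (hw x y).2.trans (mul_le_mul_of_nonneg_right
        (mul_le_mul (hU1 x).2 (hV1 y).2 (hV1 y).1 hl.le) hP.le)⟩)
    (fun x y h0 => by
      have h4 : U x * V y * P ≠ 0 := fun h5 =>
        h0 (by rw [le_antisymm (h5 ▸ (hw x y).2) (hw x y).1, zero_div])
      simp only [ne_eq, mul_eq_zero, not_or] at h4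
      simp [h4.1.1, h4.1.2])
    (fun z => c z / ρ) (fun z => ⟨div_nonneg (hc z).1 hρ.le, (div_le_one hρ).2 (hc z).2⟩)
  rw [exp_two U hl hU, exp_two V hl' hV, div_mul_div_comm] at h3
  simp only [← Finset.expect_div] at h3
  refine le_trans ?_ (alg (by positivity) hP (mul_pos hl hl') hρ
    (exp_nonneg fun x => exp_nonneg fun y => (hw x y).1)
    (mul_nonneg (exp_nonneg fun x => (hU1 x).1) (exp_nonneg fun y => (hV1 y).1))
    (exp_nonneg fun z => (hc z).1) h1 h12 h2 hκ)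
  refine le_trans (le_of_eq ?_) (mul_le_mul_of_nonneg_left h3 (by positivity))
  simp only [Finset.mul_expect]
  refine Finset.expect_congr rfl fun x _ => Finset.expect_congr rfl fun y _ =>
    Finset.expect_congr rfl fun z _ => ?_
  field_simp

lemma spread_lin {a : X → Y → ℝ} {P γ Q : ℝ} (h : Spread a P γ) (hγ : 0 ≤ γ) (hγ1 : γ ≤ 1)
    (hQ : 0 < Q) (u : X → ℝ) (v : Y → ℝ) (hu : ∀ x, 0 ≤ u x ∧ u x ≤ Q)
    (hv : ∀ y, 0 ≤ v y ∧ v y ≤ Q) :
    𝔼 x, 𝔼 y, u x * v y * a x y ≤ (Q * Q) ^ γ * ((𝔼 x, u x) * (𝔼 y, v y) + γ) := by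
  have hX : (0 : ℝ) < Fintype.card X := by exact_mod_cast Fintype.card_pos
  have hY : (0 : ℝ) < Fintype.card Y := by exact_mod_cast Fintype.card_pos
  have hu0 : 0 ≤ 𝔼 x, u x := exp_nonneg fun x => (hu x).1
  have hv0 : 0 ≤ 𝔼 y, v y := exp_nonneg fun y => (hv y).1
  have h1 := weights_of_sets (fun y => 𝔼 x, u x / Q * a x y) (M := ((𝔼 x, u x) / Q) ^ (1 - γ))
    (by positivity) hγ hγ1 (fun B => by
      have h2 := weights_of_sets (fun x => (∑ y ∈ B, a x y) / (Fintype.card Y : ℝ))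
        (M := ((B.card : ℝ) / Fintype.card Y) ^ (1 - γ)) (by positivity) hγ hγ1 (fun A => by
          have h3 := h.box A B
          rw [Real.mul_rpow (by positivity) (by positivity)] at h3
          refine le_of_eq_of_le ?_ (h3.trans (le_of_eq (mul_comm _ _)))
          rw [← Finset.sum_div, div_div, mul_comm])
        (fun x => u x / Q) (fun x => div_nonneg (hu x).1 hQ.le)
        (fun x => (div_le_one hQ).2 (hu x).2)
      rw [← Finset.expect_div, mul_comm] at h2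
      refine le_of_eq_of_le ?_ h2
      rw [← Finset.expect_sum_comm, Finset.expect_div]
      refine Finset.expect_congr rfl fun x _ => ?_
      rw [← Finset.mul_sum, mul_div_assoc])
    (fun y => v y / Q) (fun y => div_nonneg (hv y).1 hQ.le) (fun y => (div_le_one hQ).2 (hv y).2)
  rw [← Finset.expect_div, ← Real.mul_rpow (by positivity) (by positivity), div_mul_div_comm,
    Real.div_rpow (by positivity) (by positivity), Real.rpow_sub (mul_pos hQ hQ),
    Real.rpow_one] at h1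
  have h4 := Real.geom_mean_le_arith_mean2_weighted (w₁ := 1 - γ) (w₂ := γ)
    (p₁ := (𝔼 x, u x) * 𝔼 y, v y) (p₂ := 1) (by linarith) hγ (by positivity) zero_le_one (by ring)
  rw [Real.one_rpow, mul_one] at h4
  have h5 : 0 < (Q * Q) ^ γ := by positivity
  have e : 𝔼 x, 𝔼 y, u x * v y * a x y = Q * Q * 𝔼 y, v y / Q * 𝔼 x, u x / Q * a x y := by
    simp only [Finset.mul_expect]
    rw [Finset.expect_comm]
    refine Finset.expect_congr rfl fun y _ => Finset.expect_congr rfl fun x _ => ?_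
    field_simp
  rw [e]
  refine (mul_le_mul_of_nonneg_left h1 (by positivity)).trans ?_
  rw [div_div_eq_mul_div, mul_div_cancel₀ _ (mul_pos hQ hQ).ne', mul_comm]
  refine mul_le_mul_of_nonneg_left (h4.trans ?_) h5.le
  nlinarith [mul_nonneg hu0 hv0]

end Pool.Agent.Work.MP_af588c_co.LB
end

-- merged part: Pool.Agent.Work.MP_af588c_co.LB.Blow
section
/-! Blow-ups: relative Hölder inequality, restriction to boxes. -/

set_option linter.unusedSectionVars false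

namespace Pool.Agent.Work.MP_af588c_co.LB

open Finset
open scoped BigOperators
open Pool.Agent.Work.MP_af588c_co.TB

variable {X Y Z : Type*} [Fintype X] [Fintype Y] [Fintype Z] [Nonempty X] [Nonempty Y] [Nonempty Z]
variable {ι κ ρ : Type*} [Fintype ι] [Fintype κ] [Fintype ρ] [DecidableEq ι] [DecidableEq κ]
  [DecidableEq ρ]

noncomputable def K3 (G : X → Y → Z → ℝ) (u : ℕ) : ℝ :=
  𝔼 x : Fin u → X, 𝔼 y : Fin u → Y, F G Finset.univ x y ^ u

lemma F_nonneg {G : X → Y → Z → ℝ} (hG : ∀ x y z, 0 ≤ G x y z) (S : Finset (ι × κ)) (x : ι → X)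
    (y : κ → Y) : 0 ≤ F G S x y := exp_nonneg fun z => pe_nonneg (fun x y => hG x y z) S x y

lemma holder (k : X → Y → ℝ) (G : X → Y → Z → ℝ) {Q B d : ℝ} (hk : ∀ x y, 0 ≤ k x y ∧ k x y ≤ Q)
    (hG : ∀ x y z, 0 ≤ G x y z) (u : ℕ) (hd : 0 ≤ d) (h : d ≤ 𝔼 x, 𝔼 y, k x y * 𝔼 z, G x y z)
    (h1 : 1 ≤ T k (Finset.univ : Finset (Fin u × Fin u)) (fun _ _ => 1))
    (h2 : T k (Finset.univ : Finset (Fin u × Fin u)) (fun _ _ => 1) ≤ B) :
    (d ^ (u * u) / B) ^ u ≤ Q ^ (u * u) * K3 G u := by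
  have hk0 : ∀ x y, 0 ≤ k x y := fun x y => (hk x y).1
  set W := T k (Finset.univ : Finset (Fin u × Fin u)) (fun _ _ => 1) with hW
  have h3 := jensen_hom (fun r : (Fin u → X) × (Fin u → Y) => pe k Finset.univ r.1 r.2)
    (fun r => F G Finset.univ r.1 r.2) (fun r => pe_nonneg hk0 _ _ _) (W := W) (by linarith)
    (by rw [exp_prod, hW]; simp [T]) (fun r => F_nonneg hG _ _ _) u
  rw [exp_prod, exp_prod] at h3
  have h4 : d ^ (u * u) ≤ 𝔼 x : Fin u → X, 𝔼 y : Fin u → Y,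
      pe k Finset.univ x y * F G Finset.univ x y := by
    have e1 : 𝔼 x : Fin u → X, 𝔼 y : Fin u → Y, pe k Finset.univ x y * F G Finset.univ x y
        = 𝔼 z, 𝔼 x : Fin u → X, 𝔼 y : Fin u → Y,
          pe (fun x y => k x y * G x y z) Finset.univ x y := by
      unfold F pe
      simp only [Finset.mul_expect, Finset.prod_mul_distrib]
      rw [Finset.expect_comm (Finset.univ : Finset Z)]
      exact Finset.expect_congr rfl fun x _ => Finset.expect_comm _ _ _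
    have e2 : 𝔼 x, 𝔼 y, k x y * 𝔼 z, G x y z = 𝔼 z, 𝔼 x, 𝔼 y, k x y * G x y z := by
      simp only [Finset.mul_expect]
      rw [Finset.expect_comm (Finset.univ : Finset Z)]
      exact Finset.expect_congr rfl fun x _ => Finset.expect_comm _ _ _
    have h5 := jensen_pow (fun _ : Z => (1 : ℝ)) (fun z => 𝔼 x, 𝔼 y, k x y * G x y z)
      (fun _ => zero_le_one) (Fintype.expect_const _)
      (fun z => exp_nonneg fun x => exp_nonneg fun y => mul_nonneg (hk0 _ _) (hG _ _ _)) (u * u)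
    simp only [one_mul] at h5
    rw [e2] at h
    rw [e1]
    refine (pow_le_pow_left₀ hd h _).trans (h5.trans (exp_mono fun z => ?_))
    simpa using T_complete (ι := Fin u) (κ := Fin u) (a := fun x y => k x y * G x y z)
      fun x y => mul_nonneg (hk0 _ _) (hG _ _ _)
  have h6 : (d ^ (u * u) / B) ^ u ≤ W * ((𝔼 x : Fin u → X, 𝔼 y : Fin u → Y,
      pe k Finset.univ x y * F G Finset.univ x y) / W) ^ u := by
    have h7 : 0 ≤ d ^ (u * u) / B := div_nonneg (by positivity) (by linarith)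
    have h8 := div_le_div₀ (le_trans (by positivity) h4) h4 (by linarith) h2
    exact (pow_le_pow_left₀ h7 h8 u).trans
      (le_mul_of_one_le_left (pow_nonneg (h7.trans h8) _) h1)
  refine h6.trans (h3.trans ?_)
  unfold K3
  simp only [Finset.mul_expect]
  refine exp_mono fun x => exp_mono fun y => ?_
  refine mul_le_mul_of_nonneg_right ?_ (pow_nonneg (F_nonneg hG _ _ _) _)
  refine (Finset.prod_le_prod (fun e _ => hk0 _ _) fun e _ => (hk _ _).2).trans ?_
  simp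

lemma K3_restrict {X₁ Y₁ Z₁ : Type*} [Fintype X₁] [Fintype Y₁] [Fintype Z₁] [Nonempty X₁]
    [Nonempty Y₁] [Nonempty Z₁] (G : X → Y → Z → ℝ) (hG : ∀ x y z, 0 ≤ G x y z) (e1 : X₁ → X)
    (e2 : Y₁ → Y) (e3 : Z₁ → Z) (h1 : Function.Injective e1) (h2 : Function.Injective e2)
    (h3 : Function.Injective e3) (u : ℕ) :
    ((Fintype.card X₁ : ℝ) / Fintype.card X * ((Fintype.card Y₁ : ℝ) / Fintype.card Y
      * ((Fintype.card Z₁ : ℝ) / Fintype.card Z))) ^ u
      * K3 (fun x y z => G (e1 x) (e2 y) (e3 z)) u ≤ K3 G u := by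
  classical
  have hF : ∀ (x : Fin u → X) (y : Fin u → Y), 0 ≤ F G Finset.univ x y ^ u := fun x y =>
    pow_nonneg (F_nonneg hG _ _ _) _
  have k1 := exp_restrict (fun x : Fin u → X₁ => e1 ∘ x) h1.comp_left
    (fun x => 𝔼 y : Fin u → Y, F G Finset.univ x y ^ u) fun x => exp_nonneg (hF x)
  have k2 := fun x => exp_restrict (fun y : Fin u → Y₁ => e2 ∘ y) h2.comp_left
    (fun y => F G Finset.univ x y ^ u) (hF x)
  simp only [Fintype.card_fun, Fintype.card_fin, Nat.cast_pow, ← div_pow] at k1 k2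
  refine le_trans ?_ k1
  rw [mul_pow, mul_pow, mul_assoc]
  refine mul_le_mul_of_nonneg_left ?_ (by positivity)
  unfold K3
  rw [Finset.mul_expect]
  refine exp_mono fun x => le_trans ?_ (k2 _)
  rw [mul_assoc]
  refine mul_le_mul_of_nonneg_left ?_ (by positivity)
  rw [Finset.mul_expect]
  refine exp_mono fun y => ?_
  rw [← mul_pow]
  refine pow_le_pow_left₀ (mul_nonneg (by positivity)
    (F_nonneg (fun x y z => hG _ _ _) _ _ _)) ?_ u
  exact exp_restrict e3 h3 (fun z => pe (fun x y => G x y z) Finset.univ (e1 ∘ x) (e2 ∘ y))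
    fun z => pe_nonneg (fun x y => hG x y z) _ _ _

/-- the host on tuples -/
noncomputable def tup (G : X → Y → Z → ℝ) (S : ρ → Finset (ι × κ)) (x : ι → X) (y : κ → Y)
    (z : ρ → Z) : ℝ := ∏ k, pe (fun x y => G x y (z k)) (S k) x y

lemma tup_nonneg {G : X → Y → Z → ℝ} (hG : ∀ x y z, 0 ≤ G x y z) (S : ρ → Finset (ι × κ))
    (x : ι → X) (y : κ → Y) (z : ρ → Z) : 0 ≤ tup G S x y z :=
  Finset.prod_nonneg fun _ _ => pe_nonneg (fun x y => hG x y _) _ _ _

lemma T_curry (a : X → Y → ℝ) (u : ℕ) :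
    T (fun (x : ι → X) (y : κ → Y) => pe a Finset.univ x y)
      (Finset.univ : Finset (Fin u × Fin u)) (fun _ _ => 1)
      = T a (Finset.univ : Finset ((Fin u × ι) × (Fin u × κ))) (fun _ _ => 1) := by
  unfold T
  refine (Fintype.expect_equiv (Equiv.curry (Fin u) ι X) _ _ fun x => ?_).symm
  refine Fintype.expect_equiv (Equiv.curry (Fin u) κ Y) _ _ fun y => ?_
  simp only [pe, Fintype.prod_prod_type, Equiv.curry_apply, Function.curry_apply]
  congr 1
  exact Finset.prod_congr rfl fun c _ => Finset.prod_comm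

lemma core_bound {a : X → Y → ℝ} {g G : X → Y → Z → ℝ} {P R θ p : ℝ} {n m : ℕ}
    (h : Reg a g P R θ n m) (s : Sm ι κ θ n m) (hp0 : 0 ≤ p) (hG : ∀ x y z, G x y z = p * g x y z)
    (S : ρ → Finset (ι × κ)) (hM : ∀ k, IsM (S k))
    (hρ : 132 * R ^ 2 * θ * m ^ 2 * Fintype.card ρ ≤ 1) (u : ℕ) (h1 : u * Fintype.card ι ≤ n)
    (h2 : u * Fintype.card κ ≤ n) :
    (((p / 2) ^ (∑ k, (S k).card) / 2) ^ (u * u) / (1 + 2 * θ) ^ (u * u * m)) ^ u
      ≤ (P ^ m) ^ (u * u) * K3 (tup G S) u := by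
  refine holder (fun x y => pe a Finset.univ x y) (tup G S)
    (fun x y => prod_bd _ _ h.P1 (by simpa using s.hm) (fun _ => h.a0 _ _) fun _ => h.aP _ _)
    (tup_nonneg (fun x y z => by rw [hG]; exact mul_nonneg hp0 (h.g0 _ _ _)) S) u (by positivity)
    ?_ (by rw [T_curry]; exact h.t_univ) ?_
  · have h3 := mul_le_mul_of_nonneg_left (h.dens s S hM hρ) (pow_nonneg hp0 (∑ k, (S k).card))
    rw [← T_smul] at h3
    refine le_trans (le_of_eq ?_) (h3.trans (le_of_eq ?_))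
    · rw [pow_succ, div_eq_mul_one_div p, mul_pow]; ring
    · unfold T tup
      refine Finset.expect_congr rfl fun x _ => Finset.expect_congr rfl fun y _ => ?_
      beta_reduce
      rw [hp (fun k z => pe (fun x y => G x y z) (S k) x y), ← Finset.prod_pow_eq_pow_sum,
        ← Finset.prod_mul_distrib]
      congr 1
      refine Finset.prod_congr rfl fun k _ => ?_
      unfold F pe
      simp only [hG, Finset.prod_mul_distrib, Finset.prod_const, Finset.mul_expect]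
  · rw [T_curry]
    refine h.t_le (by simpa using h1) (by simpa using h2) _ _ ?_
    have := s.hm
    simp only [Finset.card_univ, Fintype.card_prod, Fintype.card_fin] at this ⊢
    calc u * Fintype.card ι * (u * Fintype.card κ)
        = u * u * (Fintype.card ι * Fintype.card κ) := by ring
      _ ≤ _ := Nat.mul_le_mul_left _ this

end Pool.Agent.Work.MP_af588c_co.LB
end

-- merged part: Pool.Agent.Work.MP_af588c_co.LB.Param
section
/-! Construction of the regular pair set. -/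

set_option linter.unusedSectionVars false

namespace Pool.Agent.Work.MP_af588c_co.LB

open Finset
open scoped BigOperators
open Pool.Agent.Work.MP_af588c_co.TB

variable {X Y Z : Type*} [Fintype X] [Fintype Y] [Fintype Z] [Nonempty X] [Nonempty Y] [Nonempty Z]

lemma exp_half {x θ : ℝ} (hθ : 0 ≤ θ) (hθ1 : θ ≤ 1) (h : x ≤ θ / 2) : Real.exp x ≤ 1 + θ := by
  have h2 := Real.abs_exp_sub_one_le (x := θ / 2) (by rw [abs_of_nonneg (by linarith)]; linarith)
  rw [abs_of_nonneg (show 0 ≤ θ / 2 by linarith)] at h2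
  linarith [le_abs_self (Real.exp (θ / 2) - 1), Real.exp_le_exp.2 h]

lemma reg_of {a : X → Y → ℝ} {G : X → Y → Z → ℝ} {P p θ K γ1 γ2 γ3 L D M : ℝ} {n m : ℕ}
    (hsp : Spread a P γ3) (two : ∀ x y, a x y = 0 ∨ a x y = P) (hup : Up G K γ1 γ2) (hK : 0 ≤ K)
    (hG0 : ∀ x y z, 0 ≤ G x y z) (hG1 : ∀ x y z, G x y z ≤ 1) (hp : Real.exp (-D) ≤ p)
    (hp1 : p ≤ 1) (hPL : P ≤ Real.exp L)
    (low : ∀ x y, a x y ≠ 0 → (1 - γ2) * p ≤ 𝔼 z, G x y z)
    (hKM : K / (Fintype.card X * Fintype.card Y * Fintype.card Z : ℝ) ^ γ1 * P ^ γ2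
      ≤ p * Real.exp (γ1 * M))
    (h1 : 0 ≤ γ1) (h12 : γ1 ≤ γ2) (h2 : γ2 ≤ θ / 2) (h3 : 0 ≤ γ3) (h3' : γ3 ≤ θ / 2) (hθ : θ ≤ 1)
    (H2 : 2 * n * L * γ3 ≤ θ / 2) (H3 : γ1 * (M + (2 * m * L + m * D)) ≤ θ / 2) :
    Reg a (fun x y z => G x y z / p) P (1 / p) θ n m := by
  have hp0 : 0 < p := (Real.exp_pos _).trans_le hp
  have hθ0 : 0 ≤ θ := by linarith
  have P1 : 1 ≤ P := by
    rw [← hsp.mean]
    exact Finset.expect_le Finset.univ_nonempty fun y _ =>
      Finset.expect_le Finset.univ_nonempty fun x _ => hsp.le x y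
  have hP0 : 0 < P := by linarith
  have hPk : ∀ k l : ℕ, k ≤ l → P ^ k ≤ Real.exp (l * L) := fun k l h => by
    rw [Real.exp_nat_mul]
    exact (pow_le_pow_right₀ P1 h).trans (pow_le_pow_left₀ hP0.le hPL l)
  refine ⟨two, P1, by rw [le_div_iff₀ hp0]; linarith, hθ0, by rw [Finset.expect_comm]; exact hsp.mean,
    fun x y z => div_nonneg (hG0 x y z) hp0.le,
    fun x y z => div_le_div_of_nonneg_right (hG1 x y z) hp0.le, fun x y h => ?_,
    fun u v hu hv => ?_, fun U V w c k l hk hl hU hV hw hc => ?_⟩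
  · rw [← Finset.expect_div, le_div_iff₀ hp0]
    nlinarith [low x y h]
  · have h4 := spread_lin hsp h3 (by linarith) (pow_pos hP0 n) u v hu hv
    have h5 : (P ^ n * P ^ n) ^ γ3 ≤ 1 + θ := by
      refine le_trans ?_ (exp_half hθ0 hθ H2)
      rw [Real.exp_mul]
      refine Real.rpow_le_rpow (by positivity) ?_ h3
      rw [show 2 * n * L = n * L + n * L by ring, Real.exp_add]
      exact mul_le_mul (hPk n n le_rfl) (hPk n n le_rfl) (by positivity) (by positivity)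
    have h6 : 0 ≤ (𝔼 x, u x) * 𝔼 y, v y :=
      mul_nonneg (exp_nonneg fun x => (hu x).1) (exp_nonneg fun y => (hv y).1)
    have h7 := mul_le_mul_of_nonneg_right h5 (add_nonneg h6 h3)
    nlinarith
  · have h4 : (P ^ k * P ^ l * (1 / p) ^ m) ^ γ1 ≤ Real.exp (γ1 * (2 * m * L + m * D)) := by
      rw [mul_comm γ1, Real.exp_mul]
      refine Real.rpow_le_rpow (by positivity) ?_ h1
      rw [show 2 * m * L + m * D = m * L + m * L + m * D by ring, Real.exp_add, Real.exp_add]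
      refine mul_le_mul (mul_le_mul (hPk k m hk) (hPk l m hl) (by positivity) (by positivity)) ?_
        (by positivity) (by positivity)
      rw [Real.exp_nat_mul]
      refine pow_le_pow_left₀ (by positivity) ?_ m
      rw [Real.exp_neg, ← one_div] at hp
      exact (one_div_le hp0 (Real.exp_pos D)).2 hp
    have h5 : K / (Fintype.card X * Fintype.card Y * Fintype.card Z : ℝ) ^ γ1 * P ^ γ2
        * (P ^ k * P ^ l * (1 / p) ^ m) ^ γ1 ≤ p * (1 + θ) := by
      refine (mul_le_mul hKM h4 (by positivity) (by positivity)).trans ?_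
      rw [mul_assoc, ← Real.exp_add, ← mul_add]
      exact mul_le_mul_of_nonneg_left (exp_half hθ0 hθ H3) hp0.le
    have hU0 : ∀ x, 0 ≤ U x := fun x => by rcases hU x with h | h <;> rw [h]; positivity
    have hV0 : ∀ y, 0 ≤ V y := fun y => by rcases hV y with h | h <;> rw [h]; positivity
    have h6 := hup.lin hK h1 h12 (by linarith) hP0 (pow_pos hP0 k) (pow_pos hP0 l)
      (pow_pos (one_div_pos.2 hp0) m) h5 U V w c hU hV
      (fun x y => ⟨(hw x y).1, (hw x y).2.trans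
        (mul_le_mul_of_nonneg_left (hsp.le x y) (mul_nonneg (hU0 x) (hV0 y)))⟩) hc
    have h7 : 0 ≤ (𝔼 x, U x) * (𝔼 y, V y) * 𝔼 z, c z :=
      mul_nonneg (mul_nonneg (exp_nonneg hU0) (exp_nonneg hV0)) (exp_nonneg fun z => (hc z).1)
    simp only [← mul_div_assoc, ← Finset.expect_div]
    rw [div_le_iff₀ hp0]
    refine h6.trans ?_
    rw [mul_assoc, mul_comm _ p]
    refine mul_le_mul_of_nonneg_left ?_ hp0.le
    have h8 : (1 + θ) * γ2 ≤ θ := by nlinarith
    nlinarith [mul_le_mul_of_nonneg_right h8 h7]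

theorem param (G : X → Y → Z → ℝ) (hG0 : ∀ x y z, 0 ≤ G x y z) (hG1 : ∀ x y z, G x y z ≤ 1)
    {D θ γ1 γ2 γ3 : ℝ} (hmean : Real.exp (-D) ≤ 𝔼 x, 𝔼 y, 𝔼 z, G x y z) (s u : ℕ) (hs : 1 ≤ s)
    (hu : 1 ≤ u) (S : Fin s → Finset (Fin s × Fin s)) (hM : ∀ k, IsM (S k))
    (h1 : 0 < γ1) (h12 : γ1 ≤ γ2) (h2 : γ2 ≤ θ / 2) (h3 : 0 < γ3) (h3' : γ3 ≤ θ / 2) (hθ : θ ≤ 1)
    (H1 : 12 * θ * (s * s) ≤ 1) (H2 : 2 * (u * s) * (D / γ2) * γ3 ≤ θ / 2)
    (H3 : γ1 * (D / γ2 / γ3 + (2 * (s * s) * (D / γ2) + s * s * D)) ≤ θ / 2)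
    (H4 : 132 * Real.exp D ^ 2 * θ * (s * s) ^ 2 * s ≤ 1) :
    ((Real.exp (-D) / 2) ^ (∑ k, (S k).card) / 2) ^ (u * u * u)
      * Real.exp (-(2 * θ * (u * u * (s * s) * u) + D / γ2 * (s * s * (u * u))
        + (D / γ1 + D / γ2 / γ3) * (s * u))) ≤ K3 (tup G S) u := by
  classical
  have hγ2 : 0 < γ2 := h1.trans_le h12
  have hθ0 : 0 ≤ θ := by linarith
  obtain ⟨A, B, C, Γ, p, q, hA, hB, hC, hΓ, hp, hp1, hq, hqL, hbox, hlow, hup⟩ :=
    stage1 G hG1 (Real.exp_pos (-D)) h1 hγ2 (by linarith) hmean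
  have := hA.to_subtype
  have := hB.to_subtype
  have := hC.to_subtype
  have a0 : (0 : ℝ) < A.card := by exact_mod_cast hA.card_pos
  have b0 : (0 : ℝ) < B.card := by exact_mod_cast hB.card_pos
  have c0 : (0 : ℝ) < C.card := by exact_mod_cast hC.card_pos
  have hp0 : 0 < p := (Real.exp_pos _).trans_le hp
  rw [← Real.exp_mul, show -D * (1 / γ2) = -(D / γ2) by ring] at hqL
  rw [← Real.exp_mul, show -D * (1 / γ1) = -(D / γ1) by ring] at hbox
  have hq0 : 0 < q := (Real.exp_pos _).trans_le hqL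
  obtain ⟨X', Y', Z', q1, hX', hY', hZ', hq1, hcnt, hμ, hb⟩ :=
    regularize (fun (x : A) (y : B) (_ : Unit) => ind ((x.1, y.1) ∈ Γ))
      (fun _ _ _ => ind_le_one _) hq0 h3 (by
        simp only [Fintype.expect_const, exp_eq, ← Finset.sum_div, div_div, Fintype.card_coe]
        rw [le_div_iff₀ (by positivity), mul_comm (B.card : ℝ), ← hq,
          Finset.sum_coe_sort A (fun x => ∑ y : B, ind ((x, y.1) ∈ Γ))]
        simp only [fun x => Finset.sum_coe_sort B (fun y => ind ((x, y) ∈ Γ))]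
        rw [← Finset.sum_product', Finset.card_eq_sum_ones, Nat.cast_sum]
        refine le_trans (Finset.sum_le_sum fun e he => ?_)
          (Finset.sum_le_sum_of_subset_of_nonneg hΓ fun _ _ _ => ind_nonneg _)
        rw [ind_of he]; simp)
  have := hX'.to_subtype
  have := hY'.to_subtype
  have := hZ'.to_subtype
  have x0 : (0 : ℝ) < X'.card := by exact_mod_cast hX'.card_pos
  have y0 : (0 : ℝ) < Y'.card := by exact_mod_cast hY'.card_pos
  have z1 : Z'.card = 1 := le_antisymm (by simpa using Finset.card_le_univ Z') hZ'.card_pos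
  have hq10 : 0 < q1 := hq0.trans_le hq1
  have hsp := spread_of_box (γ := γ3)
    (fun (x : X') (y : Y') (_ : Z') => ind ((x.1.1, y.1.1) ∈ Γ)) (fun _ _ _ => ind_nonneg _)
    (fun _ _ _ => ind_le_one _) hq10 le_rfl (by
      simp only [exp_eq, ← Finset.sum_div, div_div, Fintype.card_coe]
      rw [div_eq_iff (by positivity)]
      have e : ∑ x : X', ∑ y : Y', ∑ z : Z', ind ((x.1.1, y.1.1) ∈ Γ)
          = cnt (fun (x : A) (y : B) (_ : Unit) => ind ((x.1, y.1) ∈ Γ)) X' Y' Z' := by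
        unfold cnt
        rw [← Finset.sum_coe_sort X']
        refine Finset.sum_congr rfl fun x _ => ?_
        rw [← Finset.sum_coe_sort Y']
        refine Finset.sum_congr rfl fun y _ => ?_
        rw [← Finset.sum_coe_sort Z']
      rw [e, hcnt]; ring)
    (fun U W R => by
      have h := hb (U.map (Function.Embedding.subtype _)) (W.map (Function.Embedding.subtype _))
        (R.map (Function.Embedding.subtype _))
      simp only [Finset.card_map, cnt, Finset.sum_map, Function.Embedding.coe_subtype] at h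
      simpa only [Fintype.card_coe, cnt] using h)
  simp only [Fintype.expect_const] at hsp
  simp only [z1, Fintype.card_coe, Fintype.card_unit, Nat.cast_one, mul_one] at hμ
  have hμ' : Real.exp (-(D / γ2 / γ3)) ≤ (X'.card * Y'.card : ℝ) / (A.card * B.card) := by
    refine le_trans ?_ hμ
    rw [show -(D / γ2 / γ3) = -(D / γ2) * (1 / γ3) by ring, Real.exp_mul]
    exact Real.rpow_le_rpow (Real.exp_pos _).le hqL (by positivity)
  have hPL : 1 / q1 ≤ Real.exp (D / γ2) := by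
    rw [Real.exp_neg, ← one_div] at hqL
    exact (one_div_le hq10 (Real.exp_pos _)).2 (hqL.trans hq1)
  let e1 : X' ↪ X := (Function.Embedding.subtype _).trans (Function.Embedding.subtype _)
  let e2 : Y' ↪ Y := (Function.Embedding.subtype _).trans (Function.Embedding.subtype _)
  let e3 : C ↪ Z := Function.Embedding.subtype _
  have hreg := reg_of (n := u * s) (m := s * s) (M := D / γ2 / γ3) (θ := θ) hsp
    (fun x y => by unfold ind; split_ifs <;> simp) (hup.comap e1 e2 e3) (by positivity)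
    (fun _ _ _ => hG0 _ _ _) (fun _ _ _ => hG1 _ _ _) hp hp1 hPL
    (fun x y h => by
      have h4 := hlow _ (of_ind_ne fun h5 => h (by rw [h5, zero_div]))
      rw [exp_eq, Fintype.card_coe, le_div_iff₀ c0]
      exact h4.trans (le_of_eq (Finset.sum_coe_sort C fun z => G x.1.1 y.1.1 z).symm))
    (by
      simp only [Fintype.card_coe]
      have h4 : q ^ γ2 * (1 / q1) ^ γ2 ≤ 1 := by
        rw [← Real.mul_rpow hq0.le (by positivity)]
        exact Real.rpow_le_one (by positivity) (by rw [mul_one_div, div_le_one hq10]; exact hq1)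
          hγ2.le
      have h5 : (A.card * B.card * C.card : ℝ) ^ γ1 / (X'.card * Y'.card * C.card : ℝ) ^ γ1
          ≤ Real.exp (γ1 * (D / γ2 / γ3)) := by
        rw [← Real.div_rpow (by positivity) (by positivity), mul_comm γ1, Real.exp_mul,
          mul_div_mul_right _ _ c0.ne']
        refine Real.rpow_le_rpow (by positivity) ?_ h1.le
        rw [Real.exp_neg, inv_le_comm₀ (Real.exp_pos _) (by positivity), inv_div] at hμ'
        exact hμ'
      have h6 := mul_le_mul_of_nonneg_left (mul_le_mul h4 h5 (by positivity) zero_le_one) hp0.le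
      rw [one_mul] at h6
      refine le_of_eq_of_le ?_ h6
      ring)
    h1.le h12 h2 h3.le h3' hθ (by exact_mod_cast H2) (by exact_mod_cast H3)
  have hR : 1 / p ≤ Real.exp D := by
    rw [Real.exp_neg, ← one_div] at hp
    exact (one_div_le hp0 (Real.exp_pos D)).2 hp
  have hcb := core_bound (ι := Fin s) (κ := Fin s) (G := fun x y z => G (e1 x) (e2 y) (e3 z)) hreg
    ⟨by simpa using Nat.le_mul_of_pos_left s hu, by simpa using Nat.le_mul_of_pos_left s hu,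
      by simp, Nat.mul_pos hs hs, by exact_mod_cast H1⟩ hp0.le
    (fun x y z => by field_simp) S hM (by
      refine le_trans ?_ H4
      simp only [Fintype.card_fin, Nat.cast_mul]
      gcongr) u (by simp) (by simp)
  have hr := K3_restrict (tup G S) (tup_nonneg hG0 S) (fun x : Fin s → X' => e1 ∘ x)
    (fun y : Fin s → Y' => e2 ∘ y) (fun z : Fin s → C => e3 ∘ z) e1.injective.comp_left
    e2.injective.comp_left e3.injective.comp_left u
  simp only [Fintype.card_fun, Fintype.card_fin, Fintype.card_coe, Nat.cast_pow, ← div_pow,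
    ← mul_pow] at hr
  refine le_trans ?_ hr
  have hX : (0 : ℝ) < Fintype.card X := by exact_mod_cast Fintype.card_pos
  have hY : (0 : ℝ) < Fintype.card Y := by exact_mod_cast Fintype.card_pos
  have hZ : (0 : ℝ) < Fintype.card Z := by exact_mod_cast Fintype.card_pos
  have k1 : Real.exp (-(D / γ1 + D / γ2 / γ3)) ≤ (X'.card : ℝ) / Fintype.card X
      * ((Y'.card : ℝ) / Fintype.card Y * ((C.card : ℝ) / Fintype.card Z)) := by
    rw [neg_add, Real.exp_add]
    refine (mul_le_mul hbox hμ' (Real.exp_pos _).le (by positivity)).trans (le_of_eq ?_)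
    field_simp
  have k2 := pow_le_pow_left₀ (by positivity) (pow_le_pow_left₀ (Real.exp_pos _).le k1 s) u
  rw [← Real.exp_nat_mul, ← Real.exp_nat_mul] at k2
  have k3 : ((1 / q1) ^ (s * s)) ^ (u * u) ≤ Real.exp (D / γ2 * (s * s * (u * u))) := by
    rw [← pow_mul, mul_comm (D / γ2), ← Nat.cast_mul, ← Nat.cast_mul, ← Nat.cast_mul,
      Real.exp_nat_mul]
    exact pow_le_pow_left₀ (by positivity) hPL _
  have k4 : ((1 + 2 * θ) ^ (u * u * (s * s))) ^ u ≤ Real.exp (2 * θ * (u * u * (s * s) * u)) := by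
    rw [← pow_mul, mul_comm (2 * θ), ← Nat.cast_mul, ← Nat.cast_mul, ← Nat.cast_mul,
      ← Nat.cast_mul, Real.exp_nat_mul]
    exact pow_le_pow_left₀ (by positivity) (by linarith [Real.add_one_le_exp (2 * θ)]) _
  have k5 : ((Real.exp (-D) / 2) ^ (∑ k, (S k).card) / 2) ^ (u * u * u)
      ≤ ((p / 2) ^ (∑ k, (S k).card) / 2) ^ (u * u * u) := by gcongr
  have hK0 : 0 ≤ K3 (tup (fun x y z => G (e1 x) (e2 y) (e3 z)) S) u :=
    exp_nonneg fun x => exp_nonneg fun y =>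
      pow_nonneg (F_nonneg (tup_nonneg (fun _ _ _ => hG0 _ _ _) S) _ _ _) _
  rw [div_pow, ← pow_mul, div_le_iff₀ (by positivity)] at hcb
  have k6 := (k5.trans hcb).trans
    (mul_le_mul (mul_le_mul_of_nonneg_right k3 hK0) k4 (by positivity) (by positivity))
  refine (mul_le_mul_of_nonneg_right k6 (Real.exp_pos _).le).trans
    (le_trans (le_of_eq ?_) (mul_le_mul_of_nonneg_right k2 hK0))
  rw [mul_comm (Real.exp _) (K3 _ _), mul_comm (Real.exp _) (K3 _ _), mul_assoc, mul_assoc,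
    ← Real.exp_add, ← Real.exp_add]
  congr 2
  ring

end Pool.Agent.Work.MP_af588c_co.LB
end

-- merged part: Pool.Agent.Work.MP_af588c_co.LB.Main
section
/-! Choice of the parameters. -/

set_option linter.unusedSectionVars false

namespace Pool.Agent.Work.MP_af588c_co.LB

open Finset
open scoped BigOperators
open Pool.Agent.Work.MP_af588c_co.TB

variable {X Y Z : Type*} [Fintype X] [Fintype Y] [Fintype Z] [Nonempty X] [Nonempty Y] [Nonempty Z]

lemma numerics {w s D r u : ℝ} (hs : 1 ≤ s) (hsw : 6 * s ≤ w) (hD : 0 ≤ D) (hDw : 6 * (s * D) ≤ w)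
    (hr0 : 0 ≤ r) (hr : 6 * (s * r) ≤ w) (hu : w ^ 24 ≤ u) :
    1 / (u * w ^ 23) ≤ 1 / w ^ 5 / 2 ∧ 1 / (u * w ^ 12) ≤ 1 / w ^ 5 / 2 ∧ 1 / w ^ 5 ≤ 1 ∧
    12 * (1 / w ^ 5) * (s * s) ≤ 1 ∧
    2 * (u * s) * (D / (1 / w ^ 5 / 2)) * (1 / (u * w ^ 12)) ≤ 1 / w ^ 5 / 2 ∧
    1 / (u * w ^ 23) * (D / (1 / w ^ 5 / 2) / (1 / (u * w ^ 12))
      + (2 * (s * s) * (D / (1 / w ^ 5 / 2)) + s * s * D)) ≤ 1 / w ^ 5 / 2 ∧
    132 * r ^ 2 * (1 / w ^ 5) * (s * s) ^ 2 * s ≤ 1 ∧
    2 * (1 / w ^ 5) * (u * u * (s * s) * u) + D / (1 / w ^ 5 / 2) * (s * s * (u * u))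
      + (D / (1 / (u * w ^ 23)) + D / (1 / w ^ 5 / 2) / (1 / (u * w ^ 12))) * (s * u)
      ≤ u * u * u / 3 := by
  have hw : 6 ≤ w := by linarith
  have hw1 : 1 ≤ w := by linarith
  have hw0 : 0 < w := by linarith
  have pw : ∀ a b : ℕ, a ≤ b → w ^ a ≤ w ^ b := fun a b h => pow_le_pow_right₀ hw1 h
  have pw6 : ∀ a b : ℕ, a < b → 6 * w ^ a ≤ w ^ b := fun a b h =>
    le_trans (by rw [pow_succ']; gcongr) (pw (a + 1) b h)
  have hu1 : 1 ≤ u := (one_le_pow₀ hw1).trans hu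
  have hu0 : 0 < u := by linarith
  have hs' : s ≤ w / 6 := by linarith
  have hD' : s * D ≤ w / 6 := by linarith
  have hr' : s * r ≤ w / 6 := by linarith
  have hD2 : D ≤ w / 6 := le_trans (le_mul_of_one_le_left hD hs) hD'
  have w5 : 0 < w ^ 5 := by positivity
  refine ⟨?_, ?_, ?_, ?_, ?_, ?_, ?_, ?_⟩
  · rw [div_div]
    refine one_div_le_one_div_of_le (by positivity) ?_
    nlinarith [pw6 5 23 (by norm_num)]
  · rw [div_div]
    refine one_div_le_one_div_of_le (by positivity) ?_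
    nlinarith [pw6 5 12 (by norm_num)]
  · rw [div_le_one w5]; exact one_le_pow₀ hw1
  · have : s * s ≤ w / 6 * (w / 6) := by gcongr
    rw [mul_one_div, div_mul_eq_mul_div, div_le_one w5]
    nlinarith [pw 2 5 (by norm_num)]
  · have e : 2 * (u * s) * (D / (1 / w ^ 5 / 2)) * (1 / (u * w ^ 12)) = 4 * (s * D) / w ^ 7 := by
      field_simp; ring
    rw [e, div_div, div_le_div_iff₀ (by positivity) (by positivity)]
    have := mul_le_mul_of_nonneg_right hD' w5.le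
    nlinarith [pw6 6 7 (by norm_num), pow_pos hw0 6]
  · have e : 1 / (u * w ^ 23) * (D / (1 / w ^ 5 / 2) / (1 / (u * w ^ 12))
        + (2 * (s * s) * (D / (1 / w ^ 5 / 2)) + s * s * D))
        = (2 * D * w ^ 17 * u + s * (s * D) * (4 * w ^ 5 + 1)) / (u * w ^ 23) := by
      field_simp; ring
    rw [e, div_div, div_le_div_iff₀ (by positivity) (by positivity)]
    have h1 : 2 * D * w ^ 17 * u ≤ 2 * (w / 6) * w ^ 17 * u := by gcongr
    have h2 : s * (s * D) * (4 * w ^ 5 + 1) ≤ w / 6 * (w / 6) * (4 * w ^ 5 + w ^ 5) := by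
      gcongr; exact one_le_pow₀ hw1
    have h3 : w ^ 7 ≤ w ^ 18 * u :=
      (pw 7 18 (by norm_num)).trans (le_mul_of_one_le_right (by positivity) hu1)
    have h4 : 2 * D * w ^ 17 * u + s * (s * D) * (4 * w ^ 5 + 1) ≤ w ^ 18 * u / 2 := by
      have : 0 ≤ w ^ 18 * u := by positivity
      nlinarith
    have := mul_le_mul_of_nonneg_right h4 (show 0 ≤ w ^ 5 * 2 by positivity)
    nlinarith
  · have e : 132 * r ^ 2 * (1 / w ^ 5) * (s * s) ^ 2 * s = 132 * ((s * r) ^ 2 * s ^ 3) / w ^ 5 := by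
      ring
    have : (s * r) ^ 2 * s ^ 3 ≤ (w / 6) ^ 2 * (w / 6) ^ 3 := by gcongr
    rw [e, div_le_one w5]
    nlinarith
  · have e : 2 * (1 / w ^ 5) * (u * u * (s * s) * u) + D / (1 / w ^ 5 / 2) * (s * s * (u * u))
        + (D / (1 / (u * w ^ 23)) + D / (1 / w ^ 5 / 2) / (1 / (u * w ^ 12))) * (s * u)
        = u * u * (2 * (s * s) / w ^ 5 * u + 2 * (s * (s * D)) * w ^ 5 + s * D * w ^ 23
          + 2 * (s * D) * w ^ 17) := by
      field_simp; ring
    have h1 : 2 * (s * s) / w ^ 5 ≤ 1 / 18 := by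
      have : s * s ≤ w / 6 * (w / 6) := by gcongr
      rw [div_le_iff₀ w5]
      nlinarith [pw 2 5 (by norm_num)]
    have h2 : 2 * (s * (s * D)) * w ^ 5 ≤ 2 * (w / 6 * (w / 6)) * w ^ 5 := by gcongr
    have h3 : s * D * w ^ 23 ≤ w / 6 * w ^ 23 := by gcongr
    have h4 : 2 * (s * D) * w ^ 17 ≤ 2 * (w / 6) * w ^ 17 := by gcongr
    have h5 := mul_le_mul_of_nonneg_right h1 hu0.le
    rw [e, mul_div_assoc (u * u)]
    refine mul_le_mul_of_nonneg_left ?_ (mul_nonneg hu0.le hu0.le)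
    nlinarith [pw 7 24 (by norm_num), pw6 18 24 (by norm_num)]

theorem main (G : X → Y → Z → ℝ) (hG0 : ∀ x y z, 0 ≤ G x y z) (hG1 : ∀ x y z, G x y z ≤ 1)
    {p w : ℝ} (hp : 0 < p) (hp1 : p ≤ 1) (hmean : p ≤ 𝔼 x, 𝔼 y, 𝔼 z, G x y z) (s u : ℕ)
    (hs : 1 ≤ s) (hw : 6 * s ≤ w * p) (hu : w ^ 24 ≤ u) (S : Fin s → Finset (Fin s × Fin s))
    (hM : ∀ k, IsM (S k)) :
    ((p / 2) ^ (∑ k, (S k).card) / 3) ^ (u * u * u) ≤ K3 (tup G S) u := by
  have hs1 : (1 : ℝ) ≤ s := by exact_mod_cast hs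
  have hw0 : 0 < w := (mul_pos_iff_of_pos_right hp).1 (by linarith)
  have hsw : 6 * (s : ℝ) ≤ w := hw.trans (mul_le_of_le_one_right hw0.le hp1)
  have he : Real.exp (-Real.log p) = 1 / p := by rw [Real.exp_neg, Real.exp_log hp, one_div]
  have he' : Real.exp (- -Real.log p) = p := by rw [neg_neg, Real.exp_log hp]
  have hr : 6 * (s * (1 / p)) ≤ w := by rw [mul_one_div, ← mul_div_assoc, div_le_iff₀ hp]; exact hw
  have hD : -Real.log p ≤ 1 / p := by linarith [Real.add_one_le_exp (-Real.log p)]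
  have hu0 : (0 : ℝ) < u := lt_of_lt_of_le (by positivity) hu
  obtain ⟨n1, n2, n3, n4, n5, n6, n7, n8⟩ := numerics (D := -Real.log p) hs1 hsw
    (neg_nonneg.2 (Real.log_nonpos hp.le hp1)) (by nlinarith) (by positivity) hr hu
  have h := param G hG0 hG1 (D := -Real.log p) (by rw [he']; exact hmean) s u hs
    (by exact_mod_cast hu0) S hM (by positivity) n1 le_rfl (by positivity) n2 n3 n4 n5 n6
    (by rw [he]; exact n7)
  rw [he'] at h
  refine le_trans ?_ (le_trans (mul_le_mul_of_nonneg_left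
    (Real.exp_le_exp.2 (neg_le_neg n8)) (by positivity)) h)
  rw [show -((u : ℝ) * u * u / 3) = ((u * u * u : ℕ) : ℝ) * (-(1 / 3)) by push_cast; ring,
    Real.exp_nat_mul, ← mul_pow]
  refine pow_le_pow_left₀ (by positivity) ?_ _
  have h1 := Real.add_one_le_exp (-(1 / 3) : ℝ)
  have h2 : 0 ≤ (p / 2) ^ (∑ k, (S k).card) := by positivity
  nlinarith

end Pool.Agent.Work.MP_af588c_co.LB
end

-- merged part: Pool.Agent.Work.MP_af588c_co.LB.Fin
section
/-! Transfer to homomorphism counts. -/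

set_option linter.unusedSectionVars false

namespace Pool.Agent.Work.MP_af588c_co.LB

open Finset
open scoped BigOperators
open Pool.Agent.Work.MP_af588c_co.TB

variable {n : ℕ} [NeZero n]

lemma dens6 (E : Finset (Finset (Fin n))) (hE : ∀ e ∈ E, e.card = 3) :
    6 * ((E.card : ℝ) / (n : ℝ) ^ 3)
      ≤ 𝔼 x, 𝔼 y, 𝔼 z, ind (({x, y, z} : Finset (Fin n)) ∈ E) := by
  classical
  have h1 := exp_prod (fun r : Fin n × Fin n × Fin n =>
    ind (({r.1, r.2.1, r.2.2} : Finset (Fin n)) ∈ E))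
  conv_rhs at h1 => simp only [exp_prod]
  rw [← h1, exp_eq]
  simp only [Fintype.card_prod, Fintype.card_fin]
  have hn : (0 : ℝ) < n := by exact_mod_cast NeZero.pos n
  have e : ((n * (n * n) : ℕ) : ℝ) = (n : ℝ) ^ 3 := by push_cast; ring
  rw [e, ← mul_div_assoc]
  apply div_le_div_of_nonneg_right _ (by positivity)
  have h2 : 6 * E.card ≤ (Finset.univ.filter fun r : Fin n × Fin n × Fin n =>
      ({r.1, r.2.1, r.2.2} : Finset (Fin n)) ∈ E).card := by
    refine Finset.mul_card_image_le_card_of_maps_to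
      (f := fun r : Fin n × Fin n × Fin n => ({r.1, r.2.1, r.2.2} : Finset (Fin n)))
      (fun r hr => (Finset.mem_filter.1 hr).2) 6 fun e he => ?_
    obtain ⟨x, y, z, h1, h2, h3, rfl⟩ := Finset.card_eq_three.1 (hE e he)
    have h4 : ({(x, y, z), (x, z, y), (y, x, z), (y, z, x), (z, x, y), (z, y, x)} :
        Finset (Fin n × Fin n × Fin n)).card = 6 := by
      simp [Finset.card_insert_of_notMem, h1, h2, h3, h1.symm, h2.symm, h3.symm]
    rw [← h4]
    refine Finset.card_le_card fun r hr => ?_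
    have h5 : ({r.1, r.2.1, r.2.2} : Finset (Fin n)) = {x, y, z} := by
      simp only [Finset.mem_insert, Finset.mem_singleton] at hr
      rcases hr with rfl | rfl | rfl | rfl | rfl | rfl <;> ext w <;> simp <;> tauto
    simp only [Finset.mem_filter, Finset.mem_univ, true_and, h5, he]
  rw [Finset.card_filter] at h2
  have h3 : 6 * (E.card : ℝ) ≤ ∑ r : Fin n × Fin n × Fin n,
      if ({r.1, r.2.1, r.2.2} : Finset (Fin n)) ∈ E then (1 : ℝ) else 0 := by exact_mod_cast h2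
  refine h3.trans (le_of_eq (Finset.sum_congr rfl fun r _ => ?_))
  unfold ind; congr

theorem blowup (E : Finset (Finset (Fin n))) (hE : ∀ e ∈ E, e.card = 3) {p : ℝ} (hp : 0 < p)
    (hc : p = (E.card : ℝ) / (n : ℝ) ^ 3) (s u : ℕ) (T : Finset (Fin s × Fin s × Fin s))
    (hT : ∀ a ∈ T, ∀ b ∈ T, a.2.2 = b.2.2 → (a.1 = b.1 ∨ a.2.1 = b.2.1) → a = b)
    (hu : ((s : ℝ) / p) ^ 24 ≤ u) (W : Type) [Fintype W] [DecidableEq W] (H : Set (Finset W))
    (col : W → Fin 3) (lab : W → Fin s)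
    (hf : ∀ c i, (Finset.univ.filter fun w => col w = c ∧ lab w = i).card ≤ u)
    (hH : ∀ e ∈ H, ∃ x y z, e = {x, y, z} ∧ col x = 0 ∧ col y = 1 ∧ col z = 2 ∧
      (lab x, lab y, lab z) ∈ T) :
    p ^ (T.card * u ^ 3) * (n : ℝ) ^ Fintype.card W ≤ copies H E := by
  classical
  rw [copies_eq]
  refine mul_le_mul_of_nonneg_right ?_ (by positivity)
  rcases T.eq_empty_or_nonempty with rfl | hTne
  · have : ∀ φ : W → Fin n, ind (∀ e ∈ H, e.image φ ∈ E) = 1 := fun φ => ind_of fun e he => by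
      obtain ⟨x, y, z, -, -, -, -, h⟩ := hH e he
      exact absurd h (Finset.notMem_empty _)
    simp [this]
  have hs : 1 ≤ s := by obtain ⟨a, -⟩ := hTne; exact a.1.pos
  have hp6 : p ≤ 1 / 6 := hc ▸ dens_le E hE
  set S : Fin s → Finset (Fin s × Fin s) := fun k =>
    Finset.univ.filter fun e => (e.1, e.2, k) ∈ T with hS
  have hcard : ∑ k, (S k).card = T.card := by
    rw [Finset.card_eq_sum_card_fiberwise (f := fun a : Fin s × Fin s × Fin s => a.2.2)
      (t := Finset.univ) (fun _ _ => Finset.mem_univ _)]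
    refine Finset.sum_congr rfl fun k _ => ?_
    refine Finset.card_bij (fun e _ => (e.1, e.2, k)) (fun e he => by simpa [hS] using he)
      (fun e _ e' _ h => Prod.ext (Prod.mk.inj h).1 (Prod.mk.inj (Prod.mk.inj h).2).1)
      fun a ha => ?_
    obtain ⟨h1, rfl⟩ := Finset.mem_filter.1 ha
    exact ⟨(a.1, a.2.1), by simpa [hS] using h1, rfl⟩
  have h1 := main (fun x y z => ind (({x, y, z} : Finset (Fin n)) ∈ E)) (fun _ _ _ => ind_nonneg _)
    (fun _ _ _ => ind_le_one _) (p := 6 * p) (w := s / p) (by positivity) (by linarith)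
    (hc ▸ dens6 E hE) s u hs (le_of_eq (by field_simp)) hu S (fun k e he e' he' h => by
      have := hT _ (Finset.mem_filter.1 he).2 _ (Finset.mem_filter.1 he').2 rfl h
      exact Prod.ext (Prod.mk.inj this).1 (Prod.mk.inj (Prod.mk.inj this).2).1)
  rw [hcard] at h1
  have h2 : p ^ (T.card * u ^ 3) ≤ ((6 * p / 2) ^ T.card / 3) ^ (u * u * u) := by
    rw [pow_mul, show u ^ 3 = u * u * u by ring, show 6 * p / 2 = 3 * p by ring, mul_pow]
    refine pow_le_pow_left₀ (by positivity) ?_ _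
    have h3 : (3 : ℝ) ≤ 3 ^ T.card := le_self_pow₀ (by norm_num) hTne.card_pos.ne'
    have h4 : 0 < p ^ T.card := by positivity
    nlinarith
  refine h2.trans (h1.trans ?_)
  have hemb : ∀ c i, Nonempty ({w // col w = c ∧ lab w = i} ↪ Fin u) := fun c i =>
    Function.Embedding.nonempty_of_card_le (by
      rw [Fintype.card_subtype, Fintype.card_fin]; exact hf c i)
  let f := fun c i => Classical.choice (hemb c i)
  let ι : W → (Fin 3 × Fin u) × Fin s := fun w =>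
    ((col w, f (col w) (lab w) ⟨w, rfl, rfl⟩), lab w)
  have hval : ∀ w c i (h : col w = c) (h' : lab w = i), ι w = ((c, f c i ⟨w, h, h'⟩), i) := by
    intro w c i h h'; subst h h'; rfl
  have hι : Function.Injective ι := by
    intro w w' h
    have h1 : col w' = col w := (congrArg (fun a => a.1.1) h).symm
    have h2 : lab w' = lab w := (congrArg Prod.snd h).symm
    rw [hval w' _ _ h1 h2, hval w _ _ rfl rfl] at h
    exact congrArg Subtype.val ((f (col w) (lab w)).injective (congrArg (fun a => a.1.2) h))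
  rw [← exp_comp_inj ι hι, Fintype.expect_equiv (Equiv.curry (Fin 3 × Fin u) (Fin s) (Fin n))
    (fun ψ => ind (∀ e ∈ H, e.image (ψ ∘ ι) ∈ E))
    (fun ψ => ind (∀ e ∈ H, e.image (Function.uncurry ψ ∘ ι) ∈ E)) (fun _ => rfl), exp_mk3]
  refine exp_mono fun x => exp_mono fun y => ?_
  unfold F
  rw [exp_pow]
  refine exp_mono fun z => le_ind ?_ fun h0 e he => ?_
  · refine Finset.prod_le_one (fun c _ => pe_nonneg (fun _ _ => tup_nonneg
      (fun _ _ _ => ind_nonneg _) _ _ _ _) _ _ _) fun c _ => ?_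
    refine Finset.prod_le_one (fun _ _ => tup_nonneg (fun _ _ _ => ind_nonneg _) _ _ _ _)
      fun _ _ => ?_
    refine Finset.prod_le_one (fun _ _ => pe_nonneg (fun _ _ => ind_nonneg _) _ _ _) fun _ _ => ?_
    exact Finset.prod_le_one (fun _ _ => ind_nonneg _) fun _ _ => ind_le_one _
  · obtain ⟨a, b, c, rfl, ha, hb, hc', hm⟩ := hH e he
    simp only [Finset.image_insert, Finset.image_singleton, Function.comp_apply,
      hval a _ _ ha rfl, hval b _ _ hb rfl, hval c _ _ hc' rfl]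
    have k1 := Finset.prod_ne_zero_iff.1 h0 (f 2 _ ⟨c, hc', rfl⟩) (Finset.mem_univ _)
    have k2 := Finset.prod_ne_zero_iff.1 k1 (f 0 _ ⟨a, ha, rfl⟩, f 1 _ ⟨b, hb, rfl⟩)
      (Finset.mem_univ _)
    have k3 := Finset.prod_ne_zero_iff.1 k2 (lab c) (Finset.mem_univ _)
    have k4 := Finset.prod_ne_zero_iff.1 k3 (lab a, lab b) (by simpa [hS] using hm)
    exact of_ind_ne k4

end Pool.Agent.Work.MP_af588c_co.LB
end

-- merged part: Pool.Agent.Work.MP_af588c_co.GB.Tri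
section
/-! Tripartite patterns with triple factors: resampling and upper bounds. -/

set_option linter.unusedSectionVars false

namespace Pool.Agent.Work.MP_af588c_co.GB

open Finset
open scoped BigOperators
open Pool.Agent.Work.MP_af588c_co.TB Pool.Agent.Work.MP_af588c_co.LB

variable {X Y Z : Type*} [Fintype X] [Fintype Y] [Fintype Z] [Nonempty X] [Nonempty Y] [Nonempty Z]
variable {ι κ ρ : Type*} [Fintype ι] [Fintype κ] [Fintype ρ] [DecidableEq ι] [DecidableEq κ]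
  [DecidableEq ρ]

def Two {α : Type*} (f : α → ℝ) (Λ : ℝ) : Prop := ∃ l, 0 < l ∧ l ≤ Λ ∧ ∀ x, f x = 0 ∨ f x = l

lemma Two.mul {α : Type*} {f f' : α → ℝ} {Λ Λ' : ℝ} (h : Two f Λ) (h' : Two f' Λ') :
    Two (fun x => f x * f' x) (Λ * Λ') := by
  obtain ⟨l, h0, h1, h2⟩ := h
  obtain ⟨l', h0', h1', h2'⟩ := h'
  refine ⟨l * l', mul_pos h0 h0', mul_le_mul h1 h1' h0'.le (h0.le.trans h1), fun x => ?_⟩
  rcases h2 x with h3 | h3 <;> rcases h2' x with h4 | h4 <;> simp [h3, h4]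

lemma Two.prod {α β δ : Type*} {h : δ → ℝ} {Λ : ℝ} (hh : Two h Λ) (hΛ : 1 ≤ Λ) (s : Finset β)
    {m : ℕ} (hm : s.card ≤ m) (φ : β → α → δ) : Two (fun x => ∏ e ∈ s, h (φ e x)) (Λ ^ m) := by
  obtain ⟨l, h0, h1, h2⟩ := hh
  exact ⟨l ^ s.card, pow_pos h0 _, (pow_le_pow_left₀ h0.le h1 _).trans (pow_le_pow_right₀ hΛ hm),
    fun x => prod_two _ _ fun e => h2 _⟩

lemma Two.bd {α : Type*} {f : α → ℝ} {Λ : ℝ} (h : Two f Λ) (x : α) : 0 ≤ f x ∧ f x ≤ Λ := by
  obtain ⟨l, h0, h1, h2⟩ := h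
  rcases h2 x with h3 | h3 <;> rw [h3] <;> constructor <;> linarith

structure Sp (a : X → Y → ℝ) (P θ : ℝ) (n : ℕ) : Prop where
  P1 : 1 ≤ P
  θ0 : 0 ≤ θ
  two : Two (fun r : X × Y => a r.1 r.2) P
  sp : ∀ (u : X → ℝ) (v : Y → ℝ), (∀ x, 0 ≤ u x ∧ u x ≤ P ^ n) → (∀ y, 0 ≤ v y ∧ v y ≤ P ^ n) →
    𝔼 x, 𝔼 y, u x * v y * a x y ≤ (1 + θ) * ((𝔼 x, u x) * 𝔼 y, v y) + θ

variable {a : X → Y → ℝ} {b : X → Z → ℝ} {c : Y → Z → ℝ} {g : X → Y → Z → ℝ} {P R θ : ℝ} {n m : ℕ}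

lemma Sp.bd (h : Sp a P θ n) (x : X) (y : Y) : 0 ≤ a x y ∧ a x y ≤ P := h.two.bd (x, y)

noncomputable def pt (g : X → Y → Z → ℝ) (S : Finset (ι × κ × ρ)) (x : ι → X) (y : κ → Y)
    (z : ρ → Z) : ℝ := ∏ e ∈ S, g (x e.1) (y e.2.1) (z e.2.2)

noncomputable def N (a : X → Y → ℝ) (b : X → Z → ℝ) (c : Y → Z → ℝ) (g : X → Y → Z → ℝ)
    (J1 : Finset (ι × κ)) (J2 : Finset (ι × ρ)) (J3 : Finset (κ × ρ)) (S : Finset (ι × κ × ρ)) :
    ℝ := 𝔼 x, 𝔼 y, 𝔼 z, pe a J1 x y * pe b J2 x z * pe c J3 y z * pt g S x y z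

lemma dec1 (h : X → Y → ℝ) (J : Finset (ι × κ)) (i : ι) (x : ι → X) (y : κ → Y) (x0 : X) :
    pe h J (Function.update x i x0) y = (∏ e ∈ J.filter (fun e => e.1 = i), h x0 (y e.2))
      * pe h (J.filter fun e => e.1 ≠ i) x y := by
  unfold pe
  rw [Finset.prod_filter, Finset.prod_filter, ← Finset.prod_mul_distrib]
  refine Finset.prod_congr rfl fun e _ => ?_
  by_cases h1 : e.1 = i
  · simp [h1]
  · simp [h1]

lemma row_card1 (J : Finset (ι × κ)) (i : ι) :
    (J.filter (fun e => e.1 = i)).card ≤ Fintype.card κ := by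
  refine Finset.card_le_card_of_injOn (t := Finset.univ) (fun e => e.2) (fun _ _ => by simp) ?_
  intro e he e' he' h
  exact Prod.ext ((Finset.mem_filter.1 he).2.trans (Finset.mem_filter.1 he').2.symm) h

lemma comm3 {A B C : Type*} [Fintype A] [Fintype B] [Fintype C] (f : A → B → C → ℝ) :
    𝔼 x, 𝔼 y, 𝔼 z, f x y z = 𝔼 z, 𝔼 x, 𝔼 y, f x y z := by
  rw [Finset.expect_comm (Finset.univ : Finset C)]
  exact Finset.expect_congr rfl fun x _ => Finset.expect_comm _ _ _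

lemma resXY (F : (ι → X) → (κ → Y) → Z → ℝ) (i : ι) (j : κ) :
    𝔼 x, 𝔼 y, 𝔼 z, F x y z = 𝔼 x : ι → X, 𝔼 y : κ → Y, 𝔼 z, 𝔼 x0 : X, 𝔼 y0 : Y,
      F (Function.update x i x0) (Function.update y j y0) z := by
  rw [resample2 _ i j]
  exact Finset.expect_congr rfl fun x _ => Finset.expect_congr rfl fun y _ => comm3 _

lemma pure_step (h : Sp a P θ n) (hb : ∀ x z, 0 ≤ b x z ∧ b x z ≤ P)
    (hc : ∀ y z, 0 ≤ c y z ∧ c y z ≤ P) (h1 : Fintype.card κ + Fintype.card ρ ≤ n)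
    (h2 : Fintype.card ι + Fintype.card ρ ≤ n) {J1 : Finset (ι × κ)} (J2 : Finset (ι × ρ))
    (J3 : Finset (κ × ρ)) {i : ι} {j : κ} (hJ : (i, j) ∉ J1) :
    N a b c g (insert (i, j) J1) J2 J3 ∅ ≤ (1 + θ) * N a b c g J1 J2 J3 ∅
      + θ * N a b c g (rst J1 i j) (J2.filter fun e => e.1 ≠ i) (J3.filter fun e => e.1 ≠ j) ∅ := by
  unfold N
  rw [resXY _ i j, resXY (fun x y z => pe a J1 x y * _ * _ * _) i j]
  simp only [Finset.mul_expect (s := (Finset.univ : Finset (ι → X))),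
    Finset.mul_expect (s := (Finset.univ : Finset (κ → Y))),
    Finset.mul_expect (s := (Finset.univ : Finset (ρ → Z))), ← Finset.expect_add_distrib]
  refine exp_mono fun x => exp_mono fun y => exp_mono fun z => ?_
  have hU : ∀ x0, 0 ≤ rowp a J1 i j y x0 * ∏ e ∈ J2.filter (fun e => e.1 = i), b x0 (z e.2) ∧
      rowp a J1 i j y x0 * ∏ e ∈ J2.filter (fun e => e.1 = i), b x0 (z e.2) ≤ P ^ n := fun x0 => by
    have k1 := prod_bd _ (fun e : ι × κ => a x0 (y e.2)) h.P1 (row_card J1 i j)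
      (fun _ => (h.bd _ _).1) fun _ => (h.bd _ _).2
    have k2 := prod_bd _ (fun e : ι × ρ => b x0 (z e.2)) h.P1 (row_card1 J2 i)
      (fun _ => (hb _ _).1) fun _ => (hb _ _).2
    exact ⟨mul_nonneg k1.1 k2.1, (mul_le_mul k1.2 k2.2 k2.1 (k1.1.trans k1.2)).trans
      (by rw [← pow_add]; exact pow_le_pow_right₀ h.P1 h1)⟩
  have hV : ∀ y0, 0 ≤ colp a J1 i j x y0 * ∏ e ∈ J3.filter (fun e => e.1 = j), c y0 (z e.2) ∧
      colp a J1 i j x y0 * ∏ e ∈ J3.filter (fun e => e.1 = j), c y0 (z e.2) ≤ P ^ n := fun y0 => by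
    have k1 := prod_bd _ (fun e : ι × κ => a (x e.1) y0) h.P1 (col_card J1 i j)
      (fun _ => (h.bd _ _).1) fun _ => (h.bd _ _).2
    have k2 := prod_bd _ (fun e : κ × ρ => c y0 (z e.2)) h.P1 (row_card1 J3 j)
      (fun _ => (hc _ _).1) fun _ => (hc _ _).2
    exact ⟨mul_nonneg k1.1 k2.1, (mul_le_mul k1.2 k2.2 k2.1 (k1.1.trans k1.2)).trans
      (by rw [← pow_add]; exact pow_le_pow_right₀ h.P1 h2)⟩
  have hW : 0 ≤ pe a (rst J1 i j) x y * pe b (J2.filter fun e => e.1 ≠ i) x z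
      * pe c (J3.filter fun e => e.1 ≠ j) y z :=
    mul_nonneg (mul_nonneg (pe_nonneg (fun _ _ => (h.bd _ _).1) _ _ _)
      (pe_nonneg (fun _ _ => (hb _ _).1) _ _ _)) (pe_nonneg (fun _ _ => (hc _ _).1) _ _ _)
  have h3 := mul_le_mul_of_nonneg_left (h.sp _ _ hU hV) hW
  rw [Finset.expect_mul_expect, mul_add, mul_left_comm, mul_comm _ θ] at h3
  simp only [pe_ins a hJ, dec a hJ, dec1 b J2 i, dec1 c J3 j, Function.update_self, pt,
    Finset.prod_empty, mul_one]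
  simp only [Finset.mul_expect] at h3 ⊢
  refine le_of_eq_of_le ?_ (h3.trans (le_of_eq ?_))
  · exact Finset.expect_congr rfl fun _ _ => Finset.expect_congr rfl fun _ _ => by ring
  · congr 1
    exact Finset.expect_congr rfl fun _ _ => Finset.expect_congr rfl fun _ _ => by ring

lemma pure_of (h : Sp a P θ n) (hb : ∀ x z, 0 ≤ b x z ∧ b x z ≤ P)
    (hc : ∀ y z, 0 ≤ c y z ∧ c y z ≤ P) (h1 : Fintype.card κ + Fintype.card ρ ≤ n)
    (h2 : Fintype.card ι + Fintype.card ρ ≤ n) {B : ℝ} (hB0 : 0 ≤ B)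
    (hB : ∀ (J2 : Finset (ι × ρ)) (J3 : Finset (κ × ρ)), N a b c g ∅ J2 J3 ∅ ≤ B) (k : ℕ) :
    ∀ J1 : Finset (ι × κ), J1.card ≤ k → ∀ (J2 : Finset (ι × ρ)) (J3 : Finset (κ × ρ)),
      N a b c g J1 J2 J3 ∅ ≤ (1 + 2 * θ) ^ k * B := by
  have hθ := h.θ0
  induction k with
  | zero => intro J hJ J2 J3; rw [Finset.card_eq_zero.1 (Nat.le_zero.1 hJ)]; simpa using hB J2 J3
  | succ k ih =>
    intro J hJ J2 J3
    rcases J.eq_empty_or_nonempty with rfl | ⟨⟨i, j⟩, he⟩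
    · exact (hB J2 J3).trans (le_mul_of_one_le_left hB0 (one_le_pow₀ (by linarith)))
    · have h3 := pure_step (g := g) h hb hc h1 h2 J2 J3 (Finset.notMem_erase (i, j) J)
      rw [Finset.insert_erase he] at h3
      have h4 : (J.erase (i, j)).card ≤ k := by rw [Finset.card_erase_of_mem he]; omega
      have h5 := ih _ h4 J2 J3
      have h6 := ih _ ((Finset.card_le_card (rst_sub (J.erase (i, j)) i j)).trans h4)
        (J2.filter fun e => e.1 ≠ i) (J3.filter fun e => e.1 ≠ j)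
      rw [pow_succ]
      nlinarith

/-- bipartite patterns -/
lemma Sp.t_le (h : Sp a P θ n) (hι : Fintype.card ι ≤ n) (hκ : Fintype.card κ ≤ n) (k : ℕ)
    (J : Finset (ι × κ)) (hJ : J.card ≤ k) : T a J (fun _ _ => 1) ≤ (1 + 2 * θ) ^ k := by
  have e : ∀ (J : Finset (ι × κ)) (J2 : Finset (ι × Empty)) (J3 : Finset (κ × Empty)),
      N (Z := Unit) a (fun _ _ => 1) (fun _ _ => 1) (fun _ _ _ => 1) J J2 J3 ∅
        = T a J (fun _ _ => 1) := fun J J2 J3 => by simp [N, T, pe, pt]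
  have := pure_of (Z := Unit) (ρ := Empty) (g := fun _ _ _ => 1) h
    (fun _ _ => ⟨zero_le_one, h.P1⟩) (fun _ _ => ⟨zero_le_one, h.P1⟩) (by simpa using hκ)
    (by simpa using hι) zero_le_one (fun J2 J3 => by rw [e]; simp [T, pe]) k J hJ ∅ ∅
  rwa [e, mul_one] at this

lemma pure_le (ha : Sp a P θ n) (hb : Sp b P θ n) (hc : Sp c P θ n)
    (h1 : Fintype.card κ + Fintype.card ρ ≤ n) (h2 : Fintype.card ι + Fintype.card ρ ≤ n)
    (h3 : Fintype.card ι + Fintype.card κ ≤ n) (m1 : Fintype.card (ι × κ) ≤ m)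
    (m2 : Fintype.card (ι × ρ) ≤ m) (m3 : Fintype.card (κ × ρ) ≤ m) (J1 : Finset (ι × κ))
    (J2 : Finset (ι × ρ)) (J3 : Finset (κ × ρ)) :
    N a b c g J1 J2 J3 ∅ ≤ (1 + 2 * θ) ^ (3 * m) := by
  have hθ := ha.θ0
  have e1 : ∀ (J2 : Finset (ι × ρ)) (J3 : Finset (κ × ρ)), N a b c g (∅ : Finset (ι × κ)) J2 J3 ∅
      = N b (fun _ _ => 1) (fun z y => c y z) (fun _ _ _ => 1) J2 (∅ : Finset (ι × κ))
        (J3.map (Equiv.prodComm κ ρ).toEmbedding) ∅ := fun J2 J3 => by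
    unfold N
    refine Finset.expect_congr rfl fun x _ => ?_
    rw [Finset.expect_comm]
    simp [pe, pt]
  have e2 : ∀ (J1 : Finset (ι × κ)) (J3 : Finset (ρ × κ)),
      N b (fun _ _ => 1) (fun z y => c y z) (fun _ _ _ => 1) (∅ : Finset (ι × ρ)) J1 J3 ∅
      = T c (J3.map (Equiv.prodComm ρ κ).toEmbedding) (fun _ _ => 1) := fun J1 J3 => by
    unfold N T
    simp only [pe, pt, Finset.prod_empty, Finset.prod_const_one, one_mul, mul_one,
      Fintype.expect_const, Finset.prod_map]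
    rw [Finset.expect_comm]
    simp
  have k1 := pure_of (ι := ι) (κ := ρ) (ρ := κ) (g := fun _ _ _ => 1) (b := fun (_ : X) (_ : Y) => (1 : ℝ))
    (c := fun z y => c y z) hb (fun _ _ => ⟨zero_le_one, ha.P1⟩) (fun z y => hc.bd y z)
    (by omega) h3 (B := (1 + 2 * θ) ^ m) (by positivity) (fun J1 J3 => by
      rw [e2]
      exact hc.t_le (by omega) (by omega) m _ ((Finset.card_le_univ _).trans m3)) m
  have k2 := pure_of (g := g) ha hb.bd hc.bd h1 h2 (B := (1 + 2 * θ) ^ m * (1 + 2 * θ) ^ m)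
    (by positivity) (fun J2 J3 => by
      rw [e1]
      exact k1 _ ((Finset.card_le_univ _).trans m2) _ _) m J1 ((Finset.card_le_univ _).trans m1)
      J2 J3
  refine k2.trans (le_of_eq ?_)
  ring

end Pool.Agent.Work.MP_af588c_co.GB
end

-- merged part: Pool.Agent.Work.MP_af588c_co.GB.Ups
section
/-! Upper bounds for patterns with triple factors and the downward induction. -/

set_option linter.unusedSectionVars false

namespace Pool.Agent.Work.MP_af588c_co.GB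

open Finset
open scoped BigOperators
open Pool.Agent.Work.MP_af588c_co.TB Pool.Agent.Work.MP_af588c_co.LB

variable {X Y Z : Type*} [Fintype X] [Fintype Y] [Fintype Z] [Nonempty X] [Nonempty Y] [Nonempty Z]
variable {ι κ ρ : Type*} [Fintype ι] [Fintype κ] [Fintype ρ] [DecidableEq ι] [DecidableEq κ]
  [DecidableEq ρ]

structure Reg3 (a : X → Y → ℝ) (b : X → Z → ℝ) (c : Y → Z → ℝ) (g : X → Y → Z → ℝ) (P R θ : ℝ)
    (n m : ℕ) : Prop where
  ha : Sp a P θ n
  hb : Sp b P θ n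
  hc : Sp c P θ n
  R1 : 1 ≤ R
  two : Two (fun r : X × Y × Z => g r.1 r.2.1 r.2.2) R
  one : 1 ≤ 𝔼 x, 𝔼 y, 𝔼 z, a x y * b x z * c y z * g x y z
  up : ∀ (U : X → ℝ) (V : Y → ℝ) (W : Z → ℝ) (w1 : X × Y → ℝ) (w2 : X × Z → ℝ) (w3 : Y × Z → ℝ),
    Two U (P ^ m * P ^ m * R ^ m) → Two V (P ^ m * P ^ m * R ^ m) →
    Two W (P ^ m * P ^ m * R ^ m) → Two w1 (R ^ m) → Two w2 (R ^ m) → Two w3 (R ^ m) →
    𝔼 x, 𝔼 y, 𝔼 z, U x * V y * W z * (w1 (x, y) * w2 (x, z) * w3 (y, z))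
        * (a x y * b x z * c y z) * g x y z
      ≤ (1 + θ) * (𝔼 x, 𝔼 y, 𝔼 z, U x * V y * W z * (w1 (x, y) * w2 (x, z) * w3 (y, z))
        * (a x y * b x z * c y z)) + θ * (𝔼 x, 𝔼 y, 𝔼 z, U x * V y * W z) + θ

variable {a : X → Y → ℝ} {b : X → Z → ℝ} {c : Y → Z → ℝ} {g : X → Y → Z → ℝ} {P R θ : ℝ} {n m : ℕ}

def fl (S : Finset (ι × κ × ρ)) (i : ι) (j : κ) (k : ρ) (p q r : Bool) : Finset (ι × κ × ρ) :=
  S.filter fun e => decide (e.1 = i) = p ∧ decide (e.2.1 = j) = q ∧ decide (e.2.2 = k) = r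

def le1 (S : Finset (ι × κ × ρ)) (i : ι) (j : κ) (k : ρ) : Finset (ι × κ × ρ) :=
  S.filter fun e => ¬(e.1 = i ∧ e.2.1 = j) ∧ ¬(e.1 = i ∧ e.2.2 = k) ∧ ¬(e.2.1 = j ∧ e.2.2 = k)

lemma dec_le1 (g : X → Y → Z → ℝ) (S : Finset (ι × κ × ρ)) (i : ι) (j : κ) (k : ρ) (x : ι → X)
    (y : κ → Y) (z : ρ → Z) (x0 : X) (y0 : Y) (z0 : Z) :
    pt g (le1 S i j k) (Function.update x i x0) (Function.update y j y0) (Function.update z k z0)
      = (∏ e ∈ fl S i j k true false false, g x0 (y e.2.1) (z e.2.2))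
        * (∏ e ∈ fl S i j k false true false, g (x e.1) y0 (z e.2.2))
        * (∏ e ∈ fl S i j k false false true, g (x e.1) (y e.2.1) z0)
        * pt g (fl S i j k false false false) x y z := by
  unfold pt fl le1
  simp only [Finset.prod_filter, ← Finset.prod_mul_distrib]
  refine Finset.prod_congr rfl fun e _ => ?_
  by_cases h1 : e.1 = i <;> by_cases h2 : e.2.1 = j <;> by_cases h3 : e.2.2 = k <;>
    simp [h1, h2, h3]

lemma dec3 (g : X → Y → Z → ℝ) {S : Finset (ι × κ × ρ)} {i : ι} {j : κ} {k : ρ}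
    (hS : (i, j, k) ∉ S) (x : ι → X) (y : κ → Y) (z : ρ → Z) (x0 : X) (y0 : Y) (z0 : Z) :
    pt g S (Function.update x i x0) (Function.update y j y0) (Function.update z k z0)
      = (∏ e ∈ fl S i j k true true false, g x0 y0 (z e.2.2))
        * (∏ e ∈ fl S i j k true false true, g x0 (y e.2.1) z0)
        * (∏ e ∈ fl S i j k false true true, g (x e.1) y0 z0)
        * pt g (le1 S i j k) (Function.update x i x0) (Function.update y j y0)
          (Function.update z k z0) := by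
  unfold pt fl le1
  simp only [Finset.prod_filter, ← Finset.prod_mul_distrib]
  refine Finset.prod_congr rfl fun e he => ?_
  by_cases h1 : e.1 = i <;> by_cases h2 : e.2.1 = j <;> by_cases h3 : e.2.2 = k
  · exact absurd (by rw [← h1, ← h2, ← h3]; exact he) hS
  all_goals simp [h1, h2, h3]

lemma res3 (F : (ι → X) → (κ → Y) → (ρ → Z) → ℝ) (i : ι) (j : κ) (k : ρ) :
    𝔼 x, 𝔼 y, 𝔼 z, F x y z = 𝔼 x : ι → X, 𝔼 y : κ → Y, 𝔼 z : ρ → Z, 𝔼 x0 : X, 𝔼 y0 : Y,
      𝔼 z0 : Z, F (Function.update x i x0) (Function.update y j y0) (Function.update z k z0) := by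
  rw [resample2 _ i j]
  refine Finset.expect_congr rfl fun x _ => Finset.expect_congr rfl fun y _ => ?_
  rw [← comm3 fun x0 y0 (z : ρ → Z) => 𝔼 z0 : Z,
    F (Function.update x i x0) (Function.update y j y0) (Function.update z k z0)]
  exact Finset.expect_congr rfl fun x0 _ => Finset.expect_congr rfl fun y0 _ => resample _ k

lemma Reg3.g0 (h : Reg3 a b c g P R θ n m) (x : X) (y : Y) (z : Z) : 0 ≤ g x y z :=
  (h.two.bd (x, y, z)).1

/-- index sizes and smallness -/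
structure Sm3 (ι κ ρ : Type*) [Fintype ι] [Fintype κ] [Fintype ρ] (θ : ℝ) (n m : ℕ) : Prop where
  h1 : Fintype.card κ + Fintype.card ρ ≤ n
  h2 : Fintype.card ι + Fintype.card ρ ≤ n
  h3 : Fintype.card ι + Fintype.card κ ≤ n
  m1 : Fintype.card (ι × κ) ≤ m
  m2 : Fintype.card (ι × ρ) ≤ m
  m3 : Fintype.card (κ × ρ) ≤ m
  m4 : Fintype.card (ι × κ × ρ) ≤ m
  sm : 24 * θ * m ≤ 1

lemma Reg3.up_step (h : Reg3 a b c g P R θ n m) (s : Sm3 ι κ ρ θ n m) {J1 : Finset (ι × κ)}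
    {J2 : Finset (ι × ρ)} {J3 : Finset (κ × ρ)} {S : Finset (ι × κ × ρ)} {i : ι} {j : κ} {k : ρ}
    (h1 : (i, j) ∉ J1) (h2 : (i, k) ∉ J2) (h3 : (j, k) ∉ J3) (hS : (i, j, k) ∉ S) :
    N a b c g (insert (i, j) J1) (insert (i, k) J2) (insert (j, k) J3) (insert (i, j, k) S)
      ≤ (1 + θ) * N a b c g (insert (i, j) J1) (insert (i, k) J2) (insert (j, k) J3) S
        + θ * N a b c g J1 J2 J3 (le1 S i j k)
        + θ * N a b c g (rst J1 i j) (rst J2 i k) (rst J3 j k) (fl S i j k false false false) := by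
  unfold N
  rw [res3 _ i j k, res3 (fun x y z => _ * _ * _ * pt g S x y z) i j k,
    res3 (fun x y z => _ * _ * _ * pt g (le1 S i j k) x y z) i j k]
  simp only [Finset.mul_expect (s := (Finset.univ : Finset (ι → X))),
    Finset.mul_expect (s := (Finset.univ : Finset (κ → Y))),
    Finset.mul_expect (s := (Finset.univ : Finset (ρ → Z))), ← Finset.expect_add_distrib]
  refine exp_mono fun x => exp_mono fun y => exp_mono fun z => ?_
  have c1 : ∀ J : Finset (ι × κ), J.card ≤ m := fun J => (Finset.card_le_univ J).trans s.m1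
  have c2 : ∀ J : Finset (ι × ρ), J.card ≤ m := fun J => (Finset.card_le_univ J).trans s.m2
  have c3 : ∀ J : Finset (κ × ρ), J.card ≤ m := fun J => (Finset.card_le_univ J).trans s.m3
  have c4 : ∀ J : Finset (ι × κ × ρ), J.card ≤ m := fun J => (Finset.card_le_univ J).trans s.m4
  have P1 := h.ha.P1
  have k1 := h.up
    (fun x0 => rowp a J1 i j y x0 * rowp b J2 i k z x0
      * ∏ e ∈ fl S i j k true false false, g x0 (y e.2.1) (z e.2.2))
    (fun y0 => colp a J1 i j x y0 * rowp c J3 j k z y0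
      * ∏ e ∈ fl S i j k false true false, g (x e.1) y0 (z e.2.2))
    (fun z0 => colp b J2 i k x z0 * colp c J3 j k y z0
      * ∏ e ∈ fl S i j k false false true, g (x e.1) (y e.2.1) z0)
    (fun r => ∏ e ∈ fl S i j k true true false, g r.1 r.2 (z e.2.2))
    (fun r => ∏ e ∈ fl S i j k true false true, g r.1 (y e.2.1) r.2)
    (fun r => ∏ e ∈ fl S i j k false true true, g (x e.1) r.1 r.2)
    (((h.ha.two.prod P1 _ (c1 _) fun e x0 => (x0, y e.2)).mul
      (h.hb.two.prod P1 _ (c2 _) fun e x0 => (x0, z e.2))).mul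
      (h.two.prod h.R1 _ (c4 _) fun e x0 => (x0, y e.2.1, z e.2.2)))
    (((h.ha.two.prod P1 _ (c1 _) fun e y0 => (x e.1, y0)).mul
      (h.hc.two.prod P1 _ (c3 _) fun e y0 => (y0, z e.2))).mul
      (h.two.prod h.R1 _ (c4 _) fun e y0 => (x e.1, y0, z e.2.2)))
    (((h.hb.two.prod P1 _ (c2 _) fun e z0 => (x e.1, z0)).mul
      (h.hc.two.prod P1 _ (c3 _) fun e z0 => (y e.1, z0))).mul
      (h.two.prod h.R1 _ (c4 _) fun e z0 => (x e.1, y e.2.1, z0)))
    (h.two.prod h.R1 _ (c4 _) fun e (r : X × Y) => (r.1, r.2, z e.2.2))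
    (h.two.prod h.R1 _ (c4 _) fun e (r : X × Z) => (r.1, y e.2.1, r.2))
    (h.two.prod h.R1 _ (c4 _) fun e (r : Y × Z) => (x e.1, r.1, r.2))
  have hW : 0 ≤ pe a (rst J1 i j) x y * pe b (rst J2 i k) x z * pe c (rst J3 j k) y z
      * pt g (fl S i j k false false false) x y z :=
    mul_nonneg (mul_nonneg (mul_nonneg (pe_nonneg (fun _ _ => (h.ha.bd _ _).1) _ _ _)
      (pe_nonneg (fun _ _ => (h.hb.bd _ _).1) _ _ _))
      (pe_nonneg (fun _ _ => (h.hc.bd _ _).1) _ _ _)) (Finset.prod_nonneg fun _ _ => h.g0 _ _ _)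
  have k2 := mul_le_mul_of_nonneg_left k1 hW
  rw [mul_add, mul_add, mul_left_comm, mul_left_comm _ θ, mul_comm _ θ] at k2
  have e1 : ∀ x y z, pt g (insert (i, j, k) S) x y z = g (x i) (y j) (z k) * pt g S x y z :=
    fun x y z => Finset.prod_insert hS
  simp only [e1, pe_ins a h1, pe_ins b h2, pe_ins c h3, dec a h1, dec b h2, dec c h3, dec3 g hS,
    dec_le1, Function.update_self]
  simp only [Finset.mul_expect] at k2 ⊢
  refine le_of_eq_of_le ?_ (k2.trans (le_of_eq ?_))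
  · exact Finset.expect_congr rfl fun _ _ => Finset.expect_congr rfl fun _ _ =>
      Finset.expect_congr rfl fun _ _ => by ring
  · congr 2 <;> exact Finset.expect_congr rfl fun _ _ => Finset.expect_congr rfl fun _ _ =>
      Finset.expect_congr rfl fun _ _ => by ring

lemma pow_small {θ : ℝ} (hθ : 0 ≤ θ) {k : ℕ} (h : 2 * θ * k ≤ 1) :
    (1 + 2 * θ) ^ k ≤ 1 + 4 * θ * k := by
  have h1 : (1 + 2 * θ) ^ k ≤ Real.exp (k * (2 * θ)) := by
    rw [Real.exp_nat_mul]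
    exact pow_le_pow_left₀ (by linarith) (by linarith [Real.add_one_le_exp (2 * θ)]) k
  have h0 : 0 ≤ (k : ℝ) * (2 * θ) := by positivity
  have h2 := Real.abs_exp_sub_one_le (x := k * (2 * θ)) (by rw [abs_of_nonneg h0]; linarith)
  rw [abs_of_nonneg h0] at h2
  linarith [le_abs_self (Real.exp (k * (2 * θ)) - 1)]

lemma Reg3.pure (h : Reg3 a b c g P R θ n m) (s : Sm3 ι κ ρ θ n m) (J1 : Finset (ι × κ))
    (J2 : Finset (ι × ρ)) (J3 : Finset (κ × ρ)) : N a b c g J1 J2 J3 ∅ ≤ 3 / 2 := by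
  have h1 := pure_le (g := g) h.ha h.hb h.hc s.h1 s.h2 s.h3 s.m1 s.m2 s.m3 J1 J2 J3
  have h2 := pow_small h.ha.θ0 (k := 3 * m) (by push_cast; nlinarith [s.sm, h.ha.θ0])
  push_cast at h2
  linarith [s.sm]

def Tri (J1 : Finset (ι × κ)) (J2 : Finset (ι × ρ)) (J3 : Finset (κ × ρ))
    (S : Finset (ι × κ × ρ)) : Prop :=
  ∀ e ∈ S, (e.1, e.2.1) ∈ J1 ∧ (e.1, e.2.2) ∈ J2 ∧ (e.2.1, e.2.2) ∈ J3

lemma Reg3.up_le (h : Reg3 a b c g P R θ n m) (s : Sm3 ι κ ρ θ n m) (l : ℕ) (hl : l ≤ m) :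
    ∀ (S : Finset (ι × κ × ρ)), S.card ≤ l → ∀ J1 J2 J3, Tri J1 J2 J3 S →
      N a b c g J1 J2 J3 S ≤ 3 / 2 + 6 * θ * l := by
  have hθ := h.ha.θ0
  induction l with
  | zero =>
    intro S hS J1 J2 J3 _
    rw [Finset.card_eq_zero.1 (Nat.le_zero.1 hS)]
    simpa using h.pure s J1 J2 J3
  | succ l ih =>
    intro S hS J1 J2 J3 hT
    push_cast
    rcases S.eq_empty_or_nonempty with rfl | ⟨⟨i, j, k⟩, he⟩
    · have : 0 ≤ 6 * θ * (l + 1) := by positivity
      linarith [h.pure s J1 J2 J3]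
    obtain ⟨m1, m2, m3⟩ := hT _ he
    have k1 := h.up_step s (Finset.notMem_erase (i, j) J1) (Finset.notMem_erase (i, k) J2)
      (Finset.notMem_erase (j, k) J3) (Finset.notMem_erase (i, j, k) S)
    rw [Finset.insert_erase he, Finset.insert_erase m1, Finset.insert_erase m2,
      Finset.insert_erase m3] at k1
    have hc : (S.erase (i, j, k)).card ≤ l := by rw [Finset.card_erase_of_mem he]; omega
    have k2 := ih (by omega) _ hc J1 J2 J3 fun e h' => hT e (Finset.mem_of_mem_erase h')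
    have k3 := ih (by omega) (le1 (S.erase (i, j, k)) i j k)
      ((Finset.card_filter_le _ _).trans hc) (J1.erase (i, j)) (J2.erase (i, k)) (J3.erase (j, k))
      fun e h' => by
        obtain ⟨h1, h2⟩ := Finset.mem_filter.1 h'
        obtain ⟨m1, m2, m3⟩ := hT e (Finset.mem_of_mem_erase h1)
        simp only [Finset.mem_erase, ne_eq, Prod.mk.injEq]
        exact ⟨⟨h2.1, m1⟩, ⟨h2.2.1, m2⟩, h2.2.2, m3⟩
    have k4 := ih (by omega) (fl (S.erase (i, j, k)) i j k false false false)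
      ((Finset.card_filter_le _ _).trans hc) (rst (J1.erase (i, j)) i j)
      (rst (J2.erase (i, k)) i k) (rst (J3.erase (j, k)) j k) fun e h' => by
        obtain ⟨h1, h2⟩ := Finset.mem_filter.1 h'
        obtain ⟨m1, m2, m3⟩ := hT e (Finset.mem_of_mem_erase h1)
        simp only [decide_eq_false_iff_not] at h2
        simp [rst, h2.1, h2.2.1, h2.2.2, m1, m2, m3, Prod.ext_iff]
    have k5 : (l : ℝ) ≤ m := by exact_mod_cast (by omega : l ≤ m)
    have k6 : 6 * θ * l ≤ 1 / 2 := by nlinarith [s.sm]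
    nlinarith

lemma Reg3.up_two (h : Reg3 a b c g P R θ n m) (s : Sm3 ι κ ρ θ n m) {S : Finset (ι × κ × ρ)}
    {J1 J2 J3} (hT : Tri J1 J2 J3 S) : N a b c g J1 J2 J3 S ≤ 2 := by
  linarith [h.up_le s m le_rfl S ((Finset.card_le_univ S).trans s.m4) J1 J2 J3 hT, s.sm]

lemma Reg3.down (h : Reg3 a b c g P R θ n m) (s : Sm3 ι κ ρ θ n m) (S : Finset (ι × κ × ρ)) :
    N a b c g Finset.univ Finset.univ Finset.univ (Finset.univ : Finset (ι × κ × ρ)) - 6 * θ * m
      ≤ N a b c g Finset.univ Finset.univ Finset.univ S := by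
  have hθ := h.ha.θ0
  have key : ∀ D : Finset (ι × κ × ρ),
      N a b c g Finset.univ Finset.univ Finset.univ (Finset.univ : Finset (ι × κ × ρ))
        - 6 * θ * D.card ≤ N a b c g Finset.univ Finset.univ Finset.univ Dᶜ := by
    intro D
    induction D using Finset.induction_on with
    | empty => simp
    | insert e D he ih =>
      obtain ⟨i, j, k⟩ := e
      have k1 := h.up_step s (Finset.notMem_erase (i, j) Finset.univ)
        (Finset.notMem_erase (i, k) Finset.univ) (Finset.notMem_erase (j, k) Finset.univ)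
        (S := (insert (i, j, k) D)ᶜ) (by simp)
      rw [Finset.insert_compl_insert he, Finset.insert_erase (Finset.mem_univ _),
        Finset.insert_erase (Finset.mem_univ _), Finset.insert_erase (Finset.mem_univ _)] at k1
      have k2 := h.up_two s (S := (insert (i, j, k) D)ᶜ) (J1 := Finset.univ) (J2 := Finset.univ)
        (J3 := Finset.univ) fun e _ => by simp
      have k3 := h.up_two s (S := le1 (insert (i, j, k) D)ᶜ i j k)
        (J1 := Finset.univ.erase (i, j)) (J2 := Finset.univ.erase (i, k))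
        (J3 := Finset.univ.erase (j, k)) fun e h' => by
          simpa only [Finset.mem_erase, ne_eq, Prod.mk.injEq, Finset.mem_univ, and_true]
            using (Finset.mem_filter.1 h').2
      have k4 := h.up_two s (S := fl (insert (i, j, k) D)ᶜ i j k false false false)
        (J1 := rst (Finset.univ.erase (i, j)) i j) (J2 := rst (Finset.univ.erase (i, k)) i k)
        (J3 := rst (Finset.univ.erase (j, k)) j k) fun e h' => by
          have h2 := (Finset.mem_filter.1 h').2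
          simp only [decide_eq_false_iff_not] at h2
          simp [rst, h2.1, h2.2.1, h2.2.2, Prod.ext_iff]
      rw [Finset.card_insert_of_notMem he]
      push_cast
      nlinarith
  have h1 := key Sᶜ
  rw [compl_compl] at h1
  have h7 : ((Sᶜ).card : ℝ) ≤ m := by exact_mod_cast (Finset.card_le_univ _).trans s.m4
  nlinarith

end Pool.Agent.Work.MP_af588c_co.GB
end

-- merged part: Pool.Agent.Work.MP_af588c_co.GB.Hol
section
/-! The relative Hölder inequality for complete patterns and the blow-up bound. -/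

set_option linter.unusedSectionVars false

namespace Pool.Agent.Work.MP_af588c_co.GB

open Finset
open scoped BigOperators
open Pool.Agent.Work.MP_af588c_co.TB Pool.Agent.Work.MP_af588c_co.LB

variable {X Y Z : Type*} [Fintype X] [Fintype Y] [Fintype Z] [Nonempty X] [Nonempty Y] [Nonempty Z]

lemma jensen_bd (w f : X → ℝ) (hw : ∀ x, 0 ≤ w x) (hf : ∀ x, 0 ≤ f x) {d B : ℝ} (hd : 0 ≤ d)
    (h : d ≤ 𝔼 x, w x * f x) (hB : 𝔼 x, w x ≤ B) (hB1 : 1 ≤ B) {n : ℕ} (hn : 1 ≤ n) :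
    (d / B) ^ n ≤ 𝔼 x, w x * f x ^ n := by
  rcases (exp_nonneg hw).eq_or_lt with h0 | h0
  · have h1 := (Finset.expect_eq_zero_iff_of_nonneg (s := Finset.univ) (f := w)
      (fun x _ => hw x)).1 h0.symm
    have h2 : ∀ x, w x = 0 := fun x => h1 x (Finset.mem_univ x)
    simp only [h2, zero_mul, Finset.expect_const_zero] at h ⊢
    rw [le_antisymm h hd, zero_div, zero_pow (by omega)]
  · refine le_trans ?_ (jensen_hom w f hw h0 rfl hf n)
    obtain ⟨k, rfl⟩ := Nat.exists_eq_add_of_le' hn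
    have h3 : d / B ≤ (𝔼 x, w x * f x) / 𝔼 x, w x := div_le_div₀ (hd.trans h) h h0 hB
    have h4 : 0 ≤ d / B := by positivity
    rw [pow_succ, pow_succ, mul_left_comm, mul_div_cancel₀ _ h0.ne']
    exact mul_le_mul (pow_le_pow_left₀ h4 h3 k) ((div_le_self hd hB1).trans h) h4
      (pow_nonneg (h4.trans h3) _)

lemma holder3 (k1 : X → Y → ℝ) (k2 : X → Z → ℝ) (k3 : Y → Z → ℝ) (G : X → Y → Z → ℝ)
    (h1 : ∀ x y, 0 ≤ k1 x y) (h2 : ∀ x z, 0 ≤ k2 x z) (h3 : ∀ y z, 0 ≤ k3 y z)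
    (hG : ∀ x y z, 0 ≤ G x y z) {d B1 B2 : ℝ} {u : ℕ} (hu : 1 ≤ u) (hd : 0 ≤ d)
    (h : d ≤ 𝔼 x, 𝔼 y, 𝔼 z, k1 x y * k2 x z * k3 y z * G x y z)
    (b1 : T k1 (Finset.univ : Finset (Fin u × Fin u)) (fun _ _ => 1) ≤ B1) (b1' : 1 ≤ B1)
    (b2 : 𝔼 x, 𝔼 y, 𝔼 z, k2 x z * k3 y z ≤ B2) (b2' : 1 ≤ B2) :
    ((d / B2) ^ (u * u) / B1) ^ u ≤ 𝔼 x : Fin u → X, 𝔼 y : Fin u → Y, pe k1 Finset.univ x y *
      (𝔼 z, (∏ i, k2 (x i) z) * (∏ j, k3 (y j) z)
        * pe (fun x y => G x y z) Finset.univ x y) ^ u := by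
  have h4 := jensen_bd (fun r : (Fin u → X) × (Fin u → Y) => pe k1 Finset.univ r.1 r.2)
    (fun r => 𝔼 z, (∏ i, k2 (r.1 i) z) * (∏ j, k3 (r.2 j) z)
      * pe (fun x y => G x y z) Finset.univ r.1 r.2) (fun r => pe_nonneg h1 _ _ _)
    (fun r => exp_nonneg fun z => mul_nonneg (mul_nonneg (Finset.prod_nonneg fun _ _ => h2 _ _)
      (Finset.prod_nonneg fun _ _ => h3 _ _)) (pe_nonneg (fun _ _ => hG _ _ _) _ _ _))
    (d := (d / B2) ^ (u * u)) (by positivity) ?_ (by rw [exp_prod]; simpa [T] using b1) b1' hu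
  · rwa [exp_prod] at h4
  set D : Z → ℝ := fun z => (𝔼 x, k2 x z) * 𝔼 y, k3 y z with hD
  set H : Z → ℝ := fun z => 𝔼 x, 𝔼 y, k2 x z * k3 y z * (k1 x y * G x y z) with hH
  have hD0 : ∀ z, 0 ≤ D z := fun z =>
    mul_nonneg (exp_nonneg fun x => h2 x z) (exp_nonneg fun y => h3 y z)
  have hH0 : ∀ z, 0 ≤ H z := fun z => exp_nonneg fun x => exp_nonneg fun y =>
    mul_nonneg (mul_nonneg (h2 _ _) (h3 _ _)) (mul_nonneg (h1 _ _) (hG _ _ _))
  have hz : ∀ z, D z = 0 → H z = 0 := fun z h0 => by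
    rcases mul_eq_zero.1 h0 with h5 | h5
    · have h6 := (Finset.expect_eq_zero_iff_of_nonneg (s := Finset.univ) (f := fun x => k2 x z)
        (fun x _ => h2 x z)).1 h5
      simp [hH, fun x => h6 x (Finset.mem_univ x)]
    · have h6 := (Finset.expect_eq_zero_iff_of_nonneg (s := Finset.univ) (f := fun y => k3 y z)
        (fun y _ => h3 y z)).1 h5
      simp [hH, fun y => h6 y (Finset.mem_univ y)]
  have h7 := jensen_bd D (fun z => H z / D z) hD0 (fun z => div_nonneg (hH0 z) (hD0 z)) hd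
    (B := B2) (by
      refine h.trans (le_of_eq ?_)
      rw [comm3]
      refine Finset.expect_congr rfl fun z _ => ?_
      have : D z * (H z / D z) = H z := by
        by_cases h0 : D z = 0
        · rw [h0, hz z h0, zero_mul]
        · exact mul_div_cancel₀ _ h0
      rw [this]
      exact Finset.expect_congr rfl fun x _ => Finset.expect_congr rfl fun y _ => by ring)
    (by rw [comm3] at b2; simpa only [hD, Finset.expect_mul_expect] using b2) b2' hu
  have h8 := jensen_pow (fun _ : Z => (1 : ℝ)) (fun z => D z * (H z / D z) ^ u)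
    (fun _ => zero_le_one) (Fintype.expect_const _)
    (fun z => mul_nonneg (hD0 z) (pow_nonneg (div_nonneg (hH0 z) (hD0 z)) _)) u
  simp only [one_mul] at h8
  rw [pow_mul, exp_prod]
  refine (pow_le_pow_left₀ (by positivity) h7 u).trans (h8.trans ?_)
  simp only [Finset.mul_expect]
  rw [comm3]
  refine exp_mono fun z => ?_
  have h9 : ∀ (x : Fin u → X) (y : Fin u → Y), pe k1 Finset.univ x y * ((∏ i, k2 (x i) z)
      * (∏ j, k3 (y j) z) * pe (fun x y => G x y z) Finset.univ x y)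
      = (∏ i, k2 (x i) z) * (∏ j, k3 (y j) z) * ∏ i, ∏ j, k1 (x i) (y j) * G (x i) (y j) z := by
    intro x y
    simp only [pe, Fintype.prod_prod_type, Finset.prod_mul_distrib]
    ring
  simp only [h9]
  by_cases h0 : D z = 0
  · rw [h0, zero_mul, zero_pow (by omega)]
    exact exp_nonneg fun x => exp_nonneg fun y => mul_nonneg (mul_nonneg
      (Finset.prod_nonneg fun _ _ => h2 _ _) (Finset.prod_nonneg fun _ _ => h3 _ _))
      (Finset.prod_nonneg fun _ _ => Finset.prod_nonneg fun _ _ => mul_nonneg (h1 _ _) (hG _ _ _))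
  · rw [mul_pow, ← pow_mul]
    exact sidorenko (fun x => k2 x z) (fun y => k3 y z) (fun x y => k1 x y * G x y z)
      (fun x => h2 x z) (fun y => h3 y z) (fun x y => mul_nonneg (h1 _ _) (hG _ _ _))
      ((exp_nonneg fun x => h2 x z).lt_of_ne' (mul_ne_zero_iff.1 h0).1)
      ((exp_nonneg fun y => h3 y z).lt_of_ne' (mul_ne_zero_iff.1 h0).2) u

variable {a : X → Y → ℝ} {b : X → Z → ℝ} {c : Y → Z → ℝ} {g : X → Y → Z → ℝ} {P R θ : ℝ} {n m : ℕ}

lemma Reg3.base {s : ℕ} (h : Reg3 a b c g P R θ n m) (hs : 1 ≤ s)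
    (sm : Sm3 (Fin s) (Fin s) (Fin s) θ n m) :
    1 - 6 * θ * m ≤ N a b c g Finset.univ Finset.univ Finset.univ
      (Finset.univ : Finset (Fin s × Fin s × Fin s)) := by
  have hθ := h.ha.θ0
  have n1 := sm.h1
  have n2 := sm.m4
  simp only [Fintype.card_fin, Fintype.card_prod] at n1 n2
  have b2 : 𝔼 x, 𝔼 y, 𝔼 z, b x z * c y z ≤ (1 + 2 * θ) ^ 2 := by
    have k0 := pure_of (ι := Unit) (κ := Unit) (ρ := Unit) (g := fun _ _ _ => 1)
      (b := fun (_ : X) (_ : Y) => (1 : ℝ)) (c := fun z y => c y z) h.hb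
      (fun _ _ => ⟨zero_le_one, h.ha.P1⟩) (fun z y => h.hc.bd y z) (by simp; omega)
      (by simp; omega) (B := (1 + 2 * θ) ^ 1) (by positivity) (fun J1 J3 => by
        refine le_of_eq_of_le ?_ (h.hc.t_le (ι := Unit) (κ := Unit) (by simp; omega)
          (by simp; omega) 1 (J3.map (Equiv.prodComm Unit Unit).toEmbedding)
          ((Finset.card_le_univ _).trans (by simp)))
        unfold N T
        simp only [pe, pt, Finset.prod_empty, Finset.prod_const_one, one_mul, mul_one,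
          Fintype.expect_const, Finset.prod_map]
        exact Finset.expect_comm _ _ _) 1 Finset.univ (by simp) ∅ Finset.univ
    refine le_of_eq_of_le ?_ (k0.trans (le_of_eq (by ring)))
    unfold N
    refine Fintype.expect_equiv (Equiv.funUnique Unit X).symm _ _ fun x => ?_
    rw [Finset.expect_comm]
    refine Fintype.expect_equiv (Equiv.funUnique Unit Z).symm _ _ fun z => ?_
    refine Fintype.expect_equiv (Equiv.funUnique Unit Y).symm _ _ fun y => ?_
    simp [pe, pt]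
  have k1 := holder3 a b c g (fun _ _ => (h.ha.bd _ _).1) (fun _ _ => (h.hb.bd _ _).1)
    (fun _ _ => (h.hc.bd _ _).1) h.g0 hs zero_le_one h.one
    (h.ha.t_le (by simp; omega) (by simp; omega) (s * s) _ (by simp))
    (one_le_pow₀ (by linarith)) b2 (one_le_pow₀ (by linarith))
  refine le_trans ?_ (k1.trans (le_of_eq ?_))
  · have e : ((1 / (1 + 2 * θ) ^ 2) ^ (s * s) / (1 + 2 * θ) ^ (s * s)) ^ s
        = (1 / (1 + 2 * θ)) ^ (3 * (s * (s * s))) := by
      simp only [div_eq_mul_inv, one_mul, ← inv_pow, ← pow_mul, ← pow_add]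
      congr 1; ring
    have k2 : 1 + -(2 * θ) ≤ 1 / (1 + 2 * θ) := by
      rw [le_div_iff₀ (by linarith)]; nlinarith
    have k3 : ((s * (s * s) : ℕ) : ℝ) ≤ m := by exact_mod_cast n2
    have k4 : (1 : ℝ) ≤ (s * (s * s) : ℕ) := by
      exact_mod_cast Nat.mul_pos hs (Nat.mul_pos hs hs)
    have k5 : θ ≤ 1 / 24 := by nlinarith [sm.sm]
    have k6 := one_add_mul_le_pow (show (-2 : ℝ) ≤ -(2 * θ) by linarith) (3 * (s * (s * s)))
    rw [e]
    refine le_trans ?_ (k6.trans (pow_le_pow_left₀ (by linarith) k2 _))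
    rw [Nat.cast_mul]
    push_cast at k3 ⊢
    nlinarith
  · unfold N
    refine Finset.expect_congr rfl fun x _ => Finset.expect_congr rfl fun y _ => ?_
    rw [exp_pow, Finset.mul_expect]
    refine Finset.expect_congr rfl fun z _ => ?_
    simp only [pe, pt, Fintype.prod_prod_type, Finset.prod_mul_distrib]
    rw [Finset.prod_comm (f := fun k i => b (x i) (z k)),
      Finset.prod_comm (f := fun k j => c (y j) (z k)),
      Finset.prod_comm (f := fun k i => ∏ j, g (x i) (y j) (z k))]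
    simp only [fun i => Finset.prod_comm (f := fun k j => g (x i) (y j) (z k))
      (s := Finset.univ) (t := Finset.univ)]
    ring

lemma Sp.pe_bd {s : ℕ} (h : Sp a P θ n) (x : Fin s → X) (y : Fin s → Y) :
    0 ≤ pe a Finset.univ x y ∧ pe a Finset.univ x y ≤ P ^ (s * s) :=
  prod_bd _ _ h.P1 (by simp) (fun _ => (h.bd _ _).1) fun _ => (h.bd _ _).2

lemma core3 {s : ℕ} {G : X → Y → Z → ℝ} {p : ℝ} (h : Reg3 a b c g P R θ n m) (hs : 1 ≤ s)
    (sm : Sm3 (Fin s) (Fin s) (Fin s) θ n m) (hp0 : 0 ≤ p)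
    (hG : ∀ x y z, G x y z = p * g x y z) (S : Finset (Fin s × Fin s × Fin s)) {u : ℕ}
    (hu : 1 ≤ u) (ha : Sp a P θ (u * s)) :
    ((p ^ S.card / 3) ^ (u * u) / (1 + 2 * θ) ^ (u * s * (u * s))) ^ u
      ≤ P ^ (3 * (s * s) * (u * u)) * K3 (pt G S) u := by
  have hθ := h.ha.θ0
  have P1 := h.ha.P1
  have hG0 : ∀ x y z, 0 ≤ pt G S x y z := fun x y z =>
    Finset.prod_nonneg fun _ _ => by rw [hG]; exact mul_nonneg hp0 (h.g0 _ _ _)
  have k1 := holder3 (fun x y => pe a (Finset.univ : Finset (Fin s × Fin s)) x y)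
    (fun x z => pe b (Finset.univ : Finset (Fin s × Fin s)) x z)
    (fun y z => pe c (Finset.univ : Finset (Fin s × Fin s)) y z) (pt G S)
    (fun _ _ => pe_nonneg (fun _ _ => (h.ha.bd _ _).1) _ _ _)
    (fun _ _ => pe_nonneg (fun _ _ => (h.hb.bd _ _).1) _ _ _)
    (fun _ _ => pe_nonneg (fun _ _ => (h.hc.bd _ _).1) _ _ _) hG0 hu
    (d := p ^ S.card * (1 / 2)) (B1 := (1 + 2 * θ) ^ (u * s * (u * s))) (B2 := 3 / 2)
    (by positivity) (by
      have k2 : 1 / 2 ≤ N a b c g Finset.univ Finset.univ Finset.univ S := by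
        linarith [h.base hs sm, h.down sm S, sm.sm]
      refine (mul_le_mul_of_nonneg_left k2 (by positivity)).trans (le_of_eq ?_)
      unfold N pt
      simp only [hG, Finset.prod_mul_distrib, Finset.prod_const, Finset.mul_expect]
      exact Finset.expect_congr rfl fun _ _ => Finset.expect_congr rfl fun _ _ =>
        Finset.expect_congr rfl fun _ _ => by ring)
    (by rw [T_curry]; exact ha.t_le (by simp) (by simp) _ _ (by simp))
    (one_le_pow₀ (by linarith))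
    (by simpa [N, pe, pt] using h.pure sm ∅ Finset.univ Finset.univ) (by norm_num)
  rw [show p ^ S.card * (1 / 2) / (3 / 2) = p ^ S.card / 3 by ring] at k1
  refine k1.trans ?_
  unfold K3 F
  simp only [Finset.mul_expect (s := (Finset.univ : Finset (Fin u → Fin s → X))),
    Finset.mul_expect (s := (Finset.univ : Finset (Fin u → Fin s → Y)))]
  refine exp_mono fun x => exp_mono fun y => ?_
  have Q1 : 1 ≤ P ^ (s * s) := one_le_pow₀ P1
  have q1 := prod_bd Finset.univ (fun e : Fin u × Fin u => pe a Finset.univ (x e.1) (y e.2)) Q1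
    (n := u * u) (by simp) (fun _ => (h.ha.pe_bd _ _).1) fun _ => (h.ha.pe_bd _ _).2
  have q2 : ∀ z, (∏ i, pe b Finset.univ (x i) z) * (∏ j, pe c Finset.univ (y j) z)
      * pe (fun x y => pt G S x y z) Finset.univ x y
      ≤ (P ^ (s * s)) ^ u * (P ^ (s * s)) ^ u * pe (fun x y => pt G S x y z) Finset.univ x y := by
    intro z
    have r1 := prod_bd Finset.univ (fun i => pe b Finset.univ (x i) z) Q1
      (n := u) (by simp) (fun _ => (h.hb.pe_bd _ _).1) fun _ => (h.hb.pe_bd _ _).2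
    have r2 := prod_bd Finset.univ (fun j => pe c Finset.univ (y j) z) Q1
      (n := u) (by simp) (fun _ => (h.hc.pe_bd _ _).1) fun _ => (h.hc.pe_bd _ _).2
    exact mul_le_mul_of_nonneg_right (mul_le_mul r1.2 r2.2 r2.1 (by positivity))
      (pe_nonneg (fun _ _ => hG0 _ _ _) _ _ _)
  have q3 := exp_mono q2
  rw [← Finset.mul_expect] at q3
  have q4 := exp_nonneg fun z => mul_nonneg (mul_nonneg
    (Finset.prod_nonneg (s := Finset.univ) fun i _ => (h.hb.pe_bd (x i) z).1)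
    (Finset.prod_nonneg (s := Finset.univ) fun j _ => (h.hc.pe_bd (y j) z).1))
    (pe_nonneg (fun x y => hG0 x y z) (Finset.univ : Finset (Fin u × Fin u)) x y)
  refine (mul_le_mul q1.2 (pow_le_pow_left₀ q4 q3 u) (pow_nonneg q4 _) (by positivity)).trans
    (le_of_eq ?_)
  ring

end Pool.Agent.Work.MP_af588c_co.GB
end

-- merged part: Pool.Agent.Work.MP_af588c_co.GB.St
section
/-! The global maximiser and the trimming and zooming of one pair set. -/

set_option linter.unusedSectionVars false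

namespace Pool.Agent.Work.MP_af588c_co.GB

open Finset
open scoped BigOperators
open Pool.Agent.Work.MP_af588c_co.TB Pool.Agent.Work.MP_af588c_co.LB

variable {X Y Z : Type*} [Fintype X] [Fintype Y] [Fintype Z] [Nonempty X] [Nonempty Y] [Nonempty Z]
variable {X₁ Y₁ Z₁ : Type*} [Fintype X₁] [Fintype Y₁] [Fintype Z₁] [Nonempty X₁] [Nonempty Y₁]
  [Nonempty Z₁]

/-- relative size -/
noncomputable def rat (X₁ X : Type*) [Fintype X₁] [Fintype X] : ℝ :=
  (Fintype.card X₁ : ℝ) / Fintype.card X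

lemma rat_pos : 0 < rat X₁ X :=
  div_pos (by exact_mod_cast Fintype.card_pos) (by exact_mod_cast Fintype.card_pos)

lemma rat_le {e : X₁ → X} (he : Function.Injective e) : rat X₁ X ≤ 1 :=
  (div_le_one (by exact_mod_cast Fintype.card_pos)).2
    (by exact_mod_cast Fintype.card_le_of_injective e he)

lemma rat_mul {X₂ : Type*} [Fintype X₂] : rat X₂ X₁ * rat X₁ X = rat X₂ X := by
  have : (0 : ℝ) < Fintype.card X₁ := by exact_mod_cast Fintype.card_pos
  unfold rat; field_simp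

lemma exp_range {e : X₁ → X} (he : Function.Injective e) (f : X → ℝ)
    (hf : ∀ x, f x ≠ 0 → ∃ x1, e x1 = x) : 𝔼 x, f x = rat X₁ X * 𝔼 x, f (e x) := by
  classical
  have hX1 : (0 : ℝ) < Fintype.card X₁ := by exact_mod_cast Fintype.card_pos
  have h1 : ∑ x, f (e x) = ∑ x, f x := by
    rw [← Finset.sum_image (s := Finset.univ) (g := e) (f := f) (fun x _ y _ h => he h)]
    refine Finset.sum_subset (Finset.subset_univ _) fun x _ hx => ?_
    by_contra h
    obtain ⟨x1, rfl⟩ := hf x h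
    exact hx (Finset.mem_image_of_mem _ (Finset.mem_univ _))
  rw [exp_eq, exp_eq, h1, rat]
  field_simp

lemma exp_ne {A : Type*} [Fintype A] {f : A → ℝ} (h : 𝔼 x, f x ≠ 0) : ∃ x, f x ≠ 0 := by
  by_contra h0
  simp only [not_exists, not_not] at h0
  simp [h0] at h

lemma exp2_range {e1 : X₁ → X} {e2 : Y₁ → Y} (h1 : Function.Injective e1)
    (h2 : Function.Injective e2) (F : X → Y → ℝ)
    (hF : ∀ x y, F x y ≠ 0 → (∃ x1, e1 x1 = x) ∧ ∃ y1, e2 y1 = y) :
    𝔼 x, 𝔼 y, F x y = rat X₁ X * rat Y₁ Y * 𝔼 x, 𝔼 y, F (e1 x) (e2 y) := by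
  rw [exp_range h1 _ fun x h => (exp_ne h).elim fun y hy => (hF x y hy).1, mul_assoc,
    Finset.mul_expect _ _ (rat Y₁ Y)]
  congr 1
  exact Finset.expect_congr rfl fun x _ => exp_range h2 _ fun y h => (hF _ y h).2

noncomputable def E3 (F : X → Y → Z → ℝ) : ℝ := 𝔼 x, 𝔼 y, 𝔼 z, F x y z

lemma exp3_range {e1 : X₁ → X} {e2 : Y₁ → Y} {e3 : Z₁ → Z} (h1 : Function.Injective e1)
    (h2 : Function.Injective e2) (h3 : Function.Injective e3) (F : X → Y → Z → ℝ)
    (hF : ∀ x y z, F x y z ≠ 0 → (∃ x1, e1 x1 = x) ∧ (∃ y1, e2 y1 = y) ∧ ∃ z1, e3 z1 = z) :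
    E3 F = rat X₁ X * rat Y₁ Y * rat Z₁ Z * E3 fun x y z => F (e1 x) (e2 y) (e3 z) := by
  unfold E3
  rw [exp2_range h1 h2 _ fun x y h => (exp_ne h).elim fun z hz => ⟨(hF x y z hz).1,
    (hF x y z hz).2.1⟩, mul_assoc _ (rat Z₁ Z)]
  congr 1
  simp only [Finset.mul_expect _ _ (rat Z₁ Z)]
  refine Finset.expect_congr rfl fun x _ => Finset.expect_congr rfl fun y _ => ?_
  rw [← Finset.mul_expect]
  exact exp_range h3 _ fun z h => (hF _ _ z h).2.2

lemma E3_mono {F F' : X → Y → Z → ℝ} (h : ∀ x y z, F x y z ≤ F' x y z) : E3 F ≤ E3 F' :=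
  exp_mono fun x => exp_mono fun y => exp_mono fun z => h x y z

lemma E3_nonneg {F : X → Y → Z → ℝ} (h : ∀ x y z, 0 ≤ F x y z) : 0 ≤ E3 F :=
  exp_nonneg fun x => exp_nonneg fun y => exp_nonneg fun z => h x y z

lemma ind_and (A B : Prop) : ind (A ∧ B) = ind A * ind B := by
  unfold ind; by_cases A <;> by_cases B <;> simp [*]

lemma ind_not {A : Prop} (h : ¬A) : ind A = 0 := by unfold ind; rw [if_neg h]

lemma exp_ind_le (A : X → Prop) : 𝔼 x, ind (A x) ≤ 1 :=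
  Finset.expect_le Finset.univ_nonempty fun _ _ => ind_le_one _

lemma exp_ind_pos {A : X → Prop} {x : X} (h : A x) : 0 < 𝔼 x, ind (A x) :=
  Finset.expect_pos' (fun _ _ => ind_nonneg _) ⟨x, Finset.mem_univ _, by rw [ind_of h]; norm_num⟩

noncomputable def I3 (Γ1 : X → Y → Prop) (Γ2 : X → Z → Prop) (Γ3 : Y → Z → Prop) (x : X) (y : Y)
    (z : Z) : ℝ := ind (Γ1 x y) * ind (Γ2 x z) * ind (Γ3 y z)

lemma I3_bd (Γ1 : X → Y → Prop) (Γ2 : X → Z → Prop) (Γ3 : Y → Z → Prop) (x : X) (y : Y) (z : Z) :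
    0 ≤ I3 Γ1 Γ2 Γ3 x y z ∧ I3 Γ1 Γ2 Γ3 x y z ≤ 1 :=
  ⟨mul_nonneg (mul_nonneg (ind_nonneg _) (ind_nonneg _)) (ind_nonneg _),
    mul_le_one₀ (mul_le_one₀ (ind_le_one _) (ind_nonneg _) (ind_le_one _)) (ind_nonneg _)
      (ind_le_one _)⟩

lemma I3_ne {Γ1 : X → Y → Prop} {Γ2 : X → Z → Prop} {Γ3 : Y → Z → Prop} {x : X} {y : Y} {z : Z}
    (h : I3 Γ1 Γ2 Γ3 x y z ≠ 0) : Γ1 x y ∧ Γ2 x z ∧ Γ3 y z :=
  ⟨of_ind_ne (left_ne_zero_of_mul (left_ne_zero_of_mul h)),
    of_ind_ne (right_ne_zero_of_mul (left_ne_zero_of_mul h)), of_ind_ne (right_ne_zero_of_mul h)⟩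

/-- the mass of the host inside a pair pattern -/
noncomputable def ms (G : X → Y → Z → ℝ) (Γ1 : X → Y → Prop) (Γ2 : X → Z → Prop)
    (Γ3 : Y → Z → Prop) : ℝ := E3 fun x y z => I3 Γ1 Γ2 Γ3 x y z * G x y z

def Up3 (G : X → Y → Z → ℝ) (c γ γ1 : ℝ) : Prop :=
  ∀ (A : X → Prop) (B : Y → Prop) (C : Z → Prop) (Γ1 : X → Y → Prop) (Γ2 : X → Z → Prop)
    (Γ3 : Y → Z → Prop), (∀ x y, Γ1 x y → A x ∧ B y) → (∀ x z, Γ2 x z → C z) →
    ms G Γ1 Γ2 Γ3 ≤ c * (E3 (I3 Γ1 Γ2 Γ3) ^ (1 - γ)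
      * ((𝔼 x, ind (A x)) * (𝔼 y, ind (B y)) * 𝔼 z, ind (C z)) ^ (γ - γ1))

def St (G : X → Y → Z → ℝ) (Γ1 : X → Y → Prop) (Γ2 : X → Z → Prop) (Γ3 : Y → Z → Prop)
    (v γ : ℝ) : Prop :=
  0 < ms G Γ1 Γ2 Γ3 ∧ v * E3 (I3 Γ1 Γ2 Γ3) ^ (1 - γ) ≤ ms G Γ1 Γ2 Γ3

lemma resc {μ T β c γ γ1 : ℝ} (hμ : 0 < μ) (hT : 0 ≤ T) (hβ : 0 ≤ β) :
    c * ((μ * T) ^ (1 - γ) * (μ * β) ^ (γ - γ1))
      = μ * (c / μ ^ γ1 * (T ^ (1 - γ) * β ^ (γ - γ1))) := by
  rw [Real.mul_rpow hμ.le hT, Real.mul_rpow hμ.le hβ, Real.rpow_sub hμ, Real.rpow_sub hμ,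
    Real.rpow_one]
  have := Real.rpow_pos_of_pos hμ γ
  have := Real.rpow_pos_of_pos hμ γ1
  field_simp

lemma ind_push {e : X₁ → X} (he : Function.Injective e) (A : X₁ → Prop) :
    𝔼 x, ind (∃ x1, e x1 = x ∧ A x1) = rat X₁ X * 𝔼 x, ind (A x) := by
  rw [exp_range he _ fun x h => (of_ind_ne h).imp fun _ h => h.1]
  simp [he.eq_iff]

lemma Up3.comap {G : X → Y → Z → ℝ} {c γ γ1 : ℝ} (h : Up3 G c γ γ1) {e1 : X₁ → X} {e2 : Y₁ → Y}
    {e3 : Z₁ → Z} (h1 : Function.Injective e1) (h2 : Function.Injective e2)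
    (h3 : Function.Injective e3) :
    Up3 (fun x y z => G (e1 x) (e2 y) (e3 z)) (c / (rat X₁ X * rat Y₁ Y * rat Z₁ Z) ^ γ1) γ γ1 := by
  intro A B C Γ1 Γ2 Γ3 k1 k2
  have hμ : 0 < rat X₁ X * rat Y₁ Y * rat Z₁ Z := mul_pos (mul_pos rat_pos rat_pos) rat_pos
  have h4 := h (fun x => ∃ x1, e1 x1 = x ∧ A x1) (fun y => ∃ y1, e2 y1 = y ∧ B y1)
    (fun z => ∃ z1, e3 z1 = z ∧ C z1) (fun x y => ∃ x1 y1, e1 x1 = x ∧ e2 y1 = y ∧ Γ1 x1 y1)
    (fun x z => ∃ x1 z1, e1 x1 = x ∧ e3 z1 = z ∧ Γ2 x1 z1)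
    (fun y z => ∃ y1 z1, e2 y1 = y ∧ e3 z1 = z ∧ Γ3 y1 z1)
    (fun x y ⟨x1, y1, a1, a2, a3⟩ => ⟨⟨x1, a1, (k1 _ _ a3).1⟩, y1, a2, (k1 _ _ a3).2⟩)
    (fun x z ⟨x1, z1, a1, a2, a3⟩ => ⟨z1, a2, k2 _ _ a3⟩)
  have k3 : ∀ x y z, I3 (fun x y => ∃ x1 y1, e1 x1 = x ∧ e2 y1 = y ∧ Γ1 x1 y1)
      (fun x z => ∃ x1 z1, e1 x1 = x ∧ e3 z1 = z ∧ Γ2 x1 z1)
      (fun y z => ∃ y1 z1, e2 y1 = y ∧ e3 z1 = z ∧ Γ3 y1 z1) x y z ≠ 0 →
      (∃ x1, e1 x1 = x) ∧ (∃ y1, e2 y1 = y) ∧ ∃ z1, e3 z1 = z := fun x y z h5 => by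
    obtain ⟨⟨x1, y1, a1, a2, -⟩, ⟨-, z1, -, a3, -⟩, -⟩ := I3_ne h5
    exact ⟨⟨x1, a1⟩, ⟨y1, a2⟩, z1, a3⟩
  unfold ms at h4 ⊢
  rw [exp3_range h1 h2 h3 _ k3, exp3_range h1 h2 h3 _ fun x y z h5 =>
    k3 x y z (left_ne_zero_of_mul h5), ind_push h1, ind_push h2, ind_push h3,
    show ∀ a b c d e f : ℝ, a * b * (c * d) * (e * f) = a * c * e * (b * d * f) from
      fun _ _ _ _ _ _ => by ring, resc hμ (E3_nonneg fun _ _ _ => (I3_bd _ _ _ _ _ _).1)
      (mul_nonneg (mul_nonneg (exp_nonneg fun _ => ind_nonneg _) (exp_nonneg fun _ => ind_nonneg _))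
        (exp_nonneg fun _ => ind_nonneg _))] at h4
  have h6 := le_of_mul_le_mul_left h4 hμ
  simp only [I3, h1.eq_iff, h2.eq_iff, h3.eq_iff, exists_and_left, exists_eq_left] at h6
  exact h6

lemma ms_le {G : X → Y → Z → ℝ} (hG : ∀ x y z, 0 ≤ G x y z ∧ G x y z ≤ 1) (Γ1 : X → Y → Prop)
    (Γ2 : X → Z → Prop) (Γ3 : Y → Z → Prop) :
    0 ≤ ms G Γ1 Γ2 Γ3 ∧ ms G Γ1 Γ2 Γ3 ≤ E3 (I3 Γ1 Γ2 Γ3) ∧ E3 (I3 Γ1 Γ2 Γ3) ≤ 1 :=
  ⟨E3_nonneg fun _ _ _ => mul_nonneg (I3_bd _ _ _ _ _ _).1 (hG _ _ _).1,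
    E3_mono fun _ _ _ => mul_le_of_le_one_right (I3_bd _ _ _ _ _ _).1 (hG _ _ _).2,
    (E3_mono fun _ _ _ => (I3_bd _ _ _ _ _ _).2).trans (by simp [E3])⟩

lemma St.le_one {G : X → Y → Z → ℝ} (hG : ∀ x y z, 0 ≤ G x y z ∧ G x y z ≤ 1) {Γ1 : X → Y → Prop}
    {Γ2 : X → Z → Prop} {Γ3 : Y → Z → Prop} {v γ : ℝ} (h : St G Γ1 Γ2 Γ3 v γ) (hγ : 0 ≤ γ) :
    v ≤ 1 := by
  obtain ⟨-, h1, h2⟩ := ms_le hG Γ1 Γ2 Γ3
  have h0 := h.1.trans_le h1
  have h3 : E3 (I3 Γ1 Γ2 Γ3) ≤ E3 (I3 Γ1 Γ2 Γ3) ^ (1 - γ) := by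
    conv_lhs => rw [← Real.rpow_one (E3 (I3 Γ1 Γ2 Γ3))]
    exact Real.rpow_le_rpow_of_exponent_ge h0 h2 (by linarith)
  exact (mul_le_iff_le_one_left (h0.trans_le h3)).1 (h.2.trans (h1.trans h3))

lemma rat_coe (A : X → Prop) [DecidablePred A] :
    rat (Finset.univ.filter A : Finset X) X = 𝔼 x, ind (A x) := by
  rw [rat, exp_eq, Fintype.card_coe, Finset.card_filter]
  push_cast
  congr 2
  funext x
  unfold ind; congr

lemma stage0 (G : X → Y → Z → ℝ) (hG : ∀ x y z, 0 ≤ G x y z ∧ G x y z ≤ 1) {D γ γ1 : ℝ}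
    (hγ : 0 ≤ γ) (h1 : 0 < γ1) (hm : Real.exp (-D) ≤ E3 G) :
    ∃ (A : Finset X) (B : Finset Y) (C : Finset Z) (Γ1 : A → B → Prop) (Γ2 : A → C → Prop)
      (Γ3 : B → C → Prop) (v : ℝ), A.Nonempty ∧ B.Nonempty ∧ C.Nonempty ∧ Real.exp (-D) ≤ v ∧
      Real.exp (-(D / γ1)) ≤ rat A X * rat B Y * rat C Z ∧
      St (fun (x : A) (y : B) (z : C) => G x y z) Γ1 Γ2 Γ3 v γ ∧
      Up3 (fun (x : A) (y : B) (z : C) => G x y z) v γ γ1 := by
  classical
  let R := {r : (X → Prop) × (Y → Prop) × (Z → Prop) × (X → Y → Prop) × (X → Z → Prop)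
    × (Y → Z → Prop) // (∀ x y, r.2.2.2.1 x y → r.1 x ∧ r.2.1 y) ∧ ∀ x z, r.2.2.2.2.1 x z → r.2.2.1 z}
  let r0 : R := ⟨(fun _ => True, fun _ => True, fun _ => True, fun _ _ => True, fun _ _ => True,
    fun _ _ => True), by simp⟩
  have : Nonempty R := ⟨r0⟩
  obtain ⟨⟨⟨A, B, C, Γ1, Γ2, Γ3⟩, k1, k2⟩, hmax⟩ := Finite.exists_max fun r : R =>
    ms G r.1.2.2.2.1 r.1.2.2.2.2.1 r.1.2.2.2.2.2
      / (E3 (I3 r.1.2.2.2.1 r.1.2.2.2.2.1 r.1.2.2.2.2.2) ^ (1 - γ)
        * ((𝔼 x, ind (r.1.1 x)) * (𝔼 y, ind (r.1.2.1 y)) * 𝔼 z, ind (r.1.2.2.1 z)) ^ (γ - γ1))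
  dsimp only at k1 k2 hmax
  have pos : ∀ (A : X → Prop) (B : Y → Prop) (C : Z → Prop) (Γ1 : X → Y → Prop)
      (Γ2 : X → Z → Prop) (Γ3 : Y → Z → Prop), (∀ x y, Γ1 x y → A x ∧ B y) →
      (∀ x z, Γ2 x z → C z) → ms G Γ1 Γ2 Γ3 ≠ 0 → (∃ x y z, A x ∧ B y ∧ C z) ∧
      0 < E3 (I3 Γ1 Γ2 Γ3) ^ (1 - γ)
        * ((𝔼 x, ind (A x)) * (𝔼 y, ind (B y)) * 𝔼 z, ind (C z)) ^ (γ - γ1) := by
    intro A B C Γ1 Γ2 Γ3 k1 k2 h0
    obtain ⟨x, hx⟩ := exp_ne h0
    obtain ⟨y, hy⟩ := exp_ne hx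
    obtain ⟨z, hz⟩ := exp_ne hy
    obtain ⟨a1, a2, -⟩ := I3_ne (left_ne_zero_of_mul hz)
    obtain ⟨b1, b2, -⟩ := ms_le hG Γ1 Γ2 Γ3
    exact ⟨⟨x, y, z, (k1 _ _ a1).1, (k1 _ _ a1).2, k2 _ _ a2⟩,
      mul_pos (Real.rpow_pos_of_pos ((b1.lt_of_ne' h0).trans_le b2) _) (Real.rpow_pos_of_pos
        (mul_pos (mul_pos (exp_ind_pos (k1 _ _ a1).1) (exp_ind_pos (k1 _ _ a1).2))
          (exp_ind_pos (k2 _ _ a2))) _)⟩
  obtain ⟨c, hc⟩ : ∃ c, c = ms G Γ1 Γ2 Γ3 / (E3 (I3 Γ1 Γ2 Γ3) ^ (1 - γ)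
    * ((𝔼 x, ind (A x)) * (𝔼 y, ind (B y)) * 𝔼 z, ind (C z)) ^ (γ - γ1)) := ⟨_, rfl⟩
  rw [← hc] at hmax
  have h2 : Real.exp (-D) ≤ c := by
    refine hm.trans (le_of_eq_of_le ?_ (hmax r0))
    simp [r0, ms, E3, I3, ind_of]
  have c0 : 0 < c := (Real.exp_pos _).trans_le h2
  have hup : Up3 G c γ γ1 := fun A B C Γ1 Γ2 Γ3 k1 k2 => by
    by_cases h0 : ms G Γ1 Γ2 Γ3 = 0
    · rw [h0]
      exact mul_nonneg c0.le (mul_nonneg
        (Real.rpow_nonneg (E3_nonneg fun _ _ _ => (I3_bd _ _ _ _ _ _).1) _)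
        (Real.rpow_nonneg (mul_nonneg (mul_nonneg (exp_nonneg fun _ => ind_nonneg _)
          (exp_nonneg fun _ => ind_nonneg _)) (exp_nonneg fun _ => ind_nonneg _)) _))
    · exact (div_le_iff₀ (pos A B C Γ1 Γ2 Γ3 k1 k2 h0).2).1 (hmax ⟨(A, B, C, Γ1, Γ2, Γ3), k1, k2⟩)
  have h0 : ms G Γ1 Γ2 Γ3 ≠ 0 := fun h => by rw [hc, h, zero_div] at c0; exact lt_irrefl _ c0
  obtain ⟨⟨x, y, z, a1, a2, a3⟩, h3⟩ := pos A B C Γ1 Γ2 Γ3 k1 k2 h0
  have nA : (Finset.univ.filter A).Nonempty := ⟨x, by simpa using a1⟩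
  have nB : (Finset.univ.filter B).Nonempty := ⟨y, by simpa using a2⟩
  have nC : (Finset.univ.filter C).Nonempty := ⟨z, by simpa using a3⟩
  have := nA.to_subtype
  have := nB.to_subtype
  have := nC.to_subtype
  obtain ⟨μ, hμ⟩ : ∃ μ, μ = rat (Finset.univ.filter A : Finset X) X
    * rat (Finset.univ.filter B : Finset Y) Y * rat (Finset.univ.filter C : Finset Z) Z := ⟨_, rfl⟩
  have μ0 : 0 < μ := hμ ▸ mul_pos (mul_pos rat_pos rat_pos) rat_pos
  have μ1 : μ ≤ 1 := hμ ▸ mul_le_one₀ (mul_le_one₀ (rat_le Subtype.val_injective) rat_pos.le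
    (rat_le Subtype.val_injective)) rat_pos.le (rat_le Subtype.val_injective)
  have k3 : ∀ x y z, I3 Γ1 Γ2 Γ3 x y z ≠ 0 →
      (∃ x1 : (Finset.univ.filter A : Finset X), x1.1 = x) ∧
      (∃ y1 : (Finset.univ.filter B : Finset Y), y1.1 = y) ∧
      ∃ z1 : (Finset.univ.filter C : Finset Z), z1.1 = z := fun x y z h => by
    obtain ⟨a1, a2, -⟩ := I3_ne h
    simp [k1 _ _ a1, k2 _ _ a2]
  have h4 : St (fun (x : (Finset.univ.filter A : Finset X)) (y : (Finset.univ.filter B : Finset Y))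
      (z : (Finset.univ.filter C : Finset Z)) => G x y z) (fun x y => Γ1 x y) (fun x z => Γ2 x z)
      (fun y z => Γ3 y z) (c / μ ^ γ1) γ := by
    have h5 := (eq_div_iff h3.ne').1 hc
    have h6 := ((ms_le hG Γ1 Γ2 Γ3).1.lt_of_ne' h0)
    unfold ms at h5 h6
    rw [exp3_range Subtype.val_injective Subtype.val_injective Subtype.val_injective _
      fun x y z h => k3 x y z (left_ne_zero_of_mul h), ← hμ] at h5 h6
    rw [exp3_range Subtype.val_injective Subtype.val_injective Subtype.val_injective _ k3,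
      ← rat_coe, ← rat_coe, ← rat_coe, ← hμ, ← mul_one μ, mul_assoc μ 1, one_mul,
      resc μ0 (E3_nonneg fun _ _ _ => (I3_bd _ _ _ _ _ _).1) zero_le_one, Real.one_rpow,
      mul_one, mul_one] at h5
    exact ⟨(mul_pos_iff_of_pos_left μ0).1 h6, (mul_left_cancel₀ μ0.ne' h5).le⟩
  have h7 := h4.le_one (fun _ _ _ => hG _ _ _) hγ
  have h8 := Real.rpow_pos_of_pos μ0 γ1
  rw [div_le_one h8] at h7
  refine ⟨_, _, _, _, _, _, c / μ ^ γ1, nA, nB, nC,
    h2.trans (le_div_self c0.le h8 (Real.rpow_le_one μ0.le μ1 h1.le)), ?_, h4,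
    hμ ▸ hup.comap Subtype.val_injective Subtype.val_injective Subtype.val_injective⟩
  rw [← hμ, show -(D / γ1) = -D * (1 / γ1) by ring, Real.exp_mul]
  exact root_le (Real.exp_pos _).le μ0.le h1 (h2.trans h7)

end Pool.Agent.Work.MP_af588c_co.GB
end

-- merged part: Pool.Agent.Work.MP_af588c_co.GB.Stg
section
/-! Trimming and zooming of one pair set, removal of a small vertex set. -/

set_option linter.unusedSectionVars false

namespace Pool.Agent.Work.MP_af588c_co.GB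

open Finset
open scoped BigOperators
open Pool.Agent.Work.MP_af588c_co.TB Pool.Agent.Work.MP_af588c_co.LB

variable {X Y Z : Type*} [Fintype X] [Fintype Y] [Fintype Z] [Nonempty X] [Nonempty Y] [Nonempty Z]

lemma exp_erase {S : X → Prop} {e : X} (he : S e) (f : X → ℝ) :
    𝔼 x, ind (S x ∧ x ≠ e) * f x = (𝔼 x, ind (S x) * f x) - f e / Fintype.card X := by
  classical
  have : ∀ x, ind (S x ∧ x ≠ e) * f x = ind (S x) * f x - if x = e then f e else 0 := fun x => by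
    by_cases h : x = e
    · subst h; simp [ind_of he, ind_not]
    · simp [h]
  simp only [this, Finset.expect_sub_distrib]
  congr 1
  rw [exp_eq]
  simp

lemma trim (f t : X → ℝ) (hf : ∀ x, 0 ≤ f x) (hft : ∀ x, f x ≤ t x) (ht : ∀ x, t x ≤ 1)
    {v γ δ : ℝ} (hv : 0 < v) (hδ : 0 < δ) (hδγ : 2 * δ ≤ γ) (hγ : γ ≤ 1) (h0 : 0 < 𝔼 x, f x)
    (h : v * (𝔼 x, t x) ^ (1 - γ) ≤ 𝔼 x, f x) :
    ∃ (S : X → Prop) (η : ℝ), v ^ (2 / γ) ≤ 𝔼 x, ind (S x) ∧ 0 < η ∧ (∀ x, S x → η ≤ f x) ∧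
      ∀ B : X → Prop, v * (𝔼 x, ind (S x)) ^ δ * ((𝔼 x, ind (B x ∧ S x) * t x) ^ (1 - γ)
        * (δ * ((𝔼 x, ind (B x ∧ S x)) / 𝔼 x, ind (S x))) ^ γ) ≤ 𝔼 x, ind (B x ∧ S x) * f x := by
  obtain ⟨S, hmax⟩ := Finite.exists_max fun S : X → Prop => (𝔼 x, ind (S x) * f x)
    / ((𝔼 x, ind (S x) * t x) ^ (1 - γ) * (𝔼 x, ind (S x) * 1) ^ δ)
  have bd : ∀ S : X → Prop, 0 ≤ 𝔼 x, ind (S x) * f x ∧ 𝔼 x, ind (S x) * f x ≤ 𝔼 x, ind (S x) * t x
      ∧ 𝔼 x, ind (S x) * t x ≤ 𝔼 x, ind (S x) * 1 := fun S =>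
    ⟨exp_nonneg fun x => mul_nonneg (ind_nonneg _) (hf x),
      exp_mono fun x => mul_le_mul_of_nonneg_left (hft x) (ind_nonneg _),
      exp_mono fun x => mul_le_mul_of_nonneg_left (ht x) (ind_nonneg _)⟩
  obtain ⟨F, hF⟩ : ∃ F, F = 𝔼 x, ind (S x) * f x := ⟨_, rfl⟩
  obtain ⟨T, hT⟩ : ∃ T, T = 𝔼 x, ind (S x) * t x := ⟨_, rfl⟩
  obtain ⟨M, hM⟩ : ∃ M, M = 𝔼 x, ind (S x) * 1 := ⟨_, rfl⟩
  obtain ⟨b1, b2, b3⟩ := bd S
  have M1 : M ≤ 1 := by rw [hM]; simpa using exp_ind_le S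
  rw [← hF, ← hT, ← hM] at hmax
  rw [← hF, ← hT] at b2
  rw [← hT, ← hM] at b3
  have h1 : v ≤ F / (T ^ (1 - γ) * M ^ δ) := by
    refine le_trans ?_ (hmax fun _ => True)
    simp only [ind_of trivial, one_mul, Fintype.expect_const, Real.one_rpow, mul_one]
    rwa [le_div_iff₀ (Real.rpow_pos_of_pos (h0.trans_le (exp_mono hft)) _)]
  have F0 : 0 < F := by
    refine (hF ▸ b1).lt_of_ne' fun h2 => ?_
    rw [h2, zero_div] at h1
    linarith
  have T0 : 0 < T := F0.trans_le b2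
  have M0 : 0 < M := T0.trans_le b3
  have N0 : (0 : ℝ) < Fintype.card X := by exact_mod_cast Fintype.card_pos
  rw [le_div_iff₀ (by positivity)] at h1
  have pt : ∀ e, S e → F * ((1 - γ) * (t e / T) + δ * (1 / M)) ≤ f e := fun e he => by
    obtain ⟨c1, c2, c3⟩ := bd fun x => S x ∧ x ≠ e
    have h3 := hmax fun x => S x ∧ x ≠ e
    simp only [exp_erase he, ← hF, ← hT, ← hM] at c1 c2 c3 h3
    have h4 : F - f e / Fintype.card X ≤ F * (((T - t e / Fintype.card X) / T) ^ (1 - γ)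
        * ((M - 1 / Fintype.card X) / M) ^ δ * 1 ^ (γ - δ)) := by
      have c4 := c1.trans c2
      have c5 := c4.trans c3
      rcases c1.eq_or_lt with h5 | h5
      · rw [← h5]; positivity
      · have c6 := h5.trans_le c2
        have c7 := c6.trans_le c3
        rw [div_le_iff₀ (by positivity)] at h3
        refine h3.trans (le_of_eq ?_)
        rw [Real.div_rpow c4 T0.le, Real.div_rpow c5 M0.le, Real.one_rpow]
        field_simp
    have h5 := Real.geom_mean_le_arith_mean3_weighted (w₁ := 1 - γ) (w₂ := δ) (w₃ := γ - δ)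
      (p₁ := (T - t e / Fintype.card X) / T) (p₂ := (M - 1 / Fintype.card X) / M) (p₃ := 1)
      (by linarith) hδ.le (by linarith) (div_nonneg (c1.trans c2) T0.le)
      (div_nonneg ((c1.trans c2).trans c3) M0.le) zero_le_one (by ring)
    have h6 := h4.trans (mul_le_mul_of_nonneg_left h5 F0.le)
    have h7 : F * ((1 - γ) * ((T - t e / Fintype.card X) / T)
        + δ * ((M - 1 / Fintype.card X) / M) + (γ - δ) * 1)
        = F - F * ((1 - γ) * (t e / T) + δ * (1 / M)) / Fintype.card X := by field_simp; ring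
    rw [h7, sub_le_sub_iff_left, div_le_div_iff_of_pos_right N0] at h6
    exact h6
  simp only [mul_one] at hM
  refine ⟨S, F * (δ * (1 / M)), ?_, by positivity, fun e he => le_trans ?_ (pt e he), fun B => ?_⟩
  · rw [← hM, show 2 / γ = 1 / (γ / 2) by field_simp]
    refine root_le hv.le M0.le (by linarith) ?_
    have h2 : T ^ (1 - γ) * M ^ δ * M ^ (γ - δ) = T ^ (1 - γ) * M ^ γ := by
      rw [mul_assoc, ← Real.rpow_add M0]; congr 2; ring
    have h3 : T ≤ T ^ (1 - γ) * M ^ γ := by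
      conv_lhs => rw [← Real.rpow_one T, show (1 : ℝ) = 1 - γ + γ by ring, Real.rpow_add T0]
      exact mul_le_mul_of_nonneg_left (Real.rpow_le_rpow T0.le b3 (by linarith)) (by positivity)
    have h4 : v ≤ M ^ (γ - δ) := by
      refine le_of_mul_le_mul_left (a := T ^ (1 - γ) * M ^ δ) ?_ (by positivity)
      rw [h2, mul_comm]
      linarith
    exact h4.trans (Real.rpow_le_rpow_of_exponent_ge M0 M1 (by linarith))
  · have := mul_nonneg (show 0 ≤ 1 - γ by linarith) (div_nonneg ((hf e).trans (hft e)) T0.le)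
    exact mul_le_mul_of_nonneg_left (by linarith) F0.le
  · obtain ⟨c1, c2, c3⟩ := bd fun x => B x ∧ S x
    have h2 : 𝔼 x, ind (B x ∧ S x) * (F * ((1 - γ) * (t x / T) + δ * (1 / M)))
        ≤ 𝔼 x, ind (B x ∧ S x) * f x := exp_mono fun x => by
      by_cases h3 : B x ∧ S x
      · exact mul_le_mul_of_nonneg_left (pt x h3.2) (ind_nonneg _)
      · rw [ind_not h3, zero_mul, zero_mul]
    refine le_trans ?_ h2
    have h3 : 𝔼 x, ind (B x ∧ S x) * (F * ((1 - γ) * (t x / T) + δ * (1 / M)))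
        = F * ((1 - γ) * ((𝔼 x, ind (B x ∧ S x) * t x) / T)
          + δ * ((𝔼 x, ind (B x ∧ S x)) / M)) := by
      simp only [Finset.expect_div, Finset.mul_expect, ← Finset.expect_add_distrib]
      exact Finset.expect_congr rfl fun x _ => by ring
    simp only [mul_one] at c3
    have c4 := c1.trans c2
    have c5 := c4.trans c3
    have h4 := Real.geom_mean_le_arith_mean2_weighted (w₁ := 1 - γ) (w₂ := γ)
      (p₁ := (𝔼 x, ind (B x ∧ S x) * t x) / T) (p₂ := δ * ((𝔼 x, ind (B x ∧ S x)) / M))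
      (by linarith) (by linarith) (by positivity) (by positivity) (by ring)
    have h5 : γ * (δ * ((𝔼 x, ind (B x ∧ S x)) / M)) ≤ δ * ((𝔼 x, ind (B x ∧ S x)) / M) :=
      mul_le_of_le_one_left (by positivity) hγ
    rw [h3, ← hM]
    refine le_trans ?_ (mul_le_mul_of_nonneg_left (h4.trans (by linarith)) F0.le)
    refine le_trans (le_of_eq ?_) (mul_le_mul_of_nonneg_right h1 (by positivity))
    rw [Real.div_rpow c4 T0.le]
    field_simp

lemma reg2 (S : X → Y → Prop) {q0 γ : ℝ} (h0 : 0 < q0) (hγ : 0 < γ)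
    (h : q0 ≤ 𝔼 x, 𝔼 y, ind (S x y)) :
    ∃ (A : Finset X) (B : Finset Y) (q : ℝ), A.Nonempty ∧ B.Nonempty ∧ q0 ≤ q ∧
      q0 ^ (1 / γ) ≤ rat A X * rat B Y ∧
      Spread (fun (x : A) (y : B) => ind (S x y) / q) (1 / q) γ := by
  obtain ⟨A, B, C, q, hA, hB, hC, hq, hcnt, hμ, hb⟩ :=
    regularize (fun x y (_ : Unit) => ind (S x y)) (fun _ _ _ => ind_le_one _) h0 hγ
      (by simpa using h)
  have := hA.to_subtype
  have := hB.to_subtype
  have := hC.to_subtype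
  have x0 : (0 : ℝ) < A.card := by exact_mod_cast hA.card_pos
  have y0 : (0 : ℝ) < B.card := by exact_mod_cast hB.card_pos
  have z1 : C.card = 1 := le_antisymm (by simpa using Finset.card_le_univ C) hC.card_pos
  have hsp := spread_of_box (γ := γ) (fun (x : A) (y : B) (_ : C) => ind (S x y))
    (fun _ _ _ => ind_nonneg _) (fun _ _ _ => ind_le_one _) (h0.trans_le hq) le_rfl (by
      simp only [exp_eq, ← Finset.sum_div, div_div, Fintype.card_coe]
      rw [div_eq_iff (by rw [z1]; positivity)]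
      have e : ∑ x : A, ∑ y : B, ∑ z : C, ind (S x y)
          = cnt (fun x y (_ : Unit) => ind (S x y)) A B C := by
        unfold cnt
        rw [← Finset.sum_coe_sort A]
        refine Finset.sum_congr rfl fun x _ => ?_
        rw [← Finset.sum_coe_sort B]
        refine Finset.sum_congr rfl fun y _ => ?_
        rw [← Finset.sum_coe_sort C]
      rw [e, hcnt]; ring)
    (fun U W R => by
      have h := hb (U.map (Function.Embedding.subtype _)) (W.map (Function.Embedding.subtype _))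
        (R.map (Function.Embedding.subtype _))
      simp only [Finset.card_map, cnt, Finset.sum_map, Function.Embedding.coe_subtype] at h
      simpa only [Fintype.card_coe, cnt] using h)
  simp only [Fintype.expect_const] at hsp
  refine ⟨A, B, q, hA, hB, hq, ?_, hsp⟩
  simpa [z1, rat, div_mul_div_comm] using hμ

lemma exp_box (A : Finset X) (B : Finset Y) [Nonempty A] [Nonempty B] (S : X × Y → Prop)
    (h : X × Y → ℝ) : 𝔼 r, ind ((r.1 ∈ A ∧ r.2 ∈ B) ∧ S r) * h r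
      = rat A X * rat B Y * 𝔼 x : A, 𝔼 y : B, ind (S (x, y)) * h (x, y) := by
  rw [exp_prod, exp2_range (X₁ := A) (Y₁ := B) Subtype.val_injective Subtype.val_injective _
    fun x y h1 => by simpa using (of_ind_ne (left_ne_zero_of_mul h1)).1]
  simp

variable {G : X → Y → Z → ℝ} {Γ1 : X → Y → Prop} {Γ2 : X → Z → Prop} {Γ3 : Y → Z → Prop}
  {v γ : ℝ}

lemma St.stage (h : St G Γ1 Γ2 Γ3 v γ) (hG : ∀ x y z, 0 ≤ G x y z ∧ G x y z ≤ 1) {δ D L γ' : ℝ}
    (hv : Real.exp (-D) ≤ v) (hδ : 0 < δ) (hδγ : 2 * δ ≤ γ) (hγ : γ ≤ 1) (hL : δ * L ≤ γ)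
    (hD : 2 * D ≤ γ * L) (hγ' : 0 < γ') :
    ∃ (A : Finset X) (B : Finset Y) (S : A → B → Prop) (q : ℝ), A.Nonempty ∧ B.Nonempty ∧
      (∀ x y, S x y → Γ1 x y) ∧ Real.exp (-L) ≤ q ∧ Real.exp (-(L / γ')) ≤ rat A X * rat B Y ∧
      Spread (fun x y => ind (S x y) / q) (1 / q) γ' ∧
      St (fun (x : A) (y : B) z => G x y z) S (fun x z => Γ2 x z) (fun y z => Γ3 y z)
        (v * (δ / 3) ^ γ) γ := by
  have v0 : 0 < v := (Real.exp_pos _).trans_le hv
  have γ0 : 0 < γ := by linarith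
  obtain ⟨S, η, h1, η0, h2, h3⟩ := trim (fun r : X × Y => 𝔼 z, I3 Γ1 Γ2 Γ3 r.1 r.2 z * G r.1 r.2 z)
    (fun r => 𝔼 z, I3 Γ1 Γ2 Γ3 r.1 r.2 z)
    (fun r => exp_nonneg fun z => mul_nonneg (I3_bd _ _ _ _ _ _).1 (hG _ _ _).1)
    (fun r => exp_mono fun z => mul_le_of_le_one_right (I3_bd _ _ _ _ _ _).1 (hG _ _ _).2)
    (fun r => Finset.expect_le Finset.univ_nonempty fun z _ => (I3_bd _ _ _ _ _ _).2) v0 hδ hδγ hγ
    (by rw [exp_prod]; exact h.1) (by rw [exp_prod, exp_prod]; exact h.2)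
  obtain ⟨M, hM⟩ : ∃ M, M = 𝔼 r, ind (S r) := ⟨_, rfl⟩
  rw [← hM] at h1 h3
  have h4 : Real.exp (-L) ≤ M := by
    refine le_trans ?_ ((Real.rpow_le_rpow (Real.exp_pos _).le hv (by positivity)).trans h1)
    rw [← Real.exp_mul]
    refine Real.exp_le_exp.2 ?_
    rw [neg_mul, neg_le_neg_iff, ← mul_div_assoc, div_le_iff₀ γ0]
    linarith
  have M0 : 0 < M := (Real.exp_pos _).trans_le h4
  obtain ⟨A, B, q, hA, hB, hq, hμ, hsp⟩ := reg2 (fun x y => S (x, y)) M0 hγ'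
    (by rw [hM, exp_prod])
  have := hA.to_subtype
  have := hB.to_subtype
  have q0 : 0 < q := M0.trans_le hq
  have hS : ∀ r, S r → Γ1 r.1 r.2 := fun r hr =>
    (exp_ne (η0.trans_le (h2 r hr)).ne').elim fun z hz => (I3_ne (left_ne_zero_of_mul hz)).1
  have e0 : ∀ x y z, ind (S (x, y)) * I3 Γ1 Γ2 Γ3 x y z
      = ind (S (x, y)) * ind (Γ2 x z) * ind (Γ3 y z) := fun x y z => by
    by_cases h5 : S (x, y)
    · rw [I3, ind_of h5, ind_of (hS _ h5), one_mul]
    · rw [ind_not h5, zero_mul, zero_mul, zero_mul]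
  have e1 : 𝔼 x : A, 𝔼 y : B, ind (S (x, y)) * 1 = q := by
    have h5 := hsp.mean
    simp only [← Finset.expect_div] at h5
    rw [div_eq_one_iff_eq q0.ne', Finset.expect_comm] at h5
    simpa using h5
  have e2 : 𝔼 x : A, 𝔼 y : B, ind (S (x, y)) * 𝔼 z, I3 Γ1 Γ2 Γ3 x y z * G x y z
      = ms (fun (x : A) (y : B) z => G x y z) (fun x y => S (x, y)) (fun x z => Γ2 x z)
        (fun y z => Γ3 y z) := by
    simp only [Finset.mul_expect, ← mul_assoc, e0]; rfl
  have e3 : 𝔼 x : A, 𝔼 y : B, ind (S (x, y)) * 𝔼 z, I3 Γ1 Γ2 Γ3 x y z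
      = E3 (I3 (fun (x : A) (y : B) => S (x, y)) (fun x z => Γ2 x z) (fun y z => Γ3 y z)) := by
    simp only [Finset.mul_expect, e0]; rfl
  refine ⟨A, B, fun x y => S (x, y), q, hA, hB, fun x y => hS (x, y), h4.trans hq, ?_, hsp, ?_, ?_⟩
  · rw [show -(L / γ') = -L * (1 / γ') by ring, Real.exp_mul]
    exact (Real.rpow_le_rpow (Real.exp_pos _).le h4 (by positivity)).trans hμ
  · rw [← e2]
    refine (mul_pos q0 η0).trans_le ?_
    rw [← e1]
    simp only [Finset.expect_mul]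
    refine exp_mono fun x => exp_mono fun y => ?_
    by_cases h5 : S (x, y)
    · rw [mul_one]; exact mul_le_mul_of_nonneg_left (h2 _ h5) (ind_nonneg _)
    · rw [ind_not h5, zero_mul, zero_mul, zero_mul]
  · have h5 := h3 fun r => r.1 ∈ A ∧ r.2 ∈ B
    have h6 := exp_box A B S fun _ => 1
    simp only [mul_one] at h6 e1
    rw [exp_box, exp_box, h6, e1, e2, e3] at h5
    obtain ⟨μ, hμ'⟩ : ∃ μ, μ = rat A X * rat B Y := ⟨_, rfl⟩
    have μ0 : 0 < μ := hμ' ▸ mul_pos rat_pos rat_pos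
    rw [← hμ'] at h5
    have T0 := E3_nonneg fun x y z => (I3_bd (fun (x : A) (y : B) => S (x, y)) (fun x z => Γ2 x z)
      (fun y z => Γ3 y z) x y z).1
    refine le_of_mul_le_mul_left (le_trans ?_ h5) μ0
    have k1 : (1 / 3 : ℝ) ^ γ ≤ M ^ δ := by
      refine le_trans ?_ (Real.rpow_le_rpow (Real.exp_pos _).le h4 hδ.le)
      have k2 : (1 / 3 : ℝ) ≤ Real.exp (-1) := by
        rw [Real.exp_neg, one_div]
        exact inv_anti₀ (Real.exp_pos _) (by linarith [Real.exp_one_lt_d9])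
      refine (Real.rpow_le_rpow (by norm_num) k2 γ0.le).trans ?_
      rw [← Real.exp_mul, ← Real.exp_mul]
      exact Real.exp_le_exp.2 (by linarith)
    have k3 : (δ * μ) ^ γ ≤ (δ * (μ * q / M)) ^ γ := by
      refine Real.rpow_le_rpow (by positivity) (mul_le_mul_of_nonneg_left ?_ hδ.le) γ0.le
      rw [le_div_iff₀ M0]
      exact mul_le_mul_of_nonneg_left hq μ0.le
    refine le_trans (le_of_eq ?_) (mul_le_mul (mul_le_mul_of_nonneg_left k1 v0.le)
      (mul_le_mul_of_nonneg_left k3 (by positivity)) (by positivity) (by positivity))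
    rw [Real.mul_rpow μ0.le T0, Real.mul_rpow hδ.le μ0.le, div_eq_mul_one_div δ,
      Real.mul_rpow hδ.le (by norm_num), Real.rpow_sub μ0, Real.rpow_one]
    have := Real.rpow_pos_of_pos μ0 γ
    field_simp

lemma St.swap (h : St G Γ1 Γ2 Γ3 v γ) :
    St (fun x z y => G x y z) Γ2 Γ1 (fun z y => Γ3 y z) v γ := by
  have e : ∀ F : X → Y → Z → ℝ, E3 (fun x z y => F x y z) = E3 F := fun F =>
    Finset.expect_congr rfl fun x _ => Finset.expect_comm _ _ _
  have e1 : I3 Γ2 Γ1 (fun z y => Γ3 y z) = fun x z y => I3 Γ1 Γ2 Γ3 x y z := by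
    funext x z y; unfold I3; ring
  unfold St ms at h ⊢
  rw [e1]
  rwa [← e, ← e (I3 Γ1 Γ2 Γ3)] at h

lemma St.rot (h : St G Γ1 Γ2 Γ3 v γ) :
    St (fun z x y => G x y z) (fun z x => Γ2 x z) (fun z y => Γ3 y z) Γ1 v γ := by
  have e1 : I3 (fun z x => Γ2 x z) (fun z y => Γ3 y z) Γ1 = fun z x y => I3 Γ1 Γ2 Γ3 x y z := by
    funext z x y; unfold I3; ring
  unfold St ms E3 at h ⊢
  rw [e1]
  rwa [comm3, comm3 (I3 Γ1 Γ2 Γ3)] at h

lemma St.clean (h : St G Γ1 Γ2 Γ3 v γ) (hG : ∀ x y z, 0 ≤ G x y z ∧ G x y z ≤ 1) {c γ1 η : ℝ}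
    (hup : Up3 G c γ γ1) (hc : 0 ≤ c) (hv : 0 < v) (h1 : γ1 ≤ γ) (γ0 : 0 < γ) (hγ : γ < 1)
    (B : Y → Prop) (hB : 𝔼 y, ind (B y) ≤ η) (hη : c * η ^ (γ - γ1) ≤ v * (1 - γ)) :
    St G Γ1 Γ2 (fun y z => Γ3 y z ∧ ¬B y) (v * (1 - γ)) γ := by
  have e : ∀ x y z, I3 Γ1 Γ2 Γ3 x y z = I3 Γ1 Γ2 (fun y z => Γ3 y z ∧ ¬B y) x y z
      + I3 (fun x y => Γ1 x y ∧ B y) Γ2 Γ3 x y z := fun x y z => by
    by_cases h2 : B y <;> simp [I3, h2, ind_not]
  have h2 := hup (fun _ => True) B (fun _ => True) (fun x y => Γ1 x y ∧ B y) Γ2 Γ3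
    (fun _ _ h => ⟨trivial, h.2⟩) fun _ _ _ => trivial
  simp only [ind_of trivial, Fintype.expect_const, one_mul, mul_one] at h2
  obtain ⟨a1, a2, -⟩ := ms_le hG Γ1 Γ2 (fun y z => Γ3 y z ∧ ¬B y)
  obtain ⟨b1, b2, -⟩ := ms_le hG (fun x y => Γ1 x y ∧ B y) Γ2 Γ3
  have e1 : ms G Γ1 Γ2 Γ3 = ms G Γ1 Γ2 (fun y z => Γ3 y z ∧ ¬B y)
      + ms G (fun x y => Γ1 x y ∧ B y) Γ2 Γ3 := by
    simp only [ms, E3, ← Finset.expect_add_distrib, ← add_mul, ← e]
  have e2 : E3 (I3 Γ1 Γ2 Γ3) = E3 (I3 Γ1 Γ2 (fun y z => Γ3 y z ∧ ¬B y))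
      + E3 (I3 (fun x y => Γ1 x y ∧ B y) Γ2 Γ3) := by
    simp only [E3, ← Finset.expect_add_distrib, ← e]
  obtain ⟨h3, h4⟩ := h
  unfold St
  rw [e1, e2] at h4
  rw [e1] at h3
  generalize ms G Γ1 Γ2 (fun y z => Γ3 y z ∧ ¬B y) = F at *
  generalize ms G (fun x y => Γ1 x y ∧ B y) Γ2 Γ3 = F' at *
  generalize E3 (I3 Γ1 Γ2 (fun y z => Γ3 y z ∧ ¬B y)) = T at *
  generalize E3 (I3 (fun x y => Γ1 x y ∧ B y) Γ2 Γ3) = T' at *
  have T0 : 0 ≤ T := a1.trans a2
  have T1 : 0 ≤ T' := b1.trans b2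
  have T2 : 0 < T + T' := by linarith
  have h5 : F' ≤ v * (1 - γ) * T' ^ (1 - γ) := by
    refine h2.trans (le_trans ?_ (mul_le_mul_of_nonneg_right hη (by positivity)))
    rw [mul_comm (T' ^ (1 - γ)), mul_assoc]
    exact mul_le_mul_of_nonneg_left (mul_le_mul_of_nonneg_right (Real.rpow_le_rpow
      (exp_nonneg fun _ => ind_nonneg _) hB (by linarith)) (by positivity)) hc
  have k : ∀ {t : ℝ}, 0 ≤ t → t ^ (1 - γ) ≤ (T + T') ^ (1 - γ) * ((1 - γ) * (t / (T + T')) + γ) :=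
    fun {t} ht => by
      have h6 := Real.geom_mean_le_arith_mean2_weighted (w₁ := 1 - γ) (w₂ := γ)
        (p₁ := t / (T + T')) (p₂ := 1) (by linarith) γ0.le (by positivity) zero_le_one (by ring)
      rw [Real.one_rpow, mul_one, mul_one, Real.div_rpow ht T2.le,
        div_le_iff₀' (by positivity)] at h6
      exact h6
  have k1 := k T0
  have k2 := k T1
  have k3 : T / (T + T') + T' / (T + T') = 1 := by field_simp
  have k4 : T' / (T + T') ≤ 1 := (div_le_one T2).2 (by linarith)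
  have k5 : 0 < v * (T + T') ^ (1 - γ) := by positivity
  have k6 : 0 ≤ v * (1 - γ) := mul_nonneg hv.le (by linarith)
  have k7 := mul_le_mul_of_nonneg_left k1 k6
  have k8 := mul_le_mul_of_nonneg_left k2 k6
  generalize T / (T + T') = a at *
  generalize T' / (T + T') = b at *
  have k9 : (1 - γ) * ((1 - γ) * b + γ) < 1 := by
    have k0 : (1 - γ) * b + γ ≤ 1 := by nlinarith
    nlinarith
  have k10 : (1 - γ) * ((1 - γ) * a + γ) + (1 - γ) * ((1 - γ) * b + γ) ≤ 1 := by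
    rw [show a = 1 - b by linarith]; nlinarith
  constructor
  · nlinarith [mul_lt_mul_of_pos_left k9 k5]
  · nlinarith [mul_le_mul_of_nonneg_left k10 k5.le]

end Pool.Agent.Work.MP_af588c_co.GB
end

-- merged part: Pool.Agent.Work.MP_af588c_co.GB.Crs
section
/-! Spread kernels after restriction, and the lower bound for the triangle density. -/

set_option linter.unusedSectionVars false

namespace Pool.Agent.Work.MP_af588c_co.GB

open Finset
open scoped BigOperators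
open Pool.Agent.Work.MP_af588c_co.TB Pool.Agent.Work.MP_af588c_co.LB

variable {X Y Z : Type*} [Fintype X] [Fintype Y] [Fintype Z] [Nonempty X] [Nonempty Y] [Nonempty Z]
variable {X₁ Y₁ : Type*} [Fintype X₁] [Fintype Y₁] [Nonempty X₁] [Nonempty Y₁]
variable {a : X → Y → ℝ} {b : X → Z → ℝ} {P θ : ℝ} {n : ℕ}

lemma ext_bd {e : X₁ → X} (he : Function.Injective e) (u : X₁ → ℝ) {Q r μ : ℝ} (hμ : 0 < μ)
    (hr : μ ≤ r) (hQ : 0 ≤ Q) (hu : ∀ x, 0 ≤ u x ∧ u x ≤ Q) (x : X) :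
    0 ≤ Function.extend e u 0 x / r ∧ Function.extend e u 0 x / r ≤ Q / μ := by
  have h : 0 ≤ Function.extend e u 0 x ∧ Function.extend e u 0 x ≤ Q := by
    by_cases h : ∃ x1, e x1 = x
    · obtain ⟨x1, rfl⟩ := h
      rw [he.extend_apply]; exact hu x1
    · rw [Function.extend_apply' _ _ _ h]; exact ⟨le_rfl, hQ⟩
  exact ⟨div_nonneg h.1 (hμ.le.trans hr), div_le_div₀ hQ h.2 hμ hr⟩

lemma ext_ne {e : X₁ → X} {u : X₁ → ℝ} {r : ℝ} {x : X} (h : Function.extend e u 0 x / r ≠ 0) :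
    ∃ x1, e x1 = x := by
  by_contra h1
  rw [Function.extend_apply' _ _ _ h1] at h
  simp at h

lemma sp_res {S : X → Y → Prop} {q γ L M : ℝ} (h : Spread (fun x y => ind (S x y) / q) (1 / q) γ)
    (hq : Real.exp (-L) ≤ q) (hL : 0 ≤ L) {e1 : X₁ → X} {e2 : Y₁ → Y} (h1 : Function.Injective e1)
    (h2 : Function.Injective e2) (hμ : Real.exp (-M) ≤ rat X₁ X * rat Y₁ Y) (hγ : 0 ≤ γ)
    (hγθ : γ ≤ θ / 2) (hθ : θ ≤ 1) (H : 2 * (n * L + M) * γ ≤ θ / 2) :
    Sp (fun x y => ind (S (e1 x) (e2 y)) / q) (Real.exp L) θ n := by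
  have q0 : 0 < q := (Real.exp_pos _).trans_le hq
  have θ0 : 0 ≤ θ := by linarith
  refine ⟨Real.one_le_exp hL, θ0, ⟨1 / q, by positivity, ?_, fun r => ?_⟩, fun u v hu hv => ?_⟩
  · rw [Real.exp_neg, ← one_div] at hq
    exact (one_div_le q0 (Real.exp_pos _)).2 hq
  · unfold ind; beta_reduce; split_ifs <;> simp
  have r1 : 0 < rat X₁ X := rat_pos
  have r2 : 0 < rat Y₁ Y := rat_pos
  have h3 := spread_lin h hγ (by linarith) (Q := Real.exp L ^ n / Real.exp (-M)) (by positivity)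
    _ _ (ext_bd h1 u (Real.exp_pos _) (hμ.trans (mul_le_of_le_one_right r1.le (rat_le h2)))
      (by positivity) hu)
    (ext_bd h2 v (Real.exp_pos _) (hμ.trans (mul_le_of_le_one_left r2.le (rat_le h1)))
      (by positivity) hv)
  rw [exp2_range h1 h2 _ fun x y h => ⟨ext_ne (left_ne_zero_of_mul (left_ne_zero_of_mul h)),
    ext_ne (right_ne_zero_of_mul (left_ne_zero_of_mul h))⟩, exp_range h1 _ fun x h => ext_ne h,
    exp_range h2 _ fun x h => ext_ne h, ← Real.exp_nat_mul, ← Real.exp_sub, ← Real.exp_add,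
    ← Real.exp_mul] at h3
  simp only [h1.extend_apply, h2.extend_apply, ← Finset.expect_div, mul_div_cancel₀ _ r1.ne',
    mul_div_cancel₀ _ r2.ne'] at h3
  have h4 : 0 ≤ (𝔼 x, u x) * 𝔼 y, v y :=
    mul_nonneg (exp_nonneg fun x => (hu x).1) (exp_nonneg fun y => (hv y).1)
  have h5 := mul_le_mul_of_nonneg_right (exp_half θ0 hθ
    (show (n * L - -M + (n * L - -M)) * γ ≤ θ / 2 by linarith)) (add_nonneg h4 hγ)
  refine le_trans (le_of_eq ?_) (h3.trans (h5.trans (by nlinarith)))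
  simp only [Finset.mul_expect]
  refine Finset.expect_congr rfl fun x _ => Finset.expect_congr rfl fun y _ => ?_
  field_simp

lemma Sp.mono (h : Sp a P θ n) {θ' : ℝ} {n' : ℕ} (h1 : θ ≤ θ') (h2 : n' ≤ n) : Sp a P θ' n' := by
  refine ⟨h.P1, h.θ0.trans h1, h.two, fun u v hu hv => ?_⟩
  have h3 := pow_le_pow_right₀ h.P1 h2
  have h4 : 0 ≤ (𝔼 x, u x) * 𝔼 y, v y :=
    mul_nonneg (exp_nonneg fun x => (hu x).1) (exp_nonneg fun y => (hv y).1)
  refine (h.sp u v (fun x => ⟨(hu x).1, (hu x).2.trans h3⟩)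
    fun y => ⟨(hv y).1, (hv y).2.trans h3⟩).trans ?_
  nlinarith

lemma row_ge {γ : ℝ} (h : Spread a P γ) (hγ : 0 ≤ γ) (hγ1 : γ ≤ 1) (x : X) :
    1 - γ ≤ 𝔼 y, a x y :=
  Spread.deg_ge (a := fun y x => a x y) ⟨fun _ _ => h.nonneg _ _, fun _ _ => h.le _ _,
    by rw [Finset.expect_comm]; exact h.mean, fun B A => by
      rw [Finset.sum_comm, mul_comm, mul_comm ((B.card : ℝ) / _)]; exact h.box A B⟩ hγ hγ1 x

lemma Sp.bad (h : Sp a P θ n) {γ ε : ℝ} (hm : ∀ x, 1 - γ ≤ 𝔼 y, a x y) :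
    ε * 𝔼 y, ind (deg a y < 1 - ε) ≤ γ + 2 * θ := by
  have P1 : (1 : ℝ) ≤ P ^ n := one_le_pow₀ h.P1
  have h1 := h.sp (fun _ => 1) (fun y => 1 - ind (deg a y < 1 - ε)) (fun _ => ⟨zero_le_one, P1⟩)
    fun y => by constructor <;> linarith [ind_le_one (deg a y < 1 - ε), ind_nonneg (deg a y < 1 - ε)]
  have h2 : 1 - γ ≤ 𝔼 y, deg a y := by
    unfold deg
    rw [Finset.expect_comm]
    exact le_of_eq_of_le (Fintype.expect_const _).symm (exp_mono hm)
  have h3 : 𝔼 y, deg a y ≤ 𝔼 y, ((1 - ind (deg a y < 1 - ε)) * deg a y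
      + (1 - ε) * ind (deg a y < 1 - ε)) := exp_mono fun y => by
    by_cases h4 : deg a y < 1 - ε
    · rw [ind_of h4]; linarith
    · rw [ind_not h4]; linarith
  have h5 : 𝔼 y, (1 - ind (deg a y < 1 - ε)) * deg a y
      = 𝔼 x, 𝔼 y, 1 * (1 - ind (deg a y < 1 - ε)) * a x y := by
    rw [Finset.expect_comm]
    simp only [one_mul, ← Finset.mul_expect]
    rfl
  rw [Finset.expect_add_distrib, h5, ← Finset.mul_expect] at h3
  rw [Finset.expect_sub_distrib, Fintype.expect_const, Fintype.expect_const] at h1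
  nlinarith [mul_nonneg h.θ0 (exp_nonneg fun y => ind_nonneg (deg a y < 1 - ε))]

lemma Sp.kap_moment (h : Sp a P θ n) {ε : ℝ} (hd : ∀ y, 1 - ε ≤ deg a y) (hε : 0 ≤ ε) {s q : ℕ}
    (hs : Odd s) (hεs : 2 * ε * s ≤ 1) (hθs : 4 * θ * s ≤ 1) (hn : s ≤ n) (hn2 : 2 ≤ n)
    (hq : q ≤ s) : (s.choose q : ℝ) * 𝔼 y, 𝔼 y', kap a a y y' ^ q ≤ 12 := by
  have h1 : (s.choose q : ℝ) * 𝔼 y, 𝔼 y', kap a a y y' ^ q
      ≤ 𝔼 y, 𝔼 y', (kap a a y y' + 1) ^ s := by
    simp only [add_pow, one_pow, mul_one, Finset.expect_sum_comm, ← Finset.expect_mul]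
    rw [mul_comm]
    exact Finset.single_le_sum
      (f := fun m => (𝔼 y, 𝔼 y', kap a a y y' ^ m) * (s.choose m : ℝ))
      (fun m _ => mul_nonneg (moment_psd (fun x y => a x y - 1) m) (Nat.cast_nonneg _))
      (Finset.mem_range.2 (Nat.lt_succ_of_le hq))
  have he : (1 + 2 * ε) ^ s ≤ 3 := by linarith [pow_small hε hεs]
  have h5 : ∀ y y', (kap a a y y' + 1) ^ s ≤ 3 * (cod a a y y' ^ s + 1) := by
    intro y y'
    have hc : 0 ≤ cod a a y y' := exp_nonneg fun x => mul_nonneg (h.bd _ _).1 (h.bd _ _).1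
    have h6 : kap a a y y' + 1 ≤ max (cod a a y y') 1 * (1 + 2 * ε) := by
      rw [kap_eq]
      nlinarith [hd y, hd y', le_max_left (cod a a y y') 1, le_max_right (cod a a y y') 1]
    have h9 := hs.strictMono_pow.monotone h6
    simp only [mul_pow] at h9
    have h10 : max (cod a a y y') 1 ^ s ≤ cod a a y y' ^ s + 1 := by
      have := pow_nonneg hc s
      rcases le_total (cod a a y y') 1 with h11 | h11
      · rw [max_eq_right h11, one_pow]; linarith
      · rw [max_eq_left h11]; linarith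
    have h12 : 0 ≤ max (cod a a y y') 1 ^ s := pow_nonneg (le_trans hc (le_max_left _ _)) s
    nlinarith
  have h13 : 𝔼 y, 𝔼 y', (kap a a y y' + 1) ^ s ≤ 𝔼 y, 𝔼 y', 3 * (cod a a y y' ^ s + 1) :=
    exp_mono fun y => exp_mono fun y' => h5 y y'
  simp only [← Finset.mul_expect, Finset.expect_add_distrib, Fintype.expect_const] at h13
  have h14 : 𝔼 y, 𝔼 y', cod a a y y' ^ s ≤ (1 + 2 * θ) ^ (2 * s) := by
    refine le_of_eq_of_le ?_ (h.t_le (ι := Fin s) (κ := Fin 2) (by simpa using hn)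
      (by simpa using hn2) _ Finset.univ (by simp [mul_comm]))
    unfold cod T pe
    rw [moment_expand]
    refine Finset.expect_congr rfl fun x _ => ?_
    rw [← sq, exp_pow]
    simp only [mul_one, Fintype.prod_prod_type_right]
  have h15 := pow_small h.θ0 (k := 2 * s) (by push_cast; linarith)
  push_cast at h15
  linarith

lemma cross3 (ha : Sp a P θ n) (hb : Sp b P θ n) {ε : ℝ} (da : ∀ y, 1 - ε ≤ deg a y)
    (db : ∀ z, 1 - ε ≤ deg b z) (hε : 0 ≤ ε) {s q : ℕ} (hs : Odd s) (hεs : 2 * ε * s ≤ 1)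
    (hθs : 4 * θ * s ≤ 1) (hn : s ≤ n) (hq0 : 0 < q) (hqe : Even q) (hq : 2 * q ≤ s)
    (hPq : 12 * P ≤ 3 ^ q) (c : Y → Z → ℝ) (hc0 : ∀ y z, 0 ≤ c y z) (hc1 : ∀ y z, c y z ≤ P)
    (hc : 𝔼 y, 𝔼 z, c y z = 1) :
    1 - 2 * ε - 6 * q / s ≤ E3 fun x y z => a x y * b x z * c y z := by
  have hs1 : (1 : ℝ) ≤ s := by exact_mod_cast hs.pos
  have hq1 : (0 : ℝ) < q := by exact_mod_cast hq0
  have hch := choose_lower hq0 hq
  have hC : (0 : ℝ) < s.choose q := lt_of_lt_of_le (by positivity) hch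
  have h1 := ha.kap_moment da hε hs hεs hθs hn (by omega) (show q ≤ s by omega)
  have h2 := hb.kap_moment db hε hs hεs hθs hn (by omega) (show q ≤ s by omega)
  rw [mul_comm, ← le_div_iff₀ hC] at h1 h2
  have h3 := moment_cs (fun x y => a x y - 1) (fun x z => b x z - 1) q h1 h2
  have h4 : (𝔼 y, 𝔼 z, c y z * kap a b y z) ^ q ≤ P * (12 / s.choose q) := by
    have h5 := jensen_even (fun p : Y × Z => c p.1 p.2) (fun p => kap a b p.1 p.2)
      (fun p => hc0 _ _) (by rw [exp_prod]; exact hc) hqe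
    rw [exp_prod, exp_prod] at h5
    refine h5.trans ?_
    have h6 : 𝔼 y, 𝔼 z, c y z * kap a b y z ^ q ≤ 𝔼 y, 𝔼 z, P * kap a b y z ^ q :=
      exp_mono fun y => exp_mono fun z =>
        mul_le_mul_of_nonneg_right (hc1 y z) (hqe.pow_nonneg _)
    simp only [← Finset.mul_expect] at h6
    exact h6.trans (mul_le_mul_of_nonneg_left h3 (by linarith [ha.P1]))
  have h7 : P * (12 / s.choose q) ≤ (6 * q / s) ^ q := by
    rw [← mul_div_assoc, div_le_iff₀ hC]
    have e : (6 * q / s : ℝ) ^ q * ((s : ℝ) / (2 * q)) ^ q = 3 ^ q := by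
      rw [← mul_pow]; congr 1; field_simp; norm_num
    have := mul_le_mul_of_nonneg_left hch (show (0 : ℝ) ≤ (6 * q / s) ^ q by positivity)
    linarith
  have h8 : |𝔼 y, 𝔼 z, c y z * kap a b y z| ≤ 6 * q / s := by
    apply le_of_pow_le_pow_left₀ hq0.ne' (by positivity)
    rw [hqe.pow_abs]
    exact h4.trans h7
  have h9 : 𝔼 y, 𝔼 z, (c y z * kap a b y z + (1 - 2 * ε) * c y z)
      ≤ 𝔼 y, 𝔼 z, 𝔼 x, a x y * b x z * c y z := by
    refine exp_mono fun y => exp_mono fun z => ?_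
    rw [kap_eq, ← Finset.expect_mul]
    unfold cod
    nlinarith [da y, db z, hc0 y z]
  simp only [Finset.expect_add_distrib, ← Finset.mul_expect, hc] at h9
  rw [comm3] at h9
  have := neg_abs_le (𝔼 y, 𝔼 z, c y z * kap a b y z)
  unfold E3
  linarith

end Pool.Agent.Work.MP_af588c_co.GB
end

-- merged part: Pool.Agent.Work.MP_af588c_co.GB.Reg
section
/-! From the set inequalities to the regular weighted system. -/

set_option linter.unusedSectionVars false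

namespace Pool.Agent.Work.MP_af588c_co.GB

open Finset
open scoped BigOperators
open Pool.Agent.Work.MP_af588c_co.TB Pool.Agent.Work.MP_af588c_co.LB

variable {X Y Z : Type*} [Fintype X] [Fintype Y] [Fintype Z] [Nonempty X] [Nonempty Y] [Nonempty Z]

lemma Two.eq {α : Type*} {f : α → ℝ} {Λ : ℝ} (h : Two f Λ) :
    ∃ (l : ℝ) (A : α → Prop), 0 < l ∧ l ≤ Λ ∧ f = fun x => l * ind (A x) := by
  obtain ⟨l, h0, h1, h2⟩ := h
  refine ⟨l, fun x => f x ≠ 0, h0, h1, funext fun x => ?_⟩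
  by_cases h3 : f x = 0
  · rw [ind_not (not_not.2 h3), mul_zero, h3]
  · rw [ind_of h3, mul_one, (h2 x).resolve_left h3]

lemma E3_smul (c : ℝ) (F : X → Y → Z → ℝ) : E3 (fun x y z => c * F x y z) = c * E3 F := by
  simp only [E3, Finset.mul_expect]

lemma reg3_of {G : X → Y → Z → ℝ} (hG : ∀ x y z, G x y z = 0 ∨ G x y z = 1) {Γ1 : X → Y → Prop}
    {Γ2 : X → Z → Prop} {Γ3 : Y → Z → Prop} {qa qb qc v c γ γ1 P R θ σ : ℝ} {n m : ℕ}
    (ha : Sp (fun x y => ind (Γ1 x y) / qa) P θ n) (hb : Sp (fun x z => ind (Γ2 x z) / qb) P θ n)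
    (hc : Sp (fun y z => ind (Γ3 y z) / qc) P θ n) (qa0 : 0 < qa) (qb0 : 0 < qb) (qc0 : 0 < qc)
    (Q1 : qa * qb * qc ≤ 1) (hst : St G Γ1 Γ2 Γ3 v γ) (hup : Up3 G c γ γ1) (v0 : 0 < v)
    (c0 : 0 ≤ c) (σ0 : 0 < σ) (σ1 : σ ≤ 1)
    (hτ : σ ≤ E3 fun x y z => ind (Γ1 x y) / qa * (ind (Γ2 x z) / qb) * (ind (Γ3 y z) / qc))
    (R1 : 1 ≤ R) (hR : 1 / (v * σ) ≤ R) (h1 : 0 ≤ γ1) (h12 : γ1 ≤ γ) (h2 : γ ≤ θ / 2) (hθ : θ ≤ 1)
    (hκ : c / (v * σ) * (R ^ m * R ^ m * R ^ m) ^ γ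
      * ((P ^ m * P ^ m * R ^ m) * (P ^ m * P ^ m * R ^ m) * (P ^ m * P ^ m * R ^ m)) ^ γ1 ≤ 1 + θ) :
    ∃ p, v * σ ≤ p ∧ Reg3 (fun x y => ind (Γ1 x y) / qa) (fun x z => ind (Γ2 x z) / qb)
      (fun y z => ind (Γ3 y z) / qc) (fun x y z => G x y z / p) P R θ n m := by
  obtain ⟨Q, hQ⟩ : ∃ Q, Q = qa * qb * qc := ⟨_, rfl⟩
  obtain ⟨ρ, hρ⟩ : ∃ ρ, ρ = ms G Γ1 Γ2 Γ3 := ⟨_, rfl⟩
  have Q0 : 0 < Q := by rw [hQ]; positivity
  have ρ0 : 0 < ρ := hρ ▸ hst.1
  have γ0 : 0 ≤ γ := h1.trans h12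
  rw [← hQ] at Q1
  have e1 : ∀ x y z, ind (Γ1 x y) / qa * (ind (Γ2 x z) / qb) * (ind (Γ3 y z) / qc)
      = 1 / Q * I3 Γ1 Γ2 Γ3 x y z := fun x y z => by rw [hQ, I3]; field_simp
  simp only [e1, E3_smul] at hτ
  have k1 : v * σ * Q ^ (1 - γ) ≤ ρ := by
    rw [one_div, ← div_eq_inv_mul, le_div_iff₀ Q0] at hτ
    refine le_trans ?_ ((mul_le_mul_of_nonneg_left
      (Real.rpow_le_rpow (by positivity) hτ (by linarith)) v0.le).trans (hρ ▸ hst.2))
    rw [Real.mul_rpow σ0.le Q0.le, mul_assoc]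
    refine mul_le_mul_of_nonneg_left (mul_le_mul_of_nonneg_right ?_ (by positivity)) v0.le
    conv_lhs => rw [← Real.rpow_one σ]
    exact Real.rpow_le_rpow_of_exponent_ge σ0 σ1 (by linarith)
  have k2 : v * σ ≤ ρ / Q := by
    rw [le_div_iff₀ Q0]
    refine le_trans (mul_le_mul_of_nonneg_left ?_ (by positivity)) k1
    conv_lhs => rw [← Real.rpow_one Q]
    exact Real.rpow_le_rpow_of_exponent_ge Q0 Q1 (by linarith)
  refine ⟨ρ / Q, k2, ha, hb, hc, R1, ⟨1 / (ρ / Q), by positivity,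
    (one_div_le_one_div_of_le (by positivity) k2).trans hR, fun r => ?_⟩, le_of_eq ?_,
    fun U V W w1 w2 w3 hU hV hW hw1 hw2 hw3 => ?_⟩
  · rcases hG r.1 r.2.1 r.2.2 with h | h <;> simp [h]
  · have e2 : ∀ x y z, 1 / Q * I3 Γ1 Γ2 Γ3 x y z * (G x y z / (ρ / Q))
        = 1 / ρ * (I3 Γ1 Γ2 Γ3 x y z * G x y z) := fun x y z => by field_simp
    simp only [e1, e2, ← Finset.mul_expect]
    rw [one_div, eq_inv_mul_iff_mul_eq₀ ρ0.ne', mul_one, hρ]
    rfl
  obtain ⟨l1, A, a1, b1, rfl⟩ := hU.eq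
  obtain ⟨l2, B, a2, b2, rfl⟩ := hV.eq
  obtain ⟨l3, C, a3, b3, rfl⟩ := hW.eq
  obtain ⟨l4, W1, a4, b4, rfl⟩ := hw1.eq
  obtain ⟨l5, W2, a5, b5, rfl⟩ := hw2.eq
  obtain ⟨l6, W3, a6, b6, rfl⟩ := hw3.eq
  have k3 := hup A B C (fun x y => (A x ∧ B y) ∧ W1 (x, y) ∧ Γ1 x y)
    (fun x z => C z ∧ W2 (x, z) ∧ Γ2 x z) (fun y z => W3 (y, z) ∧ Γ3 y z) (fun _ _ h => h.1)
    fun _ _ h => h.1
  have T0 := E3_nonneg fun x y z => (I3_bd (fun x y => (A x ∧ B y) ∧ W1 (x, y) ∧ Γ1 x y)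
    (fun x z => C z ∧ W2 (x, z) ∧ Γ2 x z) (fun y z => W3 (y, z) ∧ Γ3 y z) x y z).1
  have e3 : ∀ x y z, l1 * ind (A x) * (l2 * ind (B y)) * (l3 * ind (C z))
      * (l4 * ind (W1 (x, y)) * (l5 * ind (W2 (x, z))) * (l6 * ind (W3 (y, z))))
      * (1 / Q * I3 Γ1 Γ2 Γ3 x y z) = l1 * l2 * l3 * (l4 * l5 * l6) / Q
        * I3 (fun x y => (A x ∧ B y) ∧ W1 (x, y) ∧ Γ1 x y) (fun x z => C z ∧ W2 (x, z) ∧ Γ2 x z)
          (fun y z => W3 (y, z) ∧ Γ3 y z) x y z := fun x y z => by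
    simp only [I3, ind_and]; ring
  have e4 : 𝔼 x, 𝔼 y, 𝔼 z, l1 * ind (A x) * (l2 * ind (B y)) * (l3 * ind (C z))
      = l1 * l2 * l3 * ((𝔼 x, ind (A x)) * (𝔼 y, ind (B y)) * 𝔼 z, ind (C z)) := by
    simp only [← Finset.mul_expect, ← Finset.expect_mul]; ring
  have β0 : 0 ≤ (𝔼 x, ind (A x)) * (𝔼 y, ind (B y)) * 𝔼 z, ind (C z) :=
    mul_nonneg (mul_nonneg (exp_nonneg fun _ => ind_nonneg _) (exp_nonneg fun _ => ind_nonneg _))
      (exp_nonneg fun _ => ind_nonneg _)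
  simp only [e1, e3, e4, mul_assoc (_ / Q), ← mul_div_assoc _ _ (ρ / Q), ← Finset.expect_div,
    ← Finset.mul_expect _ _ (_ / Q)]
  change _ * ms G _ _ _ / _ ≤ _ * (_ * E3 (I3 _ _ _)) + _ + _
  change 0 ≤ E3 (I3 _ _ _) at T0
  generalize ms G _ _ _ = F at k3 ⊢
  generalize E3 (X := X) (Y := Y) (Z := Z) (I3 _ _ _) = T at k3 T0 ⊢
  generalize (𝔼 x, ind (A x)) * (𝔼 y, ind (B y)) * 𝔼 z, ind (C z) = β at k3 β0 ⊢
  have P0 : 0 < P := by linarith [ha.P1]
  have k4 : c / (v * σ) * (l4 * l5 * l6) ^ γ * (l1 * l2 * l3 * 1) ^ γ1 ≤ 1 + θ := by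
    refine le_trans ?_ hκ
    rw [mul_one]
    gcongr
  generalize l1 * l2 * l3 = Λ, mul_pos (mul_pos a1 a2) a3 = Λ0 at k4 ⊢
  generalize l4 * l5 * l6 = H, mul_pos (mul_pos a4 a5) a6 = H0 at k4 ⊢
  have k5 := alg (W := Λ * H / Q * T) (B := Λ * β) (C := 1) (by positivity) H0 Λ0 one_pos
    (by positivity) (by positivity) zero_le_one h1 h12 (by linarith) k4
  rw [show Λ * H / Q * T / (Λ * H) = T / Q by field_simp, mul_div_cancel_left₀ _ Λ0.ne',
    Real.div_rpow T0 Q0.le] at k5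
  simp only [div_one, Real.one_rpow, mul_one] at k5
  have k6 : Λ * H / Q * F / (ρ / Q) ≤ Λ * H * (c / (v * σ) * (T ^ (1 - γ) / Q ^ (1 - γ))
      * β ^ (γ - γ1)) := by
    rw [show Λ * H / Q * F / (ρ / Q) = Λ * H * (F / ρ) by field_simp]
    refine mul_le_mul_of_nonneg_left ((div_le_div₀ (by positivity) k3 (by positivity) k1).trans
      (le_of_eq ?_)) (by positivity)
    field_simp
  refine (k6.trans k5).trans ?_
  have k7 : (1 + θ) * γ ≤ θ := by nlinarith
  nlinarith [mul_le_mul_of_nonneg_right k7 (mul_nonneg Λ0.le β0)]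

end Pool.Agent.Work.MP_af588c_co.GB
end

-- merged part: Pool.Agent.Work.MP_af588c_co.GB.Param
section
/-! Construction of the regular system. -/

set_option linter.unusedSectionVars false

namespace Pool.Agent.Work.MP_af588c_co.GB

open Finset
open scoped BigOperators
open Pool.Agent.Work.MP_af588c_co.TB Pool.Agent.Work.MP_af588c_co.LB

variable {X Y Z : Type*} [Fintype X] [Fintype Y] [Fintype Z] [Nonempty X] [Nonempty Y] [Nonempty Z]
variable {X₁ Y₁ Z₁ : Type*} [Fintype X₁] [Fintype Y₁] [Fintype Z₁] [Nonempty X₁] [Nonempty Y₁]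
  [Nonempty Z₁]

lemma core_res (G : X → Y → Z → ℝ) (hG0 : ∀ x y z, 0 ≤ G x y z) {e1 : X₁ → X} {e2 : Y₁ → Y}
    {e3 : Z₁ → Z} (h1 : Function.Injective e1) (h2 : Function.Injective e2)
    (h3 : Function.Injective e3) {a : X₁ → Y₁ → ℝ} {b : X₁ → Z₁ → ℝ} {c : Y₁ → Z₁ → ℝ}
    {p0 p L R θ M : ℝ} {s u n m : ℕ}
    (h : Reg3 a b c (fun x y z => G (e1 x) (e2 y) (e3 z) / p) (Real.exp L) R θ n m) (hs : 1 ≤ s)
    (sm : Sm3 (Fin s) (Fin s) (Fin s) θ n m) (hp0 : 0 < p0) (hp : p0 ≤ p)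
    (S : Finset (Fin s × Fin s × Fin s)) (hu : 1 ≤ u) (ha : Sp a (Real.exp L) θ (u * s))
    (hμ : Real.exp (-M) ≤ rat X₁ X * rat Y₁ Y * rat Z₁ Z) :
    (p0 ^ S.card / 3) ^ (u * u * u) * Real.exp (-(2 * θ * (u * s * (u * s) * u)
      + L * (3 * (s * s) * (u * u)) + M * (s * u))) ≤ K3 (pt G S) u := by
  have p1 : 0 < p := hp0.trans_le hp
  have hθ := h.ha.θ0
  have hcb := core3 (G := fun x y z => G (e1 x) (e2 y) (e3 z)) h hs sm p1.le
    (fun x y z => by field_simp) S hu ha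
  have hr := K3_restrict (pt G S) (fun _ _ _ => Finset.prod_nonneg fun _ _ => hG0 _ _ _)
    (fun x : Fin s → X₁ => e1 ∘ x) (fun y : Fin s → Y₁ => e2 ∘ y) (fun z : Fin s → Z₁ => e3 ∘ z)
    h1.comp_left h2.comp_left h3.comp_left u
  simp only [Fintype.card_fun, Fintype.card_fin, Nat.cast_pow, ← div_pow, ← mul_pow] at hr
  refine le_trans ?_ hr
  rw [mul_assoc] at hμ
  have k2 := pow_le_pow_left₀ (by positivity) (pow_le_pow_left₀ (Real.exp_pos _).le hμ s) u
  rw [← Real.exp_nat_mul, ← Real.exp_nat_mul] at k2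
  have k4 : ((1 + 2 * θ) ^ (u * s * (u * s))) ^ u ≤ Real.exp (2 * θ * (u * s * (u * s) * u)) := by
    rw [← pow_mul, mul_comm (2 * θ), ← Nat.cast_mul, ← Nat.cast_mul, ← Nat.cast_mul,
      Real.exp_nat_mul]
    exact pow_le_pow_left₀ (by positivity) (by linarith [Real.add_one_le_exp (2 * θ)]) _
  have k5 : (p0 ^ S.card / 3) ^ (u * u * u) ≤ (p ^ S.card / 3) ^ (u * u * u) := by gcongr
  have hK0 : 0 ≤ K3 (pt (fun x y z => G (e1 x) (e2 y) (e3 z)) S) u :=
    exp_nonneg fun x => exp_nonneg fun y =>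
      pow_nonneg (F_nonneg (fun _ _ _ => Finset.prod_nonneg fun _ _ => hG0 _ _ _) _ _ _) _
  rw [div_pow, ← pow_mul, div_le_iff₀ (by positivity), ← Real.exp_nat_mul] at hcb
  have k6 := (k5.trans hcb).trans (mul_le_mul_of_nonneg_left k4 (by positivity))
  refine (mul_le_mul_of_nonneg_right k6 (Real.exp_pos _).le).trans
    (le_trans (le_of_eq ?_) (mul_le_mul_of_nonneg_right k2 hK0))
  rw [mul_comm (Real.exp _) (K3 _ _), mul_comm (Real.exp _) (K3 _ _), mul_assoc, mul_assoc,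
    ← Real.exp_add, ← Real.exp_add]
  congr 2
  push_cast
  ring

lemma exp_neg_le {x : ℝ} (h0 : 0 ≤ x) (h : x ≤ 1 / 2) : Real.exp (-(2 * x)) ≤ 1 - x := by
  rw [Real.exp_neg, inv_le_comm₀ (Real.exp_pos _) (by linarith)]
  refine le_trans ?_ (Real.add_one_le_exp _)
  rw [inv_le_iff_one_le_mul₀ (by linarith)]
  nlinarith

lemma rat_self : rat X X = 1 := div_self (by exact_mod_cast Fintype.card_ne_zero)

lemma div_rat {v μ M γ : ℝ} (hv : 0 ≤ v) (hγ : 0 ≤ γ) (h : Real.exp (-M) ≤ μ) :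
    v / μ ^ γ ≤ v * Real.exp (γ * M) := by
  have h1 := Real.rpow_le_rpow (Real.exp_pos _).le h hγ
  rw [← Real.exp_mul, neg_mul, Real.exp_neg, mul_comm M] at h1
  rw [← div_inv_eq_mul]
  exact div_le_div_of_nonneg_left hv (by positivity) h1

lemma q_le_one {S : X → Y → Prop} {q γ : ℝ} (h : Spread (fun x y => ind (S x y) / q) (1 / q) γ)
    (hq : 0 < q) : q ≤ 1 := by
  rw [← one_le_inv₀ hq, ← one_div]
  rw [← h.mean]
  conv_rhs => rw [h.mean]
  exact Finset.expect_le Finset.univ_nonempty fun y _ =>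
    Finset.expect_le Finset.univ_nonempty fun x _ => h.le x y

theorem param3 (G : X → Y → Z → ℝ) (hG : ∀ x y z, G x y z = 0 ∨ G x y z = 1)
    {D θ γ γ1 δ l L γa γb γc θa θb ε : ℝ} (hmean : Real.exp (-D) ≤ E3 G) (s u q r : ℕ) (hs : 1 ≤ s)
    (hu : 1 ≤ u) (S : Finset (Fin s × Fin s × Fin s)) (hD : 0 ≤ D) (hL : 0 ≤ L) (hl : 0 ≤ l)
    (h1 : 0 < γ1) (h12 : 2 * γ1 ≤ γ) (hδ : 0 < δ) (hδγ : 2 * δ ≤ γ) (hδL : δ * L ≤ γ)
    (hDL : 2 * (D + 1) ≤ γ * L) (hδl : 3 / δ ≤ Real.exp l) (ha : 0 < γa) (hb : 0 < γb)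
    (hc : 0 < γc) (ha' : γa ≤ θa / 2) (hab : θa ≤ θb) (hb' : γb ≤ θb / 2) (hbθ : θb ≤ θ)
    (hc' : γc ≤ θ / 2) (hbε : γb ≤ ε) (H1 : 24 * θ * (s * (s * s) : ℕ) ≤ 1)
    (H2 : 2 * (L / γb) * γa ≤ θa / 2) (H3 : γa + 2 * θa ≤ ε * Real.exp (-(4 * l + 6)))
    (H4 : 2 * (u * s * L + (L / γb + L / γc)) * γa ≤ θb / 2)
    (H5 : 2 * (r * L + L / γc) * γb ≤ θb / 2) (H6 : 2 * (2 * s * L) * γc ≤ θ / 2)
    (H7 : γ1 * (L / γa + L / γb + L / γc) ≤ γ)
    (H8 : γ1 * (3 * (s * (s * s) : ℕ) * (2 * L + (D + 1)))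
      + γ * (3 * l + 3 + 3 * (s * (s * s) : ℕ) * (D + 1)) ≤ θ / 4)
    (hr : Odd r) (hq : Even q) (hqL : L + 3 ≤ q) (hqr : 2 * q ≤ r) (hsr : 2 * s ≤ r)
    (hru : r ≤ u * s) (hεr : 2 * ε * r ≤ 1) (hθr : 4 * θb * r ≤ 1) (H9 : 2 * ε + 6 * q / r ≤ θ / 8) :
    ((5 / 6 * Real.exp (-D)) ^ S.card / 3) ^ (u * u * u) * Real.exp (-(2 * θ * (u * s * (u * s) * u)
      + L * (3 * (s * s) * (u * u)) + (D / γ1 + (L / γa + L / γb + L / γc)) * (s * u)))
      ≤ K3 (pt G S) u := by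
  have hG1 : ∀ x y z, 0 ≤ G x y z ∧ G x y z ≤ 1 := fun x y z => by
    rcases hG x y z with h | h <;> simp [h]
  obtain ⟨m, hm⟩ : ∃ m, m = s * (s * s) := ⟨_, rfl⟩
  rw [← hm] at H1 H8
  have m1 : (1 : ℝ) ≤ m := by exact_mod_cast hm ▸ Nat.mul_pos hs (Nat.mul_pos hs hs)
  have γ0 : 0 < γ := by linarith
  have θ1 : θ ≤ 1 / 24 := by nlinarith
  have ε0 : 0 < ε := hb.trans_le hbε
  have w1 : 0 ≤ γ1 * (3 * m * (2 * L + (D + 1))) := by positivity
  have w2 : 0 ≤ γ * (3 * m * (D + 1)) := by positivity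
  have w3 : 0 ≤ γ * l := by positivity
  have w4 := div_nonneg hL ha.le
  have w5 := div_nonneg hL hb.le
  have w6 := div_nonneg hL hc.le
  have n1 := exp_neg_le γ0.le (by linarith)
  obtain ⟨t, ht⟩ : ∃ t, t = (δ / 3) ^ γ := ⟨_, rfl⟩
  have t1 : Real.exp (-(γ * l)) ≤ t := by
    rw [ht, mul_comm, ← neg_mul, Real.exp_mul]
    refine Real.rpow_le_rpow (Real.exp_pos _).le ?_ γ0.le
    rw [Real.exp_neg, inv_le_comm₀ (Real.exp_pos _) (by positivity), inv_div]
    exact hδl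
  obtain ⟨A0, B0, C0, Γ1, Γ2, Γ3, v, hA0, hB0, hC0, hv, hμ0, st0, up0⟩ :=
    stage0 G hG1 γ0.le h1 hmean
  have := hA0.to_subtype
  have := hB0.to_subtype
  have := hC0.to_subtype
  have v0 : 0 < v := (Real.exp_pos _).trans_le hv
  have vv : ∀ {x w : ℝ}, Real.exp (-x) ≤ w → x ≤ 1 → Real.exp (-(D + 1)) ≤ v * w := fun h h' => by
    refine le_trans ?_ (mul_le_mul hv h (Real.exp_pos _).le v0.le)
    rw [← Real.exp_add]
    exact Real.exp_le_exp.2 (by linarith)
  have em : ∀ {x y a b : ℝ}, Real.exp (-x) ≤ a → Real.exp (-y) ≤ b → Real.exp (-(x + y)) ≤ a * b :=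
    fun h h' => by
      rw [neg_add, Real.exp_add]
      exact mul_le_mul h h' (Real.exp_pos _).le ((Real.exp_pos _).le.trans h)
  obtain ⟨A1, B1, S1, qa, hA1, hB1, -, hqa, hμ1, sp1, st1⟩ := st0.stage (fun _ _ _ => hG1 _ _ _)
    (D := D + 1) ((Real.exp_le_exp.2 (by linarith)).trans hv) hδ hδγ (by linarith) hδL hDL ha
  have := hA1.to_subtype
  have := hB1.to_subtype
  rw [← ht] at st1
  obtain ⟨A2, C2, S2, qb, hA2, hC2, -, hqb, hμ2, sp2, st2⟩ := st1.swap.stage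
    (fun _ _ _ => hG1 _ _ _) (vv t1 (by linarith)) hδ hδγ (by linarith) hδL hDL hb
  have := hA2.to_subtype
  have := hC2.to_subtype
  rw [← ht, mul_assoc] at st2
  have r1 : Real.exp (-(L / γb)) ≤ rat A2 A1 :=
    hμ2.trans (mul_le_of_le_one_right rat_pos.le (rat_le Subtype.val_injective))
  have bad := (sp_res (n := 0) sp1 hqa hL (X₁ := A2) Subtype.val_injective Function.injective_id
    (by rwa [rat_self, mul_one]) ha.le ha' (by linarith) (by simpa using H2)).bad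
    (ε := ε) fun x => row_ge sp1 ha.le (by linarith) x
  have t2 := em (em t1 t1) n1
  have μ2 : Real.exp (-(L / γa + L / γb)) ≤ rat A2 A0 * rat B1 B0 * rat C2 C0 := by
    refine (em hμ1 hμ2).trans (le_of_eq ?_)
    rw [← rat_mul (X₂ := A2) (X₁ := A1) (X := A0)]; ring
  have st2' := st2.swap.clean (fun _ _ _ => hG1 _ _ _) (up0.comap (X₁ := A2) (Y₁ := B1) (Z₁ := C2)
    (Subtype.val_injective.comp Subtype.val_injective) Subtype.val_injective Subtype.val_injective)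
    (div_nonneg v0.le (Real.rpow_nonneg ((Real.exp_pos _).le.trans μ2) _))
    (mul_pos v0 ((Real.exp_pos _).trans_le (em t1 t1))) (by linarith) γ0 (by linarith) _
    (le_of_mul_le_mul_left (bad.trans H3) ε0) (by
      refine (mul_le_mul_of_nonneg_right (div_rat v0.le h1.le μ2) (by positivity)).trans ?_
      rw [mul_assoc, mul_assoc, ← Real.exp_mul, ← Real.exp_add]
      refine mul_le_mul_of_nonneg_left (le_trans (Real.exp_le_exp.2 ?_) t2) v0.le
      nlinarith [mul_nonneg h1.le w6])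
  rw [mul_assoc] at st2'
  obtain ⟨B3, C3, S3, qc, hB3, hC3, hS3, hqc, hμ3, sp3, st3⟩ := st2'.rot.rot.stage
    (fun _ _ _ => hG1 _ _ _) (vv t2 (by linarith)) hδ hδγ (by linarith) hδL hDL hc
  have := hB3.to_subtype
  have := hC3.to_subtype
  rw [← ht, mul_assoc] at st3
  have qa0 := (Real.exp_pos _).trans_le hqa
  have qb0 := (Real.exp_pos _).trans_le hqb
  have qc0 := (Real.exp_pos _).trans_le hqc
  have spa := sp_res (n := u * s) (θ := θb) sp1 hqa hL (X₁ := A2) (Y₁ := B3) Subtype.val_injective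
    Subtype.val_injective (em r1 (hμ3.trans (mul_le_of_le_one_right rat_pos.le
      (rat_le Subtype.val_injective)))) ha.le (by linarith) (by linarith) (by exact_mod_cast H4)
  have spb := sp_res (n := r) sp2 hqb hL (Y₁ := C3) Function.injective_id Subtype.val_injective
    (by rw [rat_self, one_mul]
        exact hμ3.trans (mul_le_of_le_one_left rat_pos.le (rat_le Subtype.val_injective)))
    hb.le hb' (by linarith) H5
  have spc := sp_res (n := 2 * s) (M := 0) sp3 hqc hL Function.injective_id Function.injective_id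
    (by simp [rat_self]) hc.le hc' (by linarith) (by push_cast; linarith)
  have q0 : (0 : ℝ) < q := by linarith
  have hτ := cross3 (spa.mono le_rfl hru) spb (ε := ε) (fun y => by
      obtain ⟨z, hz⟩ := exp_ne (lt_of_lt_of_le (by linarith) (row_ge sp3 hc.le (by linarith) y)).ne'
      exact not_lt.1 (hS3 y z (of_ind_ne (left_ne_zero_of_mul hz))).2)
    (fun z => le_trans (by linarith) (sp2.deg_ge hb.le (by linarith) z)) ε0.le hr hεr hθr le_rfl
    (by exact_mod_cast q0) hq hqr (by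
      have k1 : Real.exp 1 ≤ 3 := by linarith [Real.exp_one_lt_d9]
      have k2 := pow_le_pow_left₀ (Real.exp_pos 1).le k1 q
      have k3 := pow_le_pow_left₀ (by norm_num) (show 2.7 ≤ Real.exp 1 by
        linarith [Real.exp_one_gt_d9]) 3
      rw [← Real.exp_nat_mul, mul_one] at k2 k3
      refine le_trans ?_ ((Real.exp_le_exp.2 hqL).trans k2)
      rw [Real.exp_add, mul_comm]
      exact mul_le_mul_of_nonneg_left (le_trans (by norm_num) k3) (Real.exp_pos _).le)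
    _ (fun y z => (spc.bd y z).1) (fun y z => (spc.bd y z).2)
    (by rw [Finset.expect_comm]; exact sp3.mean)
  have θ0 := spc.θ0
  have t3 := em (em t2 t1) (le_refl (Real.exp (-(2 * (θ / 8)))))
  have μ3 : Real.exp (-(L / γa + L / γb + L / γc)) ≤ rat A2 A0 * rat B3 B0 * rat C3 C0 := by
    refine (em μ2 hμ3).trans (le_of_eq ?_)
    rw [← rat_mul (X₂ := B3) (X₁ := B1) (X := B0), ← rat_mul (X₂ := C3) (X₁ := C2) (X := C0)]; ring
  have t4 := (Real.exp_pos _).trans_le t3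
  obtain ⟨p, hp, reg⟩ := reg3_of (m := m) (R := Real.exp (D + 1)) (fun _ _ _ => hG _ _ _)
    (spa.mono hbθ (hsr.trans hru)) (spb.mono hbθ hsr) spc qa0 qb0 qc0
    (mul_le_one₀ (mul_le_one₀ (q_le_one sp1 qa0) qb0.le (q_le_one sp2 qb0)) qc0.le
      (q_le_one sp3 qc0)) st3.rot (up0.comap (X₁ := A2) (Y₁ := B3) (Z₁ := C3)
    (Subtype.val_injective.comp Subtype.val_injective)
    (Subtype.val_injective.comp Subtype.val_injective)
    (Subtype.val_injective.comp Subtype.val_injective))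
    (mul_pos v0 ((Real.exp_pos _).trans_le (em t2 t1)))
    (div_nonneg v0.le (Real.rpow_nonneg ((Real.exp_pos _).le.trans μ3) _))
    (Real.exp_pos (-(2 * (θ / 8)))) (Real.exp_le_one_iff.2 (by linarith))
    (((exp_neg_le (by linarith) (by linarith)).trans (by linarith)).trans hτ)
    (Real.one_le_exp (by linarith)) (by
      rw [mul_assoc, one_div_le (mul_pos v0 t4) (Real.exp_pos _), one_div, ← Real.exp_neg]
      exact vv t3 (by linarith)) h1.le (by linarith) (by linarith) (by linarith) (by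
      have k1 := div_le_div₀ (by positivity) (div_rat v0.le h1.le μ3) (by positivity)
        (mul_le_mul_of_nonneg_left t3 v0.le)
      rw [mul_div_mul_left _ _ v0.ne', ← Real.exp_sub, ← mul_assoc] at k1
      simp only [← Real.exp_nat_mul, ← Real.exp_add, ← Real.exp_mul]
      refine (mul_le_mul_of_nonneg_right (mul_le_mul_of_nonneg_right k1 (by positivity))
        (by positivity)).trans ?_
      rw [← Real.exp_add, ← Real.exp_add]
      exact exp_half θ0 (by linarith) (by linarith))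
  refine core_res G (fun _ _ _ => (hG1 _ _ _).1) (X₁ := A2) (Y₁ := B3) (Z₁ := C3)
    (Subtype.val_injective.comp (Subtype.val_injective.comp Subtype.val_injective))
    (Subtype.val_injective.comp (Subtype.val_injective.comp Subtype.val_injective))
    (Subtype.val_injective.comp (Subtype.val_injective.comp Subtype.val_injective)) reg hs
    ⟨by simp; omega, by simp; omega, by simp; omega, ?_, ?_, ?_, by simp [hm], H1⟩ (by positivity)
    (le_trans ?_ hp) S hu (spa.mono hbθ le_rfl) ((em hμ0 μ3).trans (le_of_eq ?_))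
  iterate 3 simpa [hm] using Nat.le_mul_of_pos_left (s * s) hs
  · rw [mul_assoc, mul_comm]
    refine mul_le_mul hv (le_trans ?_ t3) (by norm_num) v0.le
    linarith [Real.add_one_le_exp (-(γ * l + γ * l + 2 * γ + γ * l + 2 * (θ / 8)))]
  · rw [← rat_mul (X₂ := A2) (X₁ := A0) (X := X), ← rat_mul (X₂ := B3) (X₁ := B0) (X := Y),
      ← rat_mul (X₂ := C3) (X₁ := C0) (X := Z)]
    ring

end Pool.Agent.Work.MP_af588c_co.GB
end

-- merged part: Pool.Agent.Work.MP_af588c_co.GB.Main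
section
/-! Choice of the parameters. -/

set_option linter.unusedSectionVars false

namespace Pool.Agent.Work.MP_af588c_co.GB

open Finset
open scoped BigOperators
open Pool.Agent.Work.MP_af588c_co.TB Pool.Agent.Work.MP_af588c_co.LB

variable {X Y Z : Type*} [Fintype X] [Fintype Y] [Fintype Z] [Nonempty X] [Nonempty Y] [Nonempty Z]

lemma pw17 {w : ℝ} (hw : 17 ≤ w) {a b : ℕ} (h : a < b) : 17 * w ^ a ≤ w ^ b :=
  le_trans (by rw [pow_succ']; gcongr) (pow_le_pow_right₀ (by linarith) (show a + 1 ≤ b from h))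

lemma iv17 {w : ℝ} (hw : 17 ≤ w) {a b : ℕ} (h : a < b) : 17 * (1 / w ^ b) ≤ 1 / w ^ a := by
  have : 0 < w := by linarith
  rw [mul_one_div, div_le_div_iff₀ (by positivity) (by positivity), one_mul]
  exact pw17 hw h

lemma num1 {w s D u q r l : ℝ} (hs : 1 ≤ s) (hsw : 17 * s ≤ w) (hD : 0 ≤ D)
    (hDw : 10 * (s * (D + 1)) ≤ w) (hu : w ^ 64 ≤ u) (hq0 : 0 ≤ q) (hq : q ≤ 2 * w ^ 7)
    (hr : w ^ 12 ≤ r) (hr' : r ≤ 2 * w ^ 12) (hl : l ≤ 14 * w) :
    24 * (1 / w ^ 3) * (s * (s * s)) ≤ 1 ∧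
    2 * (w ^ 7 / (1 / w ^ 33)) * (1 / (u * w ^ 49)) ≤ 1 / w ^ 72 / 2 ∧
    2 * (u * s * w ^ 7 + (w ^ 7 / (1 / w ^ 33) + w ^ 7 / (1 / w ^ 11))) * (1 / (u * w ^ 49))
      ≤ 1 / w ^ 13 / 2 ∧
    2 * (r * w ^ 7 + w ^ 7 / (1 / w ^ 11)) * (1 / w ^ 33) ≤ 1 / w ^ 13 / 2 ∧
    2 * (2 * s * w ^ 7) * (1 / w ^ 11) ≤ 1 / w ^ 3 / 2 ∧
    1 / (u * w ^ 63) * (w ^ 7 / (1 / (u * w ^ 49)) + w ^ 7 / (1 / w ^ 33) + w ^ 7 / (1 / w ^ 11))
      ≤ 1 / w ^ 6 ∧
    1 / (u * w ^ 63) * (3 * (s * (s * s)) * (2 * w ^ 7 + (D + 1)))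
      + 1 / w ^ 6 * (3 * l + 3 + 3 * (s * (s * s)) * (D + 1)) ≤ 1 / w ^ 3 / 4 ∧
    2 * (1 / w ^ 13) * r ≤ 1 ∧ 4 * (1 / w ^ 13) * r ≤ 1 ∧
    2 * (1 / w ^ 13) + 6 * q / r ≤ 1 / w ^ 3 / 8 ∧
    2 * (1 / w ^ 3) * (u * s * (u * s) * u) + w ^ 7 * (3 * (s * s) * (u * u))
      + (D / (1 / (u * w ^ 63)) + (w ^ 7 / (1 / (u * w ^ 49)) + w ^ 7 / (1 / w ^ 33)
        + w ^ 7 / (1 / w ^ 11))) * (s * u) ≤ u * u * u / 3 := by
  have hw : 17 ≤ w := by linarith
  have w0 : 0 < w := by linarith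
  have pw : ∀ a b : ℕ, a < b → 17 * w ^ a ≤ w ^ b := fun a b h => pw17 hw h
  have pp : ∀ a : ℕ, 0 < w ^ a := fun a => pow_pos w0 a
  have u0 : 0 < u := (pp 64).trans_le hu
  have pu : ∀ a b : ℕ, a < b + 64 → 17 * w ^ a ≤ w ^ b * u := fun a b h =>
    (pw _ _ h).trans (by rw [pow_add]; gcongr)
  have s1 : s ≤ w / 17 := by linarith
  have s2 : s * s ≤ w ^ 2 / 289 := by nlinarith
  have s3 : s * (s * s) ≤ w ^ 3 / 4913 := by nlinarith
  have d1 : s * (D + 1) ≤ w / 10 := by linarith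
  have d2 : D + 1 ≤ w / 10 := le_trans (le_mul_of_one_le_left (by linarith) hs) d1
  have r0 : 0 < r := (pp 12).trans_le hr
  refine ⟨?_, ?_, ?_, ?_, ?_, ?_, ?_, ?_, ?_, ?_, ?_⟩
  · rw [mul_one_div, div_mul_eq_mul_div, div_le_one (pp 3)]
    linarith [pp 3]
  · field_simp
    linarith [pu 63 0 (by norm_num), pp 63]
  · field_simp
    have := mul_le_mul_of_nonneg_left s1 u0.le
    nlinarith [pu 33 1 (by norm_num), pu 11 1 (by norm_num), pw 1 29 (by norm_num)]
  · field_simp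
    nlinarith [pw 12 13 (by norm_num), pw 11 13 (by norm_num), pp 12, pp 11]
  · field_simp
    linarith
  · field_simp
    nlinarith [pu 22 38 (by norm_num), pu 0 38 (by norm_num), pw 38 39 (by norm_num)]
  · have h1 : 3 * (s * (s * s)) * (2 * w ^ 7 + (D + 1)) ≤ w ^ 10 := by
      have : 2 * w ^ 7 + (D + 1) ≤ 3 * w ^ 7 := by nlinarith [pw 1 7 (by norm_num)]
      calc _ ≤ 3 * (w ^ 3 / 4913) * (3 * w ^ 7) := by gcongr
        _ ≤ _ := by nlinarith [pp 10]
    have h2 : 3 * l + 3 + 3 * (s * (s * s)) * (D + 1) ≤ w ^ 3 / 5 := by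
      have : s * s * (s * (D + 1)) ≤ w ^ 2 / 289 * (w / 10) := by gcongr
      nlinarith [pw 1 2 (by norm_num), pw 2 3 (by norm_num)]
    refine le_trans (add_le_add (mul_le_mul_of_nonneg_left h1 (by positivity))
      (mul_le_mul_of_nonneg_left h2 (by positivity))) ?_
    field_simp
    nlinarith [pu 0 50 (by norm_num), pu 50 50 (by norm_num), pw 0 50 (by norm_num)]
  · field_simp
    nlinarith [pw 12 13 (by norm_num), pp 12]
  · field_simp
    nlinarith [pw 12 13 (by norm_num), pp 12]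
  · have h1 : 6 * q / r ≤ 12 * w ^ 7 / w ^ 12 := div_le_div₀ (by positivity) (by linarith) (pp 12) hr
    refine le_trans (add_le_add le_rfl h1) ?_
    field_simp
    nlinarith [pw 8 9 (by norm_num), pw 9 10 (by norm_num), pw 0 8 (by norm_num), pp 8]
  · have e : 2 * (1 / w ^ 3) * (u * s * (u * s) * u) + w ^ 7 * (3 * (s * s) * (u * u))
        + (D / (1 / (u * w ^ 63)) + (w ^ 7 / (1 / (u * w ^ 49)) + w ^ 7 / (1 / w ^ 33)
        + w ^ 7 / (1 / w ^ 11))) * (s * u) = u * u * (2 * (s * s) / w ^ 3 * u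
          + 3 * (s * s) * w ^ 7 + s * D * w ^ 63 + s * w ^ 56 + s * ((w ^ 40 + w ^ 18) / u)) := by
      field_simp; ring
    have h1 : 2 * (s * s) / w ^ 3 ≤ 1 / 17 := by
      rw [div_le_iff₀ (pp 3)]
      nlinarith [pw 2 3 (by norm_num), pp 2]
    have h2 : 3 * (s * s) * w ^ 7 ≤ 3 * (w ^ 2 / 289) * w ^ 7 := by gcongr
    have h3 : s * D * w ^ 63 ≤ w / 10 * w ^ 63 := by gcongr; linarith
    have h4 : s * w ^ 56 ≤ w / 17 * w ^ 56 := by gcongr
    have h5 : s * ((w ^ 40 + w ^ 18) / u) ≤ w / 17 * 1 := by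
      gcongr
      rw [div_le_one u0]
      nlinarith [pw 40 64 (by norm_num), pw 18 64 (by norm_num), pp 64]
    have h6 := mul_le_mul_of_nonneg_right h1 u0.le
    rw [e, mul_div_assoc (u * u)]
    refine mul_le_mul_of_nonneg_left ?_ (by positivity)
    nlinarith [pw 9 64 (by norm_num), pw 57 64 (by norm_num), pw 1 64 (by norm_num), pp 9]

theorem main3 (G : X → Y → Z → ℝ) (hG : ∀ x y z, G x y z = 0 ∨ G x y z = 1) {D w : ℝ} (hD : 0 ≤ D)
    (hmean : Real.exp (-D) ≤ E3 G) (s u : ℕ) (hs : 1 ≤ s) (hsw : 17 * (s : ℝ) ≤ w)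
    (hDw : 10 * (s * (D + 1)) ≤ w) (hu : w ^ 64 ≤ u) (S : Finset (Fin s × Fin s × Fin s)) :
    ((5 / 6 * Real.exp (-D)) ^ S.card / 3 * (2 / 3)) ^ (u * u * u) ≤ K3 (pt G S) u := by
  have hs1 : (1 : ℝ) ≤ s := by exact_mod_cast hs
  have hw : 17 ≤ w := by linarith
  have w0 : 0 < w := by linarith
  have pw : ∀ a b : ℕ, a < b → 17 * w ^ a ≤ w ^ b := fun a b h => pw17 hw h
  have iv : ∀ a b : ℕ, a < b → 17 * (1 / w ^ b) ≤ 1 / w ^ a := fun a b h => iv17 hw h
  have pp : ∀ a : ℕ, 0 < w ^ a := fun a => pow_pos w0 a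
  have pi : ∀ a : ℕ, 0 < 1 / w ^ a := fun a => by positivity
  have u0 : (0 : ℝ) < u := (pp 64).trans_le hu
  have iu : ∀ a : ℕ, 1 / (u * w ^ a) ≤ 1 / w ^ (64 + a) := fun a =>
    one_div_le_one_div_of_le (pp _) (by rw [pow_add]; gcongr)
  obtain ⟨q, hq⟩ : ∃ q, q = 2 * ⌈(w ^ 7 + 3) / 2⌉₊ := ⟨_, rfl⟩
  obtain ⟨r, hr⟩ : ∃ r, r = 2 * ⌈w ^ 12 / 2⌉₊ + 1 := ⟨_, rfl⟩
  have q1 : w ^ 7 + 3 ≤ q ∧ (q : ℝ) ≤ 2 * w ^ 7 := by
    have h1 := Nat.le_ceil ((w ^ 7 + 3) / 2)
    have h2 := Nat.ceil_lt_add_one (show 0 ≤ (w ^ 7 + 3) / 2 by positivity)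
    rw [hq]; push_cast
    constructor <;> linarith [pw 0 7 (by norm_num)]
  have r1 : w ^ 12 ≤ r ∧ (r : ℝ) ≤ 2 * w ^ 12 := by
    have h1 := Nat.le_ceil (w ^ 12 / 2)
    have h2 := Nat.ceil_lt_add_one (show 0 ≤ w ^ 12 / 2 by positivity)
    rw [hr]; push_cast
    constructor <;> linarith [pw 0 12 (by norm_num)]
  have l1 : ∀ k : ℕ, Real.exp (k * Real.log w) = w ^ k := fun k => by
    rw [Real.exp_nat_mul, Real.exp_log w0]
  obtain ⟨n1, n2, n4, n5, n6, n7, n8, n9, n10, n11, n12⟩ := num1 (l := 14 * Real.log w) hs1 hsw hD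
    hDw hu (Nat.cast_nonneg q) q1.2 r1.1 r1.2 (by linarith [Real.log_le_sub_one_of_pos w0])
  have h := param3 G hG (l := 14 * Real.log w) hmean s u q r hs (by exact_mod_cast u0) S hD
    (pp 7).le (by have := Real.log_nonneg (show 1 ≤ w by linarith); positivity) (by positivity)
    (by linarith [iu 63, iv 6 (64 + 63) (by norm_num), pi 6]) (pi 13)
    (by linarith [iv 6 13 (by norm_num), pi 6]) (le_of_eq (by field_simp))
    (by rw [show 1 / w ^ 6 * w ^ 7 = w by field_simp]; nlinarith)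
    (by rw [div_div_eq_mul_div, div_one]
        linarith [l1 14, pw 13 14 (by norm_num), pp 13, (by norm_num : ((14 : ℕ) : ℝ) = 14) ▸ l1 14])
    (by positivity) (pi 33) (pi 11) (by linarith [iu 49, iv 72 (64 + 49) (by norm_num), pi 72])
    (by linarith [iv 13 72 (by norm_num), pi 13]) (by linarith [iv 13 33 (by norm_num), pi 13])
    (by linarith [iv 3 13 (by norm_num), pi 3]) (by linarith [iv 3 11 (by norm_num), pi 3])
    (by linarith [iv 13 33 (by norm_num), pi 13]) (by exact_mod_cast n1) n2 (by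
      have k1 : Real.exp (4 * (14 * Real.log w) + 6) ≤ w ^ 56 * 729 := by
        rw [Real.exp_add, show 4 * (14 * Real.log w) = (56 : ℕ) * Real.log w by push_cast; ring, l1]
        have k2 := pow_le_pow_left₀ (Real.exp_pos 1).le (show Real.exp 1 ≤ 3 by
          linarith [Real.exp_one_lt_d9]) 6
        rw [← Real.exp_nat_mul] at k2
        exact mul_le_mul_of_nonneg_left (by norm_num at k2 ⊢; exact k2) (pp 56).le
      rw [Real.exp_neg]
      refine le_trans ?_ (mul_le_mul_of_nonneg_left (inv_anti₀ (Real.exp_pos _) k1) (pi 13).le)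
      rw [show 1 / w ^ 13 * (w ^ 56 * 729)⁻¹ = 1 / w ^ 69 / 729 by field_simp]
      linarith [iu 49, iv 72 (64 + 49) (by norm_num), iv 71 72 (by norm_num),
        iv 70 71 (by norm_num), iv 69 70 (by norm_num), pi 72])
    n4 n5 n6 n7 (by exact_mod_cast n8) (hr ▸ odd_two_mul_add_one _) (hq ▸ even_two_mul _) q1.1
    (by have : (2 * q : ℝ) ≤ r := by linarith [pw 7 12 (by norm_num), pp 7]
        exact_mod_cast this)
    (by have : (2 * s : ℝ) ≤ r := by linarith [pw 1 12 (by norm_num)]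
        exact_mod_cast this)
    (by have : (r : ℝ) ≤ u * s := by nlinarith [pw 12 64 (by norm_num), pp 12]
        exact_mod_cast this) n9 n10 n11
  refine le_trans ?_ (le_trans (mul_le_mul_of_nonneg_left
    (Real.exp_le_exp.2 (neg_le_neg n12)) (by positivity)) h)
  rw [show -((u : ℝ) * u * u / 3) = ((u * u * u : ℕ) : ℝ) * (-(1 / 3)) by push_cast; ring,
    Real.exp_nat_mul, ← mul_pow]
  gcongr
  linarith [Real.add_one_le_exp (-(1 / 3) : ℝ)]

end Pool.Agent.Work.MP_af588c_co.GB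
end

-- merged part: Pool.Agent.Work.MP_af588c_co.GB.Fin
section
/-! Transfer to homomorphism counts. -/

set_option linter.unusedSectionVars false

namespace Pool.Agent.Work.MP_af588c_co.GB

open Finset
open scoped BigOperators
open Pool.Agent.Work.MP_af588c_co.TB Pool.Agent.Work.MP_af588c_co.LB

variable {n : ℕ} [NeZero n]

theorem blowup3 (E : Finset (Finset (Fin n))) (hE : ∀ e ∈ E, e.card = 3) {p : ℝ} (hp : 0 < p)
    (hc : p = (E.card : ℝ) / (n : ℝ) ^ 3) (s u : ℕ) (T : Finset (Fin s × Fin s × Fin s))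
    (hu : (10 * s * Real.log (1 / p)) ^ 64 ≤ u) (W : Type) [Fintype W] [DecidableEq W] (H : Set (Finset W))
    (col : W → Fin 3) (lab : W → Fin s)
    (hf : ∀ c i, (Finset.univ.filter fun w => col w = c ∧ lab w = i).card ≤ u)
    (hH : ∀ e ∈ H, ∃ x y z, e = {x, y, z} ∧ col x = 0 ∧ col y = 1 ∧ col z = 2 ∧
      (lab x, lab y, lab z) ∈ T) :
    p ^ (T.card * u ^ 3) * (n : ℝ) ^ Fintype.card W ≤ copies H E := by
  classical
  rw [copies_eq]
  refine mul_le_mul_of_nonneg_right ?_ (by positivity)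
  rcases T.eq_empty_or_nonempty with rfl | hTne
  · have : ∀ φ : W → Fin n, ind (∀ e ∈ H, e.image φ ∈ E) = 1 := fun φ => ind_of fun e he => by
      obtain ⟨x, y, z, -, -, -, -, h⟩ := hH e he
      exact absurd h (Finset.notMem_empty _)
    simp [this]
  have hs : 1 ≤ s := by obtain ⟨a, -⟩ := hTne; exact a.1.pos
  have hp6 : p ≤ 1 / 6 := hc ▸ dens_le E hE
  have hs1 : (1 : ℝ) ≤ s := by exact_mod_cast hs
  have l6 : 1.7 ≤ Real.log 6 := by
    rw [show (6 : ℝ) = 2 * 3 by norm_num, Real.log_mul (by norm_num) (by norm_num)]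
    have h3 : Real.log 8 ≤ Real.log 9 := Real.log_le_log (by norm_num) (by norm_num)
    rw [show (8 : ℝ) = 2 ^ 3 by norm_num, show (9 : ℝ) = 3 ^ 2 by norm_num, Real.log_pow,
      Real.log_pow] at h3
    push_cast at h3
    linarith [Real.log_two_gt_d9]
  have l7 : Real.log (1 / p) = Real.log 6 - Real.log (6 * p) := by
    rw [Real.log_mul (by norm_num) hp.ne', one_div, Real.log_inv]; ring
  have l8 := Real.log_nonpos (show 0 ≤ 6 * p by positivity) (by linarith)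
  have he : Real.exp (- -Real.log (6 * p)) = 6 * p := by
    rw [neg_neg, Real.exp_log (by positivity)]
  have h1 := main3 (fun x y z => ind (({x, y, z} : Finset (Fin n)) ∈ E))
    (fun _ _ _ => by unfold ind; split_ifs <;> simp) (D := -Real.log (6 * p)) (by linarith)
    (by rw [he, hc]; exact dens6 E hE) s u hs (by nlinarith) (by nlinarith) hu T
  have h2 : p ^ (T.card * u ^ 3) ≤ ((5 / 6 * Real.exp (- -Real.log (6 * p))) ^ T.card / 3
      * (2 / 3)) ^ (u * u * u) := by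
    rw [he, pow_mul, show u ^ 3 = u * u * u by ring, show 5 / 6 * (6 * p) = 5 * p by ring,
      mul_pow 5]
    refine pow_le_pow_left₀ (pow_pos hp _).le ?_ _
    have h3 : (5 : ℝ) ≤ 5 ^ T.card := le_self_pow₀ (by norm_num) hTne.card_pos.ne'
    have h4 : 0 < p ^ T.card := by positivity
    nlinarith
  refine h2.trans (h1.trans ?_)
  have hemb : ∀ c i, Nonempty ({w // col w = c ∧ lab w = i} ↪ Fin u) := fun c i =>
    Function.Embedding.nonempty_of_card_le (by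
      rw [Fintype.card_subtype, Fintype.card_fin]; exact hf c i)
  let f := fun c i => Classical.choice (hemb c i)
  let ι : W → (Fin 3 × Fin u) × Fin s := fun w =>
    ((col w, f (col w) (lab w) ⟨w, rfl, rfl⟩), lab w)
  have hval : ∀ w c i (h : col w = c) (h' : lab w = i), ι w = ((c, f c i ⟨w, h, h'⟩), i) := by
    intro w c i h h'; subst h h'; rfl
  have hι : Function.Injective ι := by
    intro w w' h
    have h1 : col w' = col w := (congrArg (fun a => a.1.1) h).symm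
    have h2 : lab w' = lab w := (congrArg Prod.snd h).symm
    rw [hval w' _ _ h1 h2, hval w _ _ rfl rfl] at h
    exact congrArg Subtype.val ((f (col w) (lab w)).injective (congrArg (fun a => a.1.2) h))
  rw [← exp_comp_inj ι hι, Fintype.expect_equiv (Equiv.curry (Fin 3 × Fin u) (Fin s) (Fin n))
    (fun ψ => ind (∀ e ∈ H, e.image (ψ ∘ ι) ∈ E))
    (fun ψ => ind (∀ e ∈ H, e.image (Function.uncurry ψ ∘ ι) ∈ E)) (fun _ => rfl), exp_mk3]
  refine exp_mono fun x => exp_mono fun y => ?_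
  unfold F
  rw [exp_pow]
  refine exp_mono fun z => le_ind ?_ fun h0 e he => ?_
  · have k0 : ∀ x y z : Fin s → Fin n, 0 ≤ pt (fun x y z => ind (({x, y, z} : Finset (Fin n)) ∈ E))
        T x y z := fun _ _ _ => Finset.prod_nonneg fun _ _ => ind_nonneg _
    refine Finset.prod_le_one (fun c _ => pe_nonneg (fun _ _ => k0 _ _ _) _ _ _) fun c _ => ?_
    refine Finset.prod_le_one (fun _ _ => k0 _ _ _) fun _ _ => ?_
    exact Finset.prod_le_one (fun _ _ => ind_nonneg _) fun _ _ => ind_le_one _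
  · obtain ⟨a, b, c, rfl, ha, hb, hc', hm⟩ := hH e he
    simp only [Finset.image_insert, Finset.image_singleton, Function.comp_apply,
      hval a _ _ ha rfl, hval b _ _ hb rfl, hval c _ _ hc' rfl]
    have k1 := Finset.prod_ne_zero_iff.1 h0 (f 2 _ ⟨c, hc', rfl⟩) (Finset.mem_univ _)
    have k2 := Finset.prod_ne_zero_iff.1 k1 (f 0 _ ⟨a, ha, rfl⟩, f 1 _ ⟨b, hb, rfl⟩)
      (Finset.mem_univ _)
    exact of_ind_ne (Finset.prod_ne_zero_iff.1 k2 _ hm)

end Pool.Agent.Work.MP_af588c_co.GB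
end
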